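import Pool.Agent.J4H49.Loc
import Pool.Agent.TH167.CL.Grow

set_option autoImplicit false

/-!
# Derivatives of binary forms
-/

namespace Pool.Agent.J4H49

open MvPolynomial Pool.Agent.TH167.CL

variable {K : Type} [Field K]

/-- The partial derivative as an endomorphism. -/
noncomputable def pd (a : Fin 2) : Module.End K (MvPolynomial (Fin 2) K) :=
  (pderiv a : Derivation K (MvPolynomial (Fin 2) K) (MvPolynomial (Fin 2) K)).toLinearMap

theorem pd_apply (a : Fin 2) (p : MvPolynomial (Fin 2) K) : pd a p = pderiv a p := rfl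

theorem coeff_pd0 (p : MvPolynomial (Fin 2) K) (a b : ℕ) :
    coeff (ex a b) (pd 0 p) = coeff (ex (a + 1) b) p * ((a : K) + 1) := by
  rw [pd_apply, coeff_pderiv, ex_succ_left, ex_zero]

theorem coeff_pd1 (p : MvPolynomial (Fin 2) K) (a b : ℕ) :
    coeff (ex a b) (pd 1 p) = coeff (ex a (b + 1)) p * ((b : K) + 1) := by
  rw [pd_apply, coeff_pderiv, ex_succ_right, ex_one]

theorem ext_ex {p q : MvPolynomial (Fin 2) K} (h : ∀ a b, coeff (ex a b) p = coeff (ex a b) q) :
    p = q := by
  ext s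
  rw [ex_eta s]
  exact h _ _

theorem pd_comm : (pd 0 : Module.End K (MvPolynomial (Fin 2) K)) * pd 1 = pd 1 * pd 0 := by
  refine LinearMap.ext fun p => ext_ex fun a b => ?_
  show coeff (ex a b) (pd 0 (pd 1 p)) = coeff (ex a b) (pd 1 (pd 0 p))
  rw [coeff_pd0, coeff_pd1, coeff_pd1, coeff_pd0]
  ring

theorem pd_commute : Commute (pd 0 : Module.End K (MvPolynomial (Fin 2) K)) (pd 1) := pd_comm

theorem coeff_pd0_pow (i : ℕ) : ∀ (p : MvPolynomial (Fin 2) K) (a b : ℕ),
    coeff (ex a b) ((pd 0 ^ i : Module.End K (MvPolynomial (Fin 2) K)) p) =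
      coeff (ex (a + i) b) p * ((a + 1).ascFactorial i : K) := by
  induction i with
  | zero =>
    intro p a b
    rw [pow_zero, Module.End.one_apply, Nat.ascFactorial_zero, add_zero, Nat.cast_one, mul_one]
  | succ i ih =>
    intro p a b
    rw [pow_succ, Module.End.mul_apply, ih, coeff_pd0, Nat.ascFactorial_succ]
    have e : a + i + 1 = a + (i + 1) := by ring
    rw [e]
    push_cast
    ring

theorem coeff_pd1_pow (i : ℕ) : ∀ (p : MvPolynomial (Fin 2) K) (a b : ℕ),
    coeff (ex a b) ((pd 1 ^ i : Module.End K (MvPolynomial (Fin 2) K)) p) =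
      coeff (ex a (b + i)) p * ((b + 1).ascFactorial i : K) := by
  induction i with
  | zero =>
    intro p a b
    rw [pow_zero, Module.End.one_apply, Nat.ascFactorial_zero, add_zero, Nat.cast_one, mul_one]
  | succ i ih =>
    intro p a b
    rw [pow_succ, Module.End.mul_apply, ih, coeff_pd1, Nat.ascFactorial_succ]
    have e : b + i + 1 = b + (i + 1) := by ring
    rw [e]
    push_cast
    ring

/-- The coefficients of the partial derivatives. -/
theorem coeff_pp (i j : ℕ) (p : MvPolynomial (Fin 2) K) (a b : ℕ) :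
    coeff (ex a b) ((pd 0 ^ i * pd 1 ^ j : Module.End K (MvPolynomial (Fin 2) K)) p) =
      coeff (ex (a + i) (b + j)) p * (((a + 1).ascFactorial i : K) *
        ((b + 1).ascFactorial j : K)) := by
  rw [Module.End.mul_apply, coeff_pd0_pow, coeff_pd1_pow]
  ring

theorem asc_ne [CharZero K] (a i : ℕ) : ((a + 1).ascFactorial i : K) ≠ 0 :=
  Nat.cast_ne_zero.2 (Nat.ascFactorial_pos _ _).ne'

theorem ex_degree (a b : ℕ) : (ex a b).degree = a + b := by
  rw [Finsupp.degree_eq_sum, Fin.sum_univ_two, ex_zero, ex_one]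

theorem hom_iff {p : MvPolynomial (Fin 2) K} {c : ℕ} :
    p.IsHomogeneous c ↔ ∀ a b, a + b ≠ c → coeff (ex a b) p = 0 := by
  constructor
  · intro h a b hab
    by_contra hne
    have h1 := h hne
    apply hab
    rw [← ex_degree, Finsupp.degree_eq_weight_one]
    exact h1
  · intro h s hs
    by_contra hne
    apply hs
    rw [ex_eta s]
    apply h
    intro h2
    apply hne
    have h3 : s.degree = c := by
      rw [Finsupp.degree_eq_sum, Fin.sum_univ_two]
      exact h2
    rw [Finsupp.degree_eq_weight_one] at h3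
    exact h3

theorem hom_pp {p : MvPolynomial (Fin 2) K} {c i j : ℕ} (hp : p.IsHomogeneous c) (h : i + j ≤ c) :
    ((pd 0 ^ i * pd 1 ^ j : Module.End K (MvPolynomial (Fin 2) K)) p).IsHomogeneous
      (c - i - j) := by
  rw [hom_iff] at hp ⊢
  intro a b hab
  rw [coeff_pp, hp _ _ (by omega), zero_mul]

/-- The differential operator of degree `c` with coefficients `Q`. -/
noncomputable def ap (c : ℕ) (Q : Polynomial K) : Module.End K (MvPolynomial (Fin 2) K) :=
  ∑ i ∈ Finset.range (c + 1), Q.coeff i • (pd 0 ^ i * pd 1 ^ (c - i))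

theorem ap_apply (c : ℕ) (Q : Polynomial K) (p : MvPolynomial (Fin 2) K) :
    ap c Q p = ∑ i ∈ Finset.range (c + 1),
      Q.coeff i • ((pd 0 ^ i * pd 1 ^ (c - i) : Module.End K (MvPolynomial (Fin 2) K)) p) := by
  unfold ap
  rw [LinearMap.sum_apply]
  rfl

theorem ap_succ_zero {c : ℕ} {Q : Polynomial K} (hQ : Q.coeff (c + 1) = 0) :
    ap (c + 1) Q = pd 1 * ap c Q := by
  unfold ap
  rw [Finset.sum_range_succ, hQ, zero_smul, add_zero, Finset.mul_sum]
  refine Finset.sum_congr rfl fun i hi => ?_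
  rw [Finset.mem_range] at hi
  have e : c + 1 - i = (c - i) + 1 := by omega
  rw [e, pow_succ' _ (c - i), mul_smul_comm, ← mul_assoc, ← mul_assoc,
    (pd_commute.pow_left i).eq]

theorem ap_succ_root {c : ℕ} {Q : Polynomial K} (a : K) (hQ : Q.natDegree ≤ c) :
    ap (c + 1) ((Polynomial.X - Polynomial.C a) * Q) = (pd 0 - a • pd 1) * ap c Q := by
  have h1 : ap (c + 1) ((Polynomial.X - Polynomial.C a) * Q) =
      ap (c + 1) (Polynomial.X * Q) - a • ap (c + 1) Q := by
    unfold ap
    rw [Finset.smul_sum, ← Finset.sum_sub_distrib]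
    refine Finset.sum_congr rfl fun i _ => ?_
    rw [sub_mul, Polynomial.coeff_sub, Polynomial.coeff_C_mul]
    module
  have h2 : ap (c + 1) (Polynomial.X * Q) = pd 0 * ap c Q := by
    unfold ap
    rw [Finset.sum_range_succ', Polynomial.coeff_X_mul_zero, zero_smul, add_zero, Finset.mul_sum]
    refine Finset.sum_congr rfl fun i hi => ?_
    rw [Polynomial.coeff_X_mul, mul_smul_comm, ← mul_assoc, ← pow_succ']
    have e : c + 1 - (i + 1) = c - i := by omega
    rw [e]
  rw [h1, h2, ap_succ_zero (Polynomial.coeff_eq_zero_of_natDegree_lt (by omega)), sub_mul,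
    smul_mul_assoc]

theorem ap_zero_poly (Q : Polynomial K) : ap 0 Q = Q.coeff 0 • 1 := by
  unfold ap
  simp

theorem ap_comm (c i j : ℕ) (Q : Polynomial K) (p : MvPolynomial (Fin 2) K) :
    ap c Q ((pd 0 ^ i * pd 1 ^ j : Module.End K (MvPolynomial (Fin 2) K)) p) =
      (pd 0 ^ i * pd 1 ^ j : Module.End K (MvPolynomial (Fin 2) K)) (ap c Q p) := by
  have h : Commute (ap c Q) (pd 0 ^ i * pd 1 ^ j : Module.End K (MvPolynomial (Fin 2) K)) := by
    unfold ap
    refine Commute.sum_left _ _ _ fun l _ => ?_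
    refine Commute.smul_left ?_ _
    have c0 : Commute (pd 0 : Module.End K (MvPolynomial (Fin 2) K)) (pd 0) := Commute.refl _
    have c1 : Commute (pd 1 : Module.End K (MvPolynomial (Fin 2) K)) (pd 1) := Commute.refl _
    have c2 : Commute (pd 1 : Module.End K (MvPolynomial (Fin 2) K)) (pd 0) := pd_commute.symm
    exact Commute.mul_left
      (Commute.mul_right ((c0.pow_left l).pow_right i) ((pd_commute.pow_left l).pow_right j))
      (Commute.mul_right ((c2.pow_left _).pow_right i) ((c1.pow_left _).pow_right j))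
  exact LinearMap.congr_fun h.eq p

theorem hom_ap {p : MvPolynomial (Fin 2) K} {c m : ℕ} (hp : p.IsHomogeneous m) (h : c ≤ m)
    (Q : Polynomial K) : (ap c Q p).IsHomogeneous (m - c) := by
  rw [ap_apply]
  refine IsHomogeneous.sum _ _ _ fun i hi => ?_
  rw [Finset.mem_range] at hi
  have h1 := hom_pp (i := i) (j := c - i) hp (by omega)
  have e : m - i - (c - i) = m - c := by omega
  rw [e] at h1
  rw [smul_eq_C_mul]
  exact IsHomogeneous.C_mul h1 _

theorem hom_zero {p : MvPolynomial (Fin 2) K} (h : p.IsHomogeneous 0) :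
    p = C (coeff (ex 0 0) p) := by
  refine ext_ex fun a b => ?_
  rw [hom_iff] at h
  rw [coeff_C]
  by_cases hab : a + b = 0
  · have ha : a = 0 := by omega
    have hb : b = 0 := by omega
    rw [ha, hb, if_pos]
    ext i
    fin_cases i
    · exact (ex_zero _ _).symm
    · exact (ex_one _ _).symm
  · rw [h a b hab, if_neg]
    intro h1
    apply hab
    rw [← ex_degree, ← h1, map_zero]

/-- The pairing of operators and forms of the same degree. -/
theorem ap_pair {p : MvPolynomial (Fin 2) K} {c : ℕ} (hp : p.IsHomogeneous c)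
    (Q : Polynomial K) : ap c Q p = C (∑ i ∈ Finset.range (c + 1), Q.coeff i *
      (coeff (ex i (c - i)) p * ((i.factorial : K) * ((c - i).factorial : K)))) := by
  have h1 := hom_ap hp le_rfl Q
  rw [Nat.sub_self] at h1
  rw [hom_zero h1, ap_apply, coeff_sum]
  congr 1
  refine Finset.sum_congr rfl fun i _ => ?_
  rw [coeff_smul, coeff_pp, smul_eq_mul, zero_add, zero_add, Nat.one_ascFactorial,
    Nat.one_ascFactorial]

theorem mono_ex (a b : ℕ) : (X 0 ^ a * X 1 ^ b : MvPolynomial (Fin 2) K) = monomial (ex a b) 1 := by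
  rw [monomial_eq, Finsupp.prod_fintype _ _ (fun i => pow_zero _), Fin.prod_univ_two, ex_zero,
    ex_one, C_1, one_mul]

theorem ex_inj {a b a' b' : ℕ} : ex a b = ex a' b' ↔ a = a' ∧ b = b' := by
  constructor
  · intro h
    have h0 := DFunLike.congr_fun h 0
    have h1 := DFunLike.congr_fun h 1
    rw [ex_zero, ex_zero] at h0
    rw [ex_one, ex_one] at h1
    exact ⟨h0, h1⟩
  · rintro ⟨rfl, rfl⟩
    rfl

theorem coeff_mono (a b a' b' : ℕ) : coeff (ex a' b') (X 0 ^ a * X 1 ^ b : MvPolynomial (Fin 2) K) =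
    if a = a' ∧ b = b' then 1 else 0 := by
  classical
  rw [mono_ex, coeff_monomial]
  by_cases h : a = a' ∧ b = b'
  · rw [if_pos h, if_pos (ex_inj.2 h)]
  · rw [if_neg h, if_neg (fun h1 => h (ex_inj.1 h1))]

theorem mono_hom (a b : ℕ) : (X 0 ^ a * X 1 ^ b : MvPolynomial (Fin 2) K).IsHomogeneous (a + b) := by
  rw [hom_iff]
  intro a' b' h
  rw [coeff_mono, if_neg]
  rintro ⟨rfl, rfl⟩
  exact h rfl

theorem hom_sum {p : MvPolynomial (Fin 2) K} {c : ℕ} (hp : p.IsHomogeneous c) :
    p = ∑ i ∈ Finset.range (c + 1), coeff (ex i (c - i)) p • (X 0 ^ i * X 1 ^ (c - i)) := by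
  refine ext_ex fun a b => ?_
  rw [coeff_sum]
  simp only [coeff_smul, coeff_mono, smul_eq_mul]
  by_cases h : a + b = c
  · rw [Finset.sum_eq_single a]
    · have e : c - a = b := by omega
      rw [e, if_pos ⟨rfl, rfl⟩, mul_one]
    · intro i _ hi
      rw [if_neg (fun h => hi h.1), mul_zero]
    · intro h2
      rw [Finset.mem_range] at h2
      omega
  · rw [hom_iff] at hp
    rw [hp a b h, Finset.sum_eq_zero]
    intro i hi
    rw [Finset.mem_range] at hi
    rw [if_neg, mul_zero]
    rintro ⟨h1, h2⟩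
    omega

/-- A space of forms of degree `c` which is not everything is killed by an operator. -/
theorem exists_op [CharZero K] {c : ℕ} (U : Submodule K (MvPolynomial (Fin 2) K))
    (hU : ∀ p ∈ U, p.IsHomogeneous c) {p0 : MvPolynomial (Fin 2) K} (hp0 : p0.IsHomogeneous c)
    (h0 : p0 ∉ U) : ∃ Q : Polynomial K, Q ≠ 0 ∧ Q.natDegree ≤ c ∧ ∀ p ∈ U, ap c Q p = 0 := by
  classical
  obtain ⟨φ, hφ1, hφ2⟩ := Submodule.exists_le_ker_of_notMem h0
  let Q : Polynomial K := ∑ i ∈ Finset.range (c + 1),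
    Polynomial.monomial i (φ (X 0 ^ i * X 1 ^ (c - i)) / ((i.factorial : K) *
      ((c - i).factorial : K)))
  have hQc : ∀ i, i < c + 1 → Q.coeff i = φ (X 0 ^ i * X 1 ^ (c - i)) / ((i.factorial : K) *
      ((c - i).factorial : K)) := by
    intro i hi
    rw [Polynomial.finsetSum_coeff, Finset.sum_eq_single i]
    · rw [Polynomial.coeff_monomial, if_pos rfl]
    · intro j _ hj
      rw [Polynomial.coeff_monomial, if_neg hj]
    · intro h
      exact absurd (Finset.mem_range.2 hi) h
  have hfac : ∀ i, ((i.factorial : K) * ((c - i).factorial : K)) ≠ 0 := fun i =>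
    mul_ne_zero (Nat.cast_ne_zero.2 (Nat.factorial_pos _).ne')
      (Nat.cast_ne_zero.2 (Nat.factorial_pos _).ne')
  have hpair : ∀ p : MvPolynomial (Fin 2) K, p.IsHomogeneous c → ap c Q p = C (φ p) := by
    intro p hp
    rw [ap_pair hp]
    congr 1
    conv_rhs => rw [hom_sum hp, map_sum]
    refine Finset.sum_congr rfl fun i hi => ?_
    rw [Finset.mem_range] at hi
    rw [hQc i hi, map_smul, smul_eq_mul, div_mul_eq_mul_div, div_eq_iff (hfac i)]
    ring
  refine ⟨Q, ?_, ?_, ?_⟩
  · intro h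
    have h1 := hpair p0 hp0
    have h2 : ap c (0 : Polynomial K) p0 = 0 := by
      rw [ap_apply]
      simp
    rw [h, h2] at h1
    exact hφ1 (C_injective (Fin 2) K (by rw [← h1, C_0]))
  · refine Polynomial.natDegree_sum_le_of_forall_le _ _ fun i hi => ?_
    rw [Finset.mem_range] at hi
    exact (Polynomial.natDegree_monomial_le _).trans (by omega)
  · intro p hp
    rw [hpair p (hU p hp)]
    have : φ p = 0 := hφ2 hp
    rw [this, C_0]

/-- A form is zero if its highest derivatives are zero. -/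
theorem zero_of_pp [CharZero K] {p : MvPolynomial (Fin 2) K} {c : ℕ} (hp : p.IsHomogeneous c)
    (h : ∀ i j, i + j = c →
      (pd 0 ^ i * pd 1 ^ j : Module.End K (MvPolynomial (Fin 2) K)) p = 0) : p = 0 := by
  refine ext_ex fun a b => ?_
  rw [coeff_zero]
  by_cases hab : a + b = c
  · have h1 := congrArg (coeff (ex 0 0)) (h a b hab)
    rw [coeff_pp, zero_add, zero_add, coeff_zero] at h1
    exact (mul_eq_zero.1 h1).resolve_right (mul_ne_zero (asc_ne 0 a) (asc_ne 0 b))
  · rw [hom_iff] at hp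
    exact hp a b hab

/-- The space of the partial derivatives of order `t`. -/
noncomputable def Dq (F : MvPolynomial (Fin 2) K) (t : ℕ) :
    Submodule K (MvPolynomial (Fin 2) K) :=
  Submodule.span K (Set.range fun i : Fin (t + 1) =>
    (pd 0 ^ (i : ℕ) * pd 1 ^ (t - i) : Module.End K (MvPolynomial (Fin 2) K)) F)

theorem pp_mem_dq (F : MvPolynomial (Fin 2) K) {i j t : ℕ} (h : i + j = t) :
    (pd 0 ^ i * pd 1 ^ j : Module.End K (MvPolynomial (Fin 2) K)) F ∈ Dq F t := by
  refine Submodule.subset_span ⟨⟨i, by omega⟩, ?_⟩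
  have e : t - i = j := by omega
  show (pd 0 ^ i * pd 1 ^ (t - i) : Module.End K (MvPolynomial (Fin 2) K)) F = _
  rw [e]

theorem dq_induct {F : MvPolynomial (Fin 2) K} {t : ℕ}
    (S : Submodule K (MvPolynomial (Fin 2) K))
    (h : ∀ i j, i + j = t → (pd 0 ^ i * pd 1 ^ j : Module.End K (MvPolynomial (Fin 2) K)) F ∈ S) :
    Dq F t ≤ S := by
  unfold Dq
  rw [Submodule.span_le]
  rintro _ ⟨i, rfl⟩
  exact h _ _ (by have := i.2; omega)

theorem dq_hom {F : MvPolynomial (Fin 2) K} {m t : ℕ} (hF : F.IsHomogeneous m) (ht : t ≤ m)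
    {p : MvPolynomial (Fin 2) K} (hp : p ∈ Dq F t) : p.IsHomogeneous (m - t) := by
  have h1 : Dq F t ≤ homogeneousSubmodule (Fin 2) K (m - t) := by
    refine dq_induct _ fun i j hij => ?_
    have := hom_pp (i := i) (j := j) hF (by omega)
    have e : m - i - j = m - t := by omega
    rw [e] at this
    exact this
  exact h1 hp

theorem ap_mem_dq (F : MvPolynomial (Fin 2) K) (c : ℕ) (Q : Polynomial K) :
    ap c Q F ∈ Dq F c := by
  rw [ap_apply]
  refine Submodule.sum_mem _ fun i hi => Submodule.smul_mem _ _ ?_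
  rw [Finset.mem_range] at hi
  exact pp_mem_dq F (by omega)

/-- An operator which kills a space of derivatives kills the form. -/
theorem ap_zero [CharZero K] {F : MvPolynomial (Fin 2) K} {m c : ℕ} (hF : F.IsHomogeneous m)
    (hc : c ≤ m) {Q : Polynomial K} (h : ∀ p ∈ Dq F (m - c), ap c Q p = 0) : ap c Q F = 0 := by
  refine zero_of_pp (hom_ap hF hc Q) fun i j hij => ?_
  rw [← ap_comm]
  exact h _ (pp_mem_dq F hij)

/-- If all forms of degree `c` are derivatives of `F`, no operator of degree `c` kills `F`. -/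
theorem ap_ne [CharZero K] {F : MvPolynomial (Fin 2) K} {m c : ℕ}
    (hall : ∀ p : MvPolynomial (Fin 2) K, p.IsHomogeneous c → p ∈ Dq F (m - c))
    {Q : Polynomial K} (hQ0 : Q ≠ 0) (hQ : Q.natDegree ≤ c) : ap c Q F ≠ 0 := by
  intro h
  apply hQ0
  have h1 : ∀ p ∈ Dq F (m - c), ap c Q p = 0 := by
    have h2 : Dq F (m - c) ≤ LinearMap.ker (ap c Q) := by
      refine dq_induct _ fun i j hij => ?_
      rw [LinearMap.mem_ker, ap_comm, h, map_zero]
    exact fun p hp => h2 hp
  ext i
  rw [Polynomial.coeff_zero]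
  rcases Nat.lt_or_ge c i with hlt | hge
  · exact Polynomial.coeff_eq_zero_of_natDegree_lt (by omega)
  · have h3 : (X 0 ^ i * X 1 ^ (c - i) : MvPolynomial (Fin 2) K).IsHomogeneous c := by
      have := mono_hom (K := K) i (c - i)
      have e : i + (c - i) = c := by omega
      rwa [e] at this
    have h4 := h1 _ (hall _ h3)
    rw [ap_pair h3, Finset.sum_eq_single i] at h4
    · rw [coeff_mono, if_pos ⟨rfl, rfl⟩, one_mul] at h4
      have h5 := C_injective (Fin 2) K (h4.trans C_0.symm)
      exact (mul_eq_zero.1 h5).resolve_right (mul_ne_zero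
        (Nat.cast_ne_zero.2 (Nat.factorial_pos _).ne')
        (Nat.cast_ne_zero.2 (Nat.factorial_pos _).ne'))
    · intro j _ hj
      rw [coeff_mono, if_neg (fun h => hj h.1.symm), zero_mul, mul_zero]
    · intro h5
      rw [Finset.mem_range] at h5
      omega

end Pool.Agent.J4H49
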