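import Pool.Agent.J4H49.Full

set_option autoImplicit false

/-!
# The bound from the growth of the systems
-/

namespace Pool.Agent.J4H49

open MvPolynomial Pool.Agent.W609 Pool.Agent.W609.CR Pool.Agent.TH167.SH Pool.Agent.TH167.TT
  Pool.Agent.TH167.CL Pool.Agent.TH167.T3 Pool.Agent.H248R5 Pool.Agent.H248R6

theorem two_ch (x : ℕ) : 2 * ((x + 1).choose 2 : ℤ) = ((x : ℤ) + 1) * x := by
  rcases Nat.eq_zero_or_pos x with h | h
  · rw [h]
    rfl
  · obtain ⟨z, rfl⟩ : ∃ z, x = z + 1 := ⟨x - 1, by omega⟩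
    have h1 := H932R7.two_choose z
    have h2 : z + 1 + 1 = z + 2 := rfl
    rw [h2]
    have h3 : ((2 * (z + 2).choose 2 : ℕ) : ℤ) = (((z + 1) * (z + 2) : ℕ) : ℤ) := by rw [h1]
    push_cast at h3 ⊢
    linarith

/-- The loss of one step. -/
def los (a N : ℕ) : ℤ :=
  if N < a then 2 * ((a : ℤ) + 1) * (a + 2) - (N + 1) * (N + 2)
  else if N < 2 * a + 1 then (2 * (a : ℤ) + 1 - N) * (2 * a + 2 - N) else 0

/-- The gain of one step. -/
theorem gn_los {a N : ℕ} (hN : N ≤ 2 * a + 1) :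
    2 * gn (a + 2) N = 2 * ((a : ℤ) + 2) * (a + 1) - los a N := by
  unfold gn
  have e1 : N + 2 = (N + 1) + 1 := rfl
  have h1 := two_ch (N + 1)
  rw [← e1] at h1
  rcases Nat.lt_or_ge N a with hlt | hge
  · have e2 : N + 2 - (a + 2) = 0 := by omega
    have e3 : N + 3 - (a + 2) = 0 ∨ N + 3 - (a + 2) = 1 := by omega
    have e4 : (N + 3 - (a + 2)).choose 2 = 0 := by
      rcases e3 with h | h <;> rw [h] <;> rfl
    rw [e2, e4]
    have e5 : Nat.choose 0 2 = 0 := rfl
    rw [e5]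
    unfold los
    rw [if_pos hlt]
    push_cast at h1 ⊢
    linarith
  · obtain ⟨x, hx⟩ : ∃ x, N = a + x := ⟨N - a, by omega⟩
    have e2 : N + 2 - (a + 2) = x := by omega
    have e3 : N + 3 - (a + 2) = x + 1 := by omega
    rw [e2, e3]
    have h3 := two_ch x
    have h4 : 2 * (x.choose 2 : ℤ) = (x : ℤ) * (x - 1) := by
      rcases Nat.eq_zero_or_pos x with h | h
      · rw [h]
        rfl
      · obtain ⟨z, rfl⟩ : ∃ z, x = z + 1 := ⟨x - 1, by omega⟩
        rw [two_ch z]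
        push_cast
        ring
    have h5 : los a N = (2 * (a : ℤ) + 1 - N) * (2 * a + 2 - N) := by
      unfold los
      rw [if_neg (by omega)]
      split_ifs with h
      · rfl
      · have h6 : N = 2 * a + 1 := by omega
        rw [h6]
        push_cast
        ring
    rw [h5]
    have h6 : (N : ℤ) = a + x := by exact_mod_cast hx
    push_cast at h1 ⊢
    rw [h6] at h1 ⊢
    linear_combination h1 - h3 - h4

theorem los_nonneg (a N : ℕ) : 0 ≤ los a N := by
  unfold los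
  split_ifs with h1 h2
  · have h3 : (N : ℤ) + 1 ≤ a := by exact_mod_cast h1
    have h4 : (0 : ℤ) ≤ N := Int.natCast_nonneg N
    nlinarith
  · have h3 : (N : ℤ) + 1 ≤ 2 * a + 1 := by exact_mod_cast h2
    exact mul_nonneg (by linarith) (by linarith)
  · exact le_refl 0

theorem los_succ (a N : ℕ) : los a (N + 1) ≤ los a N := by
  rcases Nat.lt_trichotomy (N + 1) a with h | h | h
  · unfold los
    rw [if_pos h, if_pos (by omega)]
    push_cast
    have h4 : (0 : ℤ) ≤ N := Int.natCast_nonneg N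
    nlinarith
  · unfold los
    rw [if_neg (by omega), if_pos (by omega), if_pos (by omega)]
    rw [← h]
    push_cast
    have h4 : (0 : ℤ) ≤ N := Int.natCast_nonneg N
    nlinarith
  · rcases Nat.lt_or_ge (N + 1) (2 * a + 1) with h2 | h2
    · unfold los
      rw [if_neg (by omega), if_pos h2, if_neg (by omega), if_pos (by omega)]
      have h3 : (N : ℤ) + 2 ≤ 2 * a + 1 := by exact_mod_cast h2
      push_cast
      nlinarith
    · have h3 : los a (N + 1) = 0 := by
        unfold los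
        rw [if_neg (by omega), if_neg (by omega)]
      rw [h3]
      exact los_nonneg a N

theorem los_anti (a : ℕ) : Antitone (los a) := antitone_nat_of_succ_le (los_succ a)

theorem los_min (a N : ℕ) : los a (min N (2 * a + 1)) = los a N := by
  rcases Nat.lt_or_ge N (2 * a + 1) with h | h
  · rw [min_eq_left h.le]
  · rw [min_eq_right h]
    unfold los
    rw [if_neg (by omega), if_neg (by omega), if_neg (by omega), if_neg (by omega)]

/-- The comparison of sums. -/
theorem block {h : ℕ → ℤ} (ha : Antitone h) (μ : ℕ) : ∀ n : ℕ,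
    (μ : ℤ) * ∑ i ∈ Finset.range n, h ((i + 1) * μ) ≤ ∑ j ∈ Finset.range (n * μ), h (j + 1) := by
  intro n
  induction n with
  | zero => simp
  | succ n ih =>
    rw [Finset.sum_range_succ, mul_add, Nat.succ_mul, Finset.sum_range_add]
    refine add_le_add ih ?_
    have h1 : ∑ _j ∈ Finset.range μ, h ((n + 1) * μ) ≤ ∑ j ∈ Finset.range μ, h (n * μ + j + 1) := by
      refine Finset.sum_le_sum fun j hj => ha ?_
      rw [Finset.mem_range] at hj
      rw [Nat.succ_mul]
      omega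
    rw [Finset.sum_const, Finset.card_range, nsmul_eq_mul, Nat.succ_mul] at h1
    exact h1

theorem sum_sq1 (a : ℕ) : 3 * ∑ j ∈ Finset.range a, (((j : ℤ) + 2) * (j + 3)) =
    ((a : ℤ) + 1) * (a + 2) * (a + 3) - 6 := by
  induction a with
  | zero => norm_num
  | succ a ih =>
    rw [Finset.sum_range_succ, mul_add, ih]
    push_cast
    ring

theorem sum_sq2 (a : ℕ) : 3 * ∑ j ∈ Finset.range (a + 1), (((a : ℤ) - j) * (a - j + 1)) =
    (a : ℤ) * (a + 1) * (a + 2) := by
  have h1 : ∀ a : ℕ, 3 * ∑ j ∈ Finset.range (a + 1), ((j : ℤ) * (j + 1)) =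
      (a : ℤ) * (a + 1) * (a + 2) := by
    intro a
    induction a with
    | zero => simp
    | succ a ih =>
      rw [Finset.sum_range_succ, mul_add, ih]
      push_cast
      ring
  rw [← h1, ← Finset.sum_range_reflect]
  congr 1
  refine Finset.sum_congr rfl fun j hj => ?_
  rw [Finset.mem_range] at hj
  have e : ((a + 1 - 1 - j : ℕ) : ℤ) = a - j := by
    have : a + 1 - 1 - j = a - j := by omega
    rw [this, Nat.cast_sub (by omega)]
  rw [e]
  ring

/-- The sum of all losses. -/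
theorem sum_los (a : ℕ) : ∑ j ∈ Finset.range (2 * a + 1), los a (j + 1) =
    ((a : ℤ) + 1) * (a + 2) * (2 * a - 1) + 2 := by
  have e : 2 * a + 1 = a + (a + 1) := by ring
  rw [e, Finset.sum_range_add]
  have h1 : ∑ j ∈ Finset.range a, los a (j + 1) = ∑ j ∈ Finset.range a,
      (2 * ((a : ℤ) + 1) * (a + 2) - ((j : ℤ) + 2) * (j + 3)) := by
    refine Finset.sum_congr rfl fun j hj => ?_
    rw [Finset.mem_range] at hj
    rcases Nat.lt_or_ge (j + 1) a with h | h
    · unfold los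
      rw [if_pos h]
      push_cast
      ring
    · have h2 : a = j + 1 := by omega
      unfold los
      rw [if_neg (by omega), if_pos (by omega), h2]
      push_cast
      ring
  have h2 : ∑ j ∈ Finset.range (a + 1), los a (a + j + 1) = ∑ j ∈ Finset.range (a + 1),
      (((a : ℤ) - j) * (a - j + 1)) := by
    refine Finset.sum_congr rfl fun j hj => ?_
    rw [Finset.mem_range] at hj
    rcases Nat.lt_or_ge j a with h | h
    · unfold los
      rw [if_neg (by omega), if_pos (by omega)]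
      push_cast
      ring
    · have h2 : a = j := by omega
      unfold los
      rw [if_neg (by omega), if_neg (by omega), h2]
      ring
  rw [h1, h2, Finset.sum_sub_distrib, Finset.sum_const, Finset.card_range, nsmul_eq_mul]
  have h3 := sum_sq1 a
  have h4 := sum_sq2 a
  nlinarith

/-- The sum of the losses. -/
theorem sum_loss (a μ n : ℕ) : (μ : ℤ) * ∑ i ∈ Finset.range n, los a ((i + 1) * μ) ≤
    ((a : ℤ) + 1) * (a + 2) * (2 * a - 1) + 2 := by
  refine (block (los_anti a) μ n).trans ?_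
  rw [← sum_los]
  have h0 : ∀ j, 2 * a + 1 ≤ j → los a (j + 1) = 0 := by
    intro j hj
    unfold los
    rw [if_neg (by omega), if_neg (by omega)]
  rcases Nat.le_total (n * μ) (2 * a + 1) with h | h
  · exact Finset.sum_le_sum_of_subset_of_nonneg (Finset.range_mono h)
      (fun j _ _ => los_nonneg a (j + 1))
  · rw [← Finset.sum_subset (Finset.range_mono h) (fun j _ hj => h0 j (by
      rw [Finset.mem_range] at hj
      omega))]

/-- The sum of the gains. -/
theorem sum_gn (a : ℕ) (N : ℕ → ℕ) (n : ℕ) :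
    2 * ∑ i ∈ Finset.range n, gn (a + 2) (min (N i) (2 * a + 1)) =
      2 * (n : ℤ) * (a + 2) * (a + 1) - ∑ i ∈ Finset.range n, los a (N i) := by
  induction n with
  | zero => simp
  | succ n ih =>
    rw [Finset.sum_range_succ, Finset.sum_range_succ, mul_add, ih, gn_los (min_le_right _ _),
      los_min]
    push_cast
    ring

/-- The bound, from the sequence of the degrees. -/
theorem Cv.seq {K : Type} [Field K] [CharZero K] [IsAlgClosed K] {s : ℕ} {P : Fin s → Fin 2 → K}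
    {w : Fin s → ℕ} {d : ℕ} {k : Fin s} {G : MvPolynomial (Fin 3) K} (h : Cv P w d k G)
    {a : ℕ} (ha : w k = a + 2) (N : ℕ → ℕ) (hF : ∀ i, Fu P w d k (i + 1) (N i)) (S2 : ℤ)
    (hS : ∑ i ∈ Finset.range 12, los a (N i) ≤ S2)
    (h1 : S2 + 1 ≤ 12 * ((a : ℤ) + 1) ^ 2) :
    ((d : ℤ) ^ 2 - 3 * d - ∑ i, (w i : ℤ) ^ 2 + ∑ i, (w i : ℤ)) + 2 ≤
      24 * ((a : ℤ) + 1) + S2 - (a + 2) * (a + 1) := by
  obtain ⟨E, hE1, hE2⟩ := h.exH
  obtain ⟨A, hA1, hA2, hA3, hA4⟩ := grow_sum (N := fun i => min (N i) (2 * a + 1)) h.irr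
    (by have := h.two; omega) h.taum hE1 hE2 12 (fun i _ => fu_mono (hF i) (min_le_left _ _))
  have h2 := sum_gn a N 12
  have haz : (w k : ℤ) = a + 2 := by rw [ha]; push_cast; rfl
  rw [ha] at hA4
  have h0 : (0 : ℤ) ≤ a := Int.natCast_nonneg a
  have h3 := h.bnd A hA1 hA2 hA3
    (1 + ∑ i ∈ Finset.range 12, gn (a + 2) (min (N i) (2 * a + 1))) ?_ hA4 ?_
  · rw [haz] at h3
    push_cast at h2 h3
    nlinarith
  · push_cast at h2
    nlinarith
  · rw [haz]
    push_cast at h2 ⊢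
    nlinarith

/-- The bound when many forms are leading forms of the first system. -/
theorem Cv.caseA {K : Type} [Field K] [CharZero K] [IsAlgClosed K] {s : ℕ}
    {P : Fin s → Fin 2 → K} {w : Fin s → ℕ} {d : ℕ} {k : Fin s} {G : MvPolynomial (Fin 3) K}
    (h : Cv P w d k G) {ε : ℕ} (h6 : w k ≤ 6 * ε) (hF : Fu P w d k 1 ε) :
    ((d : ℤ) ^ 2 - 3 * d - ∑ i, (w i : ℤ) ^ 2 + ∑ i, (w i : ℤ)) + 2 ≤ 11 * (w k : ℤ) ^ 2 := by
  obtain ⟨a, ha⟩ : ∃ a, w k = a + 2 := ⟨w k - 2, by have := h.two; omega⟩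
  obtain ⟨S, hS⟩ : ∃ S : ℤ, S = ∑ i ∈ Finset.range 12, los a ((i + 1) * ε) := ⟨_, rfl⟩
  have h1 := sum_loss a ε 12
  rw [← hS] at h1
  have hS0 : 0 ≤ S := by
    rw [hS]
    exact Finset.sum_nonneg fun i _ => los_nonneg _ _
  have haz : (w k : ℤ) = a + 2 := by rw [ha]; push_cast; rfl
  have h0 : (0 : ℤ) ≤ a := Int.natCast_nonneg a
  have h2 : ((a : ℤ) + 2) * S ≤ 6 * (((a : ℤ) + 1) * (a + 2) * (2 * a - 1) + 2) := by
    have h4 : (a : ℤ) + 2 ≤ 6 * ε := by
      rw [← haz]
      exact_mod_cast h6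
    have h5 : ((a : ℤ) + 2) * S ≤ 6 * ε * S := mul_le_mul_of_nonneg_right h4 hS0
    linarith
  have h3 := h.seq ha (fun i => (i + 1) * ε) (fun i => fu_nsmul hF (i + 1)) S (by rw [hS])
    (by
      by_contra hcon
      push Not at hcon
      have h4 : ((a : ℤ) + 2) * (12 * ((a : ℤ) + 1) ^ 2) ≤ (a + 2) * S :=
        mul_le_mul_of_nonneg_left (by linarith) (by linarith)
      nlinarith)
  rw [haz]
  have h4 : ((a : ℤ) + 2) * (24 * ((a : ℤ) + 1) + S - (a + 2) * (a + 1)) ≤
      (a + 2) * (11 * ((a : ℤ) + 2) ^ 2) := by nlinarith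
  have h5 := le_of_mul_le_mul_left h4 (by linarith)
  linarith

/-- The bound when there are two independent powers of linear forms. -/
theorem Cv.caseI {K : Type} [Field K] [CharZero K] [IsAlgClosed K] {s : ℕ}
    {P : Fin s → Fin 2 → K} {w : Fin s → ℕ} {d : ℕ} {k : Fin s} {G : MvPolynomial (Fin 3) K}
    (h : Cv P w d k G) {M : ℕ} (h2M : w k ≤ 2 * M) (hF : ∀ i, Fu P w d k (i + 1) (i * M)) :
    ((d : ℤ) ^ 2 - 3 * d - ∑ i, (w i : ℤ) ^ 2 + ∑ i, (w i : ℤ)) + 2 ≤ 11 * (w k : ℤ) ^ 2 := by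
  obtain ⟨a, ha⟩ : ∃ a, w k = a + 2 := ⟨w k - 2, by have := h.two; omega⟩
  obtain ⟨S, hS⟩ : ∃ S : ℤ, S = ∑ i ∈ Finset.range 11, los a ((i + 1) * M) := ⟨_, rfl⟩
  have h1 := sum_loss a M 11
  rw [← hS] at h1
  have hS0 : 0 ≤ S := by
    rw [hS]
    exact Finset.sum_nonneg fun i _ => los_nonneg _ _
  have haz : (w k : ℤ) = a + 2 := by rw [ha]; push_cast; rfl
  have h0 : (0 : ℤ) ≤ a := Int.natCast_nonneg a
  have h2 : ((a : ℤ) + 2) * S ≤ 2 * (((a : ℤ) + 1) * (a + 2) * (2 * a - 1) + 2) := by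
    have h4 : (a : ℤ) + 2 ≤ 2 * M := by
      rw [← haz]
      exact_mod_cast h2M
    have h5 : ((a : ℤ) + 2) * S ≤ 2 * M * S := mul_le_mul_of_nonneg_right h4 hS0
    linarith
  have hl0 : los a 0 ≤ 2 * ((a : ℤ) + 1) * (a + 2) - 2 := by
    unfold los
    split_ifs with h3 h4
    · push_cast
      linarith
    · have : a = 0 := by omega
      rw [this]
      norm_num
    · omega
  obtain ⟨S2, hS2⟩ : ∃ S2 : ℤ, S2 = 2 * ((a : ℤ) + 1) * (a + 2) - 2 + S := ⟨_, rfl⟩
  have h3 := h.seq ha (fun i => i * M) hF S2 (by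
    rw [Finset.sum_range_succ', ← hS, hS2, zero_mul]
    linarith) (by
      rw [hS2]
      by_contra hcon
      push Not at hcon
      have h4 : ((a : ℤ) + 2) * (12 * ((a : ℤ) + 1) ^ 2) ≤
          (a + 2) * (2 * ((a : ℤ) + 1) * (a + 2) - 2 + S) :=
        mul_le_mul_of_nonneg_left (by linarith) (by linarith)
      nlinarith)
  rw [haz]
  have h4 : ((a : ℤ) + 2) * (24 * ((a : ℤ) + 1) + S2 - (a + 2) * (a + 1)) ≤
      (a + 2) * (11 * ((a : ℤ) + 2) ^ 2) := by
    rw [hS2]
    nlinarith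
  have h5 := le_of_mul_le_mul_left h4 (by linarith)
  linarith

end Pool.Agent.J4H49
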