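import Pool.Agent.J4H49.CaseA

set_option autoImplicit false

/-!
# The cases
-/

namespace Pool.Agent.J4H49

open MvPolynomial Pool.Agent.W609 Pool.Agent.W609.CR Pool.Agent.TH167.SH Pool.Agent.TH167.TT
  Pool.Agent.TH167.CL Pool.Agent.TH167.T3 Pool.Agent.H248R5 Pool.Agent.H248R6

/-- The bound holds, or a high power of a linear form divides the leading form. -/
theorem Cv.split {K : Type} [Field K] [CharZero K] [IsAlgClosed K] {s : ℕ}
    {P : Fin s → Fin 2 → K} {w : Fin s → ℕ} {d : ℕ} {k : Fin s} {G : MvPolynomial (Fin 3) K}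
    (h : Cv P w d k G) :
    ((d : ℤ) ^ 2 - 3 * d - ∑ i, (w i : ℤ) ^ 2 + ∑ i, (w i : ℤ)) + 2 ≤ 11 * (w k : ℤ) ^ 2 ∨
    ∃ ε : ℕ, 1 ≤ ε ∧ 6 * ε + 1 ≤ w k ∧ Fu P w d k 1 ε ∧ ∃ u : Fin 2 → K, u ≠ 0 ∧
      (dd' u ^ (ε + 1)) (Fl P w k G) = 0 ∧ (dd' u ^ ε) (Fl P w k G) ≠ 0 := by
  classical
  obtain ⟨ρ, h1, h2, h3, h4⟩ := dich h.two h.fl_hom h.fl_ne h.ind
  obtain ⟨ε, hε⟩ : ∃ ε, ρ = ε + 1 := ⟨ρ - 1, by omega⟩
  have e0 : ρ - 1 = ε := by omega
  have hF : Fu P w d k 1 ε := by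
    intro c hc p hp
    exact h.dq_ld (by omega) (h3 c (by omega) p hp)
  rw [e0] at h4
  rcases h4 with ⟨u, v, hdet, p, hp, q, hq, hp0, hq0, hpu, hqv⟩ | ⟨u, hu, hu1, hu2⟩
  · left
    obtain ⟨M, hM⟩ : ∃ M, w k = M + ε := ⟨w k - ε, by omega⟩
    have e1 : w k - M = ε := by omega
    have hpM : p ∈ Ld P w d k 1 M := h.dq_ld (c := M) (by omega) (by rw [e1]; exact hp)
    have hqM : q ∈ Ld P w d k 1 M := h.dq_ld (c := M) (by omega) (by rw [e1]; exact hq)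
    obtain ⟨a, ha, ha1⟩ := pow_of_dd0 hdet (ld_hom hpM) hp0 hpu
    obtain ⟨b, hb, hb1⟩ := pow_of_dd1 hdet (ld_hom hqM) hq0 hqv
    have hA : ((mt u v)⁻¹).det ≠ 0 := by
      have hd : (mt u v).det ≠ 0 := by rw [mt_det]; exact hdet
      have h5 : ((mt u v)⁻¹).det * (mt u v).det = 1 := by
        rw [← Matrix.det_mul, Matrix.nonsing_inv_mul _ (isUnit_iff_ne_zero.2 hd), Matrix.det_one]
      exact left_ne_zero_of_mul (by rw [h5]; exact one_ne_zero)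
    have hl : ∀ j : Fin 2, lt (mt u v)⁻¹ (X j) ^ M ∈ Ld P w d k 1 M := by
      intro j
      fin_cases j
      · have h5 := Submodule.smul_mem _ b⁻¹ hqM
        rw [hb1, smul_smul, inv_mul_cancel₀ hb, one_smul] at h5
        exact h5
      · have h5 := Submodule.smul_mem _ a⁻¹ hpM
        rw [ha1, smul_smul, inv_mul_cancel₀ ha, one_smul] at h5
        exact h5
    have hl' : ∀ j : Fin 2, ∀ c ≤ M, lt (mt u v)⁻¹ (X j) ^ c ∈ Ld P w d k 1 c := fun j =>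
      pow_down (S := fun c => Ld P w d k 1 c) (fun c p hp a => ld_der h.alg hp a) hA j (hl j)
    exact h.caseI (M := M) (by omega)
      (fu_pow (fu_mono hF (Nat.zero_le _)) hA hl')
  · rcases Nat.lt_or_ge (6 * ε) (w k) with hlt | hge
    · right
      refine ⟨ε, by omega, by omega, hF, u, hu, ?_, hu2⟩
      rw [← hε]
      exact hu1
    · left
      exact h.caseA hge hF

end Pool.Agent.J4H49
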