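import Pool.Agent.J4H49.WBez
import Pool.Agent.J4H49.Split

set_option autoImplicit false

/-!
# The case of a degenerate tangent cone
-/

namespace Pool.Agent.J4H49

open MvPolynomial Pool.Agent.W609 Pool.Agent.W609.CR Pool.Agent.TH167.SH Pool.Agent.TH167.TT
  Pool.Agent.TH167.CL Pool.Agent.TH167.T3 Pool.Agent.H248R5 Pool.Agent.H248R6

theorem exists_mt {K : Type} [Field K] {u : Fin 2 → K} (hu : u ≠ 0) :
    ∃ v : Fin 2 → K, (mt u v).det ≠ 0 := by
  by_cases h0 : u 0 = 0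
  · refine ⟨![1, 0], ?_⟩
    rw [mt_det]
    have h1 : u 1 ≠ 0 := by
      intro h1
      apply hu
      funext i
      fin_cases i
      · exact h0
      · exact h1
    simpa using h1
  · refine ⟨![0, 1], ?_⟩
    rw [mt_det]
    simpa using h0

/-- The numerical part. -/
theorem arith_C {ε m q n : ℤ} (hε : 1 ≤ ε) (hm : 6 * ε + 1 ≤ m) (hq : m - 2 * ε ≤ q)
    (hn1 : m + 2 * ε + 1 ≤ n * ε) (hn2 : n * ε ≤ m + 3 * ε) {r : ℤ}
    (hr : r = (q + 1) * (n * (q - 1) + 1) + (n * ε - q) * q) :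
    n * (m ^ 2 - 1) + 3 ≤ 2 * r ∧ 2 * (n * (m ^ 2 - 1)) - 2 * r + 2 ≤ 11 * m ^ 2 := by
  obtain ⟨j, hj⟩ : ∃ j, m = 6 * ε + 1 + j := ⟨m - (6 * ε + 1), by ring⟩
  have hj0 : 0 ≤ j := by linarith
  obtain ⟨t, ht⟩ : ∃ t, q = m - 2 * ε + t := ⟨q - (m - 2 * ε), by ring⟩
  have ht0 : 0 ≤ t := by linarith
  have hn : 1 ≤ n := by
    by_contra hcon
    push Not at hcon
    have : n * ε ≤ 0 := mul_nonpos_of_nonpos_of_nonneg (by linarith) (by linarith)
    linarith
  -- comparison with the worst case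
  obtain ⟨p, hp⟩ : ∃ p, p = m - 2 * ε := ⟨_, rfl⟩
  have hp1 : 4 * ε + 1 ≤ p := by rw [hp]; linarith
  have hmono : (p + 1) * (n * (p - 1) + 1) + (n * ε - p) * p ≤ r := by
    have e : r - ((p + 1) * (n * (p - 1) + 1) + (n * ε - p) * p) =
        t * (n * (2 * p + t + ε) - (2 * p + t) + 1) := by
      rw [hr, ht, hp]
      ring
    have h1 : 0 ≤ n * (2 * p + t + ε) - (2 * p + t) + 1 := by
      have h2 : 1 * (2 * p + t + ε) ≤ n * (2 * p + t + ε) :=
        mul_le_mul_of_nonneg_right hn (by linarith)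
      linarith
    have h2 := mul_nonneg ht0 h1
    linarith
  obtain ⟨x, hx⟩ : ∃ x, x = n * ε := ⟨_, rfl⟩
  have e1 : 2 * ((p + 1) * (n * (p - 1) + 1) + (n * ε - p) * p) - n * (m ^ 2 - 1) - 3 =
      n * (m ^ 2 - 6 * m * ε + 4 * ε ^ 2 - 1) - 2 * p ^ 2 + 2 * p - 1 := by
    rw [hp]
    ring
  have e2 : 2 * (n * (m ^ 2 - 1)) - 2 * ((p + 1) * (n * (p - 1) + 1) + (n * ε - p) * p) + 2 =
      2 * x * (3 * m - 2 * ε) + 2 * p * (p - 1) := by
    rw [hp, hx]
    ring
  constructor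
  · have h1 : 0 ≤ ε * (n * (m ^ 2 - 6 * m * ε + 4 * ε ^ 2 - 1) - 2 * p ^ 2 + 2 * p - 1) := by
      have e3 : ε * (n * (m ^ 2 - 6 * m * ε + 4 * ε ^ 2 - 1) - 2 * p ^ 2 + 2 * p - 1) =
          x * (m ^ 2 - 6 * m * ε + 4 * ε ^ 2 - 1) - ε * (2 * p ^ 2 - 2 * p + 1) := by
        rw [hx]
        ring
      rw [e3]
      have h2 : m ^ 2 - 6 * m * ε + 4 * ε ^ 2 - 1 = 4 * ε ^ 2 + 6 * ε + (6 * ε + 2) * j + j ^ 2 := by
        rw [hj]
        ring
      have h3 : 0 ≤ 4 * ε ^ 2 + 6 * ε + (6 * ε + 2) * j + j ^ 2 := by positivity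
      have h4 : (8 * ε + 2 + j) * (4 * ε ^ 2 + 6 * ε + (6 * ε + 2) * j + j ^ 2) ≤
          x * (4 * ε ^ 2 + 6 * ε + (6 * ε + 2) * j + j ^ 2) :=
        mul_le_mul_of_nonneg_right (by rw [hx]; linarith) h3
      rw [h2]
      have h5 : (8 * ε + 2 + j) * (4 * ε ^ 2 + 6 * ε + (6 * ε + 2) * j + j ^ 2) -
          ε * (2 * p ^ 2 - 2 * p + 1) = 48 * ε ^ 2 + 11 * ε + (36 * ε ^ 2 + 32 * ε + 4) * j +
            (12 * ε + 4) * j ^ 2 + j ^ 3 := by
        rw [hp, hj]
        ring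
      have h6 : 0 ≤ 48 * ε ^ 2 + 11 * ε + (36 * ε ^ 2 + 32 * ε + 4) * j +
            (12 * ε + 4) * j ^ 2 + j ^ 3 := by positivity
      linarith
    have h2 : 0 ≤ n * (m ^ 2 - 6 * m * ε + 4 * ε ^ 2 - 1) - 2 * p ^ 2 + 2 * p - 1 :=
      nonneg_of_mul_nonneg_right h1 (by linarith)
    linarith
  · have h1 : 2 * x * (3 * m - 2 * ε) ≤ 2 * (m + 3 * ε) * (3 * m - 2 * ε) :=
      mul_le_mul_of_nonneg_right (by rw [hx]; linarith) (by linarith)
    have h2 : 2 * (m + 3 * ε) * (3 * m - 2 * ε) + 2 * p * (p - 1) ≤ 11 * m ^ 2 := by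
      rw [hp]
      nlinarith
    linarith

/-- The bound in the degenerate case. -/
theorem Cv.caseC {K : Type} [Field K] [CharZero K] [IsAlgClosed K] {s : ℕ}
    {P : Fin s → Fin 2 → K} {w : Fin s → ℕ} {d : ℕ} {k : Fin s} {G : MvPolynomial (Fin 3) K}
    (h : Cv P w d k G) {ε : ℕ} (hε : 1 ≤ ε) (h6 : 6 * ε + 1 ≤ w k) (hF : Fu P w d k 1 ε)
    {u : Fin 2 → K} (hu : u ≠ 0) (hu1 : (dd' u ^ (ε + 1)) (Fl P w k G) = 0)
    (hu2 : (dd' u ^ ε) (Fl P w k G) ≠ 0) :
    ((d : ℤ) ^ 2 - 3 * d - ∑ i, (w i : ℤ) ^ 2 + ∑ i, (w i : ℤ)) + 2 ≤ 11 * (w k : ℤ) ^ 2 := by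
  classical
  obtain ⟨m, hm⟩ : ∃ m, m = w k := ⟨_, rfl⟩
  obtain ⟨e, he⟩ : ∃ e, m = e + ε := ⟨m - ε, by omega⟩
  obtain ⟨v, hdet⟩ := exists_mt hu
  obtain ⟨A, hA⟩ : ∃ A, A = mt u v := ⟨_, rfl⟩
  rw [← hA] at hdet
  obtain ⟨Γ, hΓ⟩ : ∃ Γ, Γ = LA A (P k) G := ⟨_, rfl⟩
  obtain ⟨Φ, hΦ⟩ : ∃ Φ, Φ = lt A (Fl P w k G) := ⟨_, rfl⟩
  have hcol : (fun i => A i 0) = u := by rw [hA]; exact mt_zero u v
  -- the leading form
  have hpd : ∀ n, (pd 0 ^ n : Module.End K (MvPolynomial (Fin 2) K)) Φ =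
      lt A ((dd' u ^ n : Module.End K (MvPolynomial (Fin 2) K)) (Fl P w k G)) := by
    intro n
    rw [hΦ, pd_lt_pow, hcol]
  have hΦh : Φ.IsHomogeneous m := by
    rw [hΦ, hm]
    exact lt_hom A h.fl_hom
  have f1 : ∀ a b, ε < a → coeff (ex a b) Φ = 0 := by
    intro a b hab
    obtain ⟨a', rfl⟩ : ∃ a', a = a' + (ε + 1) := ⟨a - (ε + 1), by omega⟩
    have h1 := hpd (ε + 1)
    rw [hu1, map_zero] at h1
    have h2 := congrArg (coeff (ex a' b)) h1
    rw [coeff_pd0_pow, coeff_zero] at h2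
    exact (mul_eq_zero.1 h2).resolve_right (asc_ne _ _)
  have f2 : coeff (ex ε e) Φ ≠ 0 := by
    intro hz
    apply lt_ne hdet hu2
    rw [← hpd]
    refine ext_ex fun a b => ?_
    rw [coeff_pd0_pow, coeff_zero]
    rcases Nat.eq_zero_or_pos a with ha | ha
    · rw [ha, zero_add]
      by_cases hb : b = e
      · rw [hb, hz, zero_mul]
      · rw [hom_iff] at hΦh
        rw [hΦh ε b (by omega), zero_mul]
    · rw [f1 _ _ (by omega), zero_mul]
  -- the expansion of the curve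
  have hΓid : Γ ∈ Id K m := by
    rw [hΓ, hm]
    exact lt_id A h.taum
  have hΓlow : ∀ a b, a + b < m → coeff (ex a b) Γ = 0 := by
    intro a b hab
    exact mem_id.1 hΓid _ (by rw [ex_degree]; exact hab)
  have hΓm : ∀ a b, a + b = m → coeff (ex a b) Γ = coeff (ex a b) Φ := by
    intro a b hab
    have h1 : homogeneousComponent m Γ = Φ := by
      rw [hΓ, LA_apply, lt_hc, hΦ, hm]
    rw [← h1, coeff_homogeneousComponent, ex_degree, if_pos hab]
  -- the exponent of the next term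
  have hex : ∃ b, b ≤ ε ∧ coeff (ex (m + 1 - b) b) Γ ≠ 0 := by
    by_contra hcon
    push Not at hcon
    refine h.wcontra hdet (q := m - 2 * ε - 1) hε h6 hF (by omega) ?_
    rw [← hΓ, ← hm]
    intro a b hab
    obtain ⟨q, hq⟩ : ∃ q, q = m - 2 * ε - 1 := ⟨_, rfl⟩
    rw [← hq] at hab
    unfold wt at hab
    obtain ⟨D, hD⟩ : ∃ D, D = a + b := ⟨_, rfl⟩
    rw [← hD] at hab
    rcases Nat.lt_or_ge D m with h1 | h1
    · exact hΓlow a b (by omega)
    · rcases Nat.lt_or_ge m D with h2 | h2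
      · rcases Nat.lt_or_ge (m + 1) D with h3 | h3
        · exfalso
          have h4 : q * (m + 2) ≤ q * D := Nat.mul_le_mul_left q (by omega)
          have h5 : q * (m + 2) = q * m + q + q := by ring
          omega
        · have h4 : D = m + 1 := by omega
          rw [h4, Nat.mul_succ] at hab
          have h5 := hcon b (by omega)
          have h6 : m + 1 - b = a := by omega
          rwa [h6] at h5
      · have h4 : D = m := by omega
        rw [h4] at hab
        rw [hΓm a b (by omega)]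
        exact f1 a b (by omega)
  obtain ⟨b1, ⟨hb1, hb2⟩, hb3⟩ : ∃ b1, (b1 ≤ ε ∧ coeff (ex (m + 1 - b1) b1) Γ ≠ 0) ∧
      ∀ b < b1, coeff (ex (m + 1 - b) b) Γ = 0 := by
    refine ⟨Nat.find hex, Nat.find_spec hex, fun b hb => ?_⟩
    by_contra hne
    have h1 := (Nat.find_spec hex).1
    exact Nat.find_min hex hb ⟨by omega, hne⟩
  obtain ⟨q, hq⟩ : ∃ q, e = q + b1 := ⟨e - b1, by omega⟩
  have hWle : ∀ a b, wt q a b ≤ q * m + e → coeff (ex a b) Γ ≠ 0 →
      wt q a b = q * m + e ∧ ((a = ε ∧ b = e) ∨ (a = m + 1 - b1 ∧ b = b1)) := by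
    intro a b hab hne
    unfold wt at hab ⊢
    obtain ⟨D, hD⟩ : ∃ D, D = a + b := ⟨_, rfl⟩
    rw [← hD] at hab ⊢
    rcases Nat.lt_or_ge D m with h1 | h1
    · exact absurd (hΓlow a b (by omega)) hne
    · rcases Nat.lt_or_ge m D with h2 | h2
      · rcases Nat.lt_or_ge (m + 1) D with h3 | h3
        · exfalso
          have h4 : q * (m + 2) ≤ q * D := Nat.mul_le_mul_left q (by omega)
          have h5 : q * (m + 2) = q * m + q + q := by ring
          omega
        · have h4 : D = m + 1 := by omega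
          rw [h4, Nat.mul_succ] at hab ⊢
          have h5 : b = b1 := by
            by_contra hne'
            have h6 := hb3 b (by omega)
            have h7 : m + 1 - b = a := by omega
            rw [h7] at h6
            exact hne h6
          exact ⟨by omega, Or.inr ⟨by omega, h5⟩⟩
      · have h4 : D = m := by omega
        rw [h4] at hab ⊢
        have h5 : a ≤ ε := by
          by_contra hcon
          rw [hΓm a b (by omega)] at hne
          exact hne (f1 a b (by omega))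
        exact ⟨by omega, Or.inl ⟨by omega, by omega⟩⟩
  have hα : coeff (ex ε e) Γ ≠ 0 := by
    rw [hΓm ε e (by omega)]
    exact f2
  have w1 : wt q ε e = q * m + e := by
    unfold wt
    rw [he, add_comm e ε]
  have w2 : wt q (m + 1 - b1) b1 = q * m + e := by
    unfold wt
    have : m + 1 - b1 + b1 = m + 1 := by omega
    rw [this, Nat.mul_succ]
    omega
  have hwg : Wg q (q * m + e) Γ := by
    intro a b hab
    by_contra hne
    have := (hWle a b hab.le hne).1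
    omega
  have hwc : wc q (q * m + e) Γ = coeff (ex ε e) Γ • (X 0 ^ ε * X 1 ^ e) +
      coeff (ex (m + 1 - b1) b1) Γ • (X 0 ^ (m + 1 - b1) * X 1 ^ b1) := by
    refine ext_ex fun a b => ?_
    rw [coeff_wc, coeff_add, coeff_smul, coeff_smul, coeff_mono, coeff_mono, smul_eq_mul,
      smul_eq_mul]
    by_cases h1 : ε = a ∧ e = b
    · obtain ⟨rfl, rfl⟩ := h1
      rw [if_pos w1, if_pos ⟨rfl, rfl⟩, if_neg (by omega)]
      ring
    · rw [if_neg h1]
      by_cases h2 : m + 1 - b1 = a ∧ b1 = b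
      · obtain ⟨rfl, rfl⟩ := h2
        rw [if_pos w2, if_pos ⟨rfl, rfl⟩]
        ring
      · rw [if_neg h2, mul_zero, mul_zero, add_zero]
        split_ifs with h3
        · by_contra hne
          rcases (hWle a b h3.le hne).2 with ⟨h4, h5⟩ | ⟨h4, h5⟩
          · exact h1 ⟨h4.symm, h5.symm⟩
          · exact h2 ⟨h4.symm, h5.symm⟩
        · rfl
  have hwc0 : wc q (q * m + e) Γ ≠ 0 := by
    intro hz
    have h1 := congrArg (coeff (ex ε e)) hz
    rw [coeff_wc, if_pos w1, coeff_zero] at h1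
    exact hα h1
  -- a point of the torus on the lowest component
  obtain ⟨y, hy⟩ : ∃ y : K, y ^ q = -(coeff (ex (m + 1 - b1) b1) Γ / coeff (ex ε e) Γ) :=
    IsAlgClosed.exists_pow_nat_eq _ (by omega)
  have hy0 : y ≠ 0 := by
    rintro rfl
    rw [zero_pow (by omega)] at hy
    have h1 : coeff (ex (m + 1 - b1) b1) Γ / coeff (ex ε e) Γ = 0 := neg_eq_zero.1 hy.symm
    rcases div_eq_zero_iff.1 h1 with h2 | h2
    · exact hb2 h2
    · exact hα h2
  have hyev : eval (![1, y] : Fin 2 → K) (wc q (q * m + e) Γ) = 0 := by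
    rw [hwc, map_add, smul_eval, smul_eval, map_mul, map_mul, map_pow, map_pow, map_pow, map_pow,
      eval_X, eval_X]
    simp only [Matrix.cons_val_zero, Matrix.cons_val_one, one_pow, one_mul]
    rw [hq, pow_add, ← hq, hy]
    field_simp
    ring
  -- the sections
  have hsec : ∀ a ≤ ε, ∀ b ≤ q - 1, ∃ f ∈ Sp P w d k 1 0, Ini q a b (LA A (P k) f) := by
    intro a ha b hb
    have hSd : ∀ c p, p ∈ (Ld P w d k 1 (c + 1)).map (lt A).toLinearMap → ∀ j : Fin 2,
        pd j p ∈ (Ld P w d k 1 c).map (lt A).toLinearMap := by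
      rintro c _ ⟨p, hp, rfl⟩ j
      refine ⟨dd' (fun i => A i j) p, ?_, ?_⟩
      · rw [dd'_apply]
        exact Submodule.add_mem _ (Submodule.smul_mem _ _ (ld_der h.alg hp 0))
          (Submodule.smul_mem _ _ (ld_der h.alg hp 1))
      · exact (pd_lt A j p).symm
    have hS1 : ∀ j : Fin 2, ∀ n c p, p ∈ (Ld P w d k 1 (c + n)).map (lt A).toLinearMap →
        (pd j ^ n : Module.End K (MvPolynomial (Fin 2) K)) p ∈
          (Ld P w d k 1 c).map (lt A).toLinearMap := by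
      intro j n
      induction n with
      | zero =>
        intro c p hp
        rw [pow_zero, Module.End.one_apply]
        exact hp
      | succ n ih =>
        intro c p hp
        rw [pow_succ, Module.End.mul_apply]
        refine ih c _ (hSd (c + n) p ?_ j)
        exact hp
    obtain ⟨i, hi⟩ : ∃ i, ε = a + i := ⟨ε - a, by omega⟩
    obtain ⟨j, hj⟩ : ∃ j, e = b + j := ⟨e - b, by omega⟩
    have hΦm : Φ ∈ (Ld P w d k 1 (a + b + i + j)).map (lt A).toLinearMap := by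
      have e1 : a + b + i + j = w k := by omega
      rw [e1, hΦ]
      exact ⟨_, h.fl_ld, rfl⟩
    have h1 : (pd 0 ^ i * pd 1 ^ j : Module.End K (MvPolynomial (Fin 2) K)) Φ ∈
        (Ld P w d k 1 (a + b)).map (lt A).toLinearMap := by
      rw [Module.End.mul_apply]
      exact hS1 0 i (a + b) _ (hS1 1 j (a + b + i) _ hΦm)
    obtain ⟨p, hp, hp1⟩ := h1
    obtain ⟨f, hf, hf1⟩ := mem_ld.1 hp
    have hlow : ∀ a' b', a' + b' < a + b → coeff (ex a' b') (LA A (P k) f) = 0 := by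
      intro a' b' hab
      exact mem_id.1 (lt_id A (sp_tau hf)) _ (by rw [ex_degree]; exact hab)
    have heq : ∀ a' b', a' + b' = a + b → coeff (ex a' b') (LA A (P k) f) =
        coeff (ex (a' + i) (b' + j)) Φ * (((a' + 1).ascFactorial i : K) *
          ((b' + 1).ascFactorial j : K)) := by
      intro a' b' hab
      have h2 : homogeneousComponent (a + b) (LA A (P k) f) =
          (pd 0 ^ i * pd 1 ^ j : Module.End K (MvPolynomial (Fin 2) K)) Φ := by
        rw [LA_apply, lt_hc, hf1]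
        exact hp1
      rw [← coeff_pp, ← h2, coeff_homogeneousComponent, ex_degree, if_pos hab]
    have hne : ∀ a' b', wt q a' b' ≤ wt q a b → coeff (ex a' b') (LA A (P k) f) ≠ 0 →
        a' = a ∧ b' = b := by
      intro a' b' hab hne
      unfold wt at hab
      rcases lt_trichotomy (a' + b') (a + b) with h2 | h2 | h2
      · exact absurd (hlow a' b' h2) hne
      · have h3 : a' ≤ a := by
          by_contra hcon
          rw [heq a' b' h2, f1 _ _ (by omega), zero_mul] at hne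
          exact hne rfl
        rw [h2] at hab
        omega
      · exfalso
        have h4 : q * (a + b + 1) ≤ q * (a' + b') := Nat.mul_le_mul_left q (by omega)
        rw [Nat.mul_succ] at h4
        omega
    refine ⟨f, sp_mono (Nat.zero_le _) hf, ?_, coeff (ex a b) (LA A (P k) f), ?_, ?_⟩
    · intro a' b' hab
      by_contra hcon
      obtain ⟨h2, h3⟩ := hne a' b' hab.le hcon
      rw [h2, h3] at hab
      omega
    · rw [heq a b rfl, ← hi, ← hj]
      exact mul_ne_zero f2 (mul_ne_zero (asc_ne _ _) (asc_ne _ _))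
    · refine ext_ex fun a' b' => ?_
      rw [coeff_wc, coeff_smul, coeff_mono, smul_eq_mul]
      by_cases h2 : a = a' ∧ b = b'
      · obtain ⟨rfl, rfl⟩ := h2
        rw [if_pos rfl, if_pos ⟨rfl, rfl⟩, mul_one]
      · rw [if_neg h2, mul_zero]
        split_ifs with h3
        · by_contra hcon
          obtain ⟨h4, h5⟩ := hne a' b' h3.le hcon
          exact h2 ⟨h4.symm, h5.symm⟩
        · rfl
  -- the family
  obtain ⟨n, hn⟩ : ∃ n, n = m / ε + 3 := ⟨_, rfl⟩
  have hn1 : m + 2 * ε + 1 ≤ n * ε := by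
    have := Nat.lt_div_mul_add (a := m) (b := ε) (by omega)
    rw [hn, add_mul]
    omega
  have hn2 : n * ε ≤ m + 3 * ε := by
    have := Nat.div_mul_le_self m ε
    rw [hn, add_mul]
    omega
  obtain ⟨B, hB⟩ : ∃ B, B = n * (q - 1) := ⟨_, rfl⟩
  have hqB : q ≤ B + 1 := by
    have : q - 1 ≤ n * (q - 1) := Nat.le_mul_of_pos_left _ (by rw [hn]; exact Nat.succ_pos _)
    omega
  have hqm : q ≤ m := by
    rw [he, hq]
    omega
  have hqn : q ≤ n * ε := le_trans (le_trans hqm (by omega)) hn1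
  obtain ⟨c, hc⟩ : ∃ c, n * ε = q + c := ⟨n * ε - q, (Nat.add_sub_of_le hqn).symm⟩
  have hfam : ∀ i : (Fin (q + 1) × Fin (B + 1)) ⊕ (Fin c × Fin q), ∃ f ∈ Sp P w d k n 0,
      Ini q (Sum.elim (fun x => (x.1 : ℕ)) (fun x => q + 1 + (x.1 : ℕ)) i)
        (Sum.elim (fun x => (x.2 : ℕ)) (fun x => B - (x.2 : ℕ)) i) (LA A (P k) f) := by
    intro i
    refine prods hsec n _ _ ?_ ?_
    · rcases i with x | x
      · have := x.1.2
        show (x.1 : ℕ) ≤ n * ε
        omega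
      · have := x.1.2
        show q + 1 + (x.1 : ℕ) ≤ n * ε
        omega
    · rcases i with x | x
      · have := x.2.2
        show (x.2 : ℕ) ≤ n * (q - 1)
        omega
      · show B - (x.2 : ℕ) ≤ n * (q - 1)
        omega
  choose f hf1 hf2 using hfam
  obtain ⟨V, hV1, hV2, hV3, hV4⟩ := fam (n := n) (W0 := q * m + e) (by rw [← hΓ]; exact hwg)
    (by rw [← hΓ]; exact hwc0) hy0 (by rw [← hΓ]; exact hyev) f hf1 _ _ hf2
    (wt_inj (by omega) hqB)
  rw [Fintype.card_sum, Fintype.card_prod, Fintype.card_prod, Fintype.card_fin, Fintype.card_fin,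
    Fintype.card_fin, Fintype.card_fin] at hV4
  -- the numbers
  have hq1 : 1 ≤ q := by omega
  have hBz : (B : ℤ) = n * ((q : ℤ) - 1) := by
    rw [hB]
    push_cast
    rw [Nat.cast_sub hq1]
    push_cast
    ring
  have hcz : (c : ℤ) = n * ε - q := by
    have : ((n * ε : ℕ) : ℤ) = ((q + c : ℕ) : ℤ) := by rw [hc]
    push_cast at this
    linarith
  obtain ⟨r, hr⟩ : ∃ r : ℤ, r = ((q : ℤ) + 1) * (n * ((q : ℤ) - 1) + 1) + (n * ε - q) * q :=
    ⟨_, rfl⟩
  have hmz : (m : ℤ) = q + b1 + ε := by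
    rw [he, hq]
    push_cast
    ring
  obtain ⟨a1, a2⟩ := arith_C (ε := (ε : ℤ)) (m := (m : ℤ)) (q := (q : ℤ)) (n := (n : ℤ))
    (by exact_mod_cast hε) (by rw [← hm] at h6; exact_mod_cast h6) (by
      have : (b1 : ℤ) ≤ ε := by exact_mod_cast hb1
      linarith) (by exact_mod_cast hn1) (by exact_mod_cast hn2) hr
  have hrV : r ≤ (Module.finrank K ↥V : ℤ) := by
    rw [hV4, hr]
    push_cast
    rw [hBz, hcz]
  have hm0 : (7 : ℤ) ≤ m := by
    have : 7 ≤ m := by omega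
    exact_mod_cast this
  have hr1 : 1 ≤ r := by
    have h1 : 0 ≤ (n : ℤ) * ((m : ℤ) ^ 2 - 1) := mul_nonneg (Int.natCast_nonneg _) (by nlinarith)
    linarith
  have h1 := h.bnd V hV1 hV2 hV3 r hr1 hrV (by rw [← hm]; exact a1)
  rw [← hm] at h1 ⊢
  have h2 : (0 : ℤ) ≤ (m : ℤ) * (m - 1) := mul_nonneg (by linarith) (by linarith)
  linarith

end Pool.Agent.J4H49
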