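import Pool.Agent.TH167.CL.Cliff
import Pool.Agent.J4H49.TBG

set_option autoImplicit false

/-!
# The theorem of Clifford for subspaces of forms of arbitrary degree and multiplicities
-/

namespace Pool.Agent.J4H49

open MvPolynomial Pool.Agent.W609 Pool.Agent.W609.CR Pool.Agent.TH167.SH Pool.Agent.TH167.DD
  Pool.Agent.TH167.CL Pool.Agent.TH167

/-- The theorem of Clifford and the theorem of Riemann and Roch on a prime divisor `G` of the
blow-up, for a space `A` of forms of degree `a` with multiplicities `u`, which contains no multiple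
of `G`. -/
theorem cliffG {K : Type} [Field K] [CharZero K] [IsAlgClosed K] {s : ℕ}
    {G : MvPolynomial (Fin 3) K} {d : ℕ} (hG : Irreducible G) (hGd : G.IsHomogeneous d)
    (hd : 2 ≤ d) {P : Fin s → Fin 2 → K} (hP : Function.Injective P) {w : Fin s → ℕ}
    (hw : ∀ i, Ord (aff (P i)) (w i) G) {u : Fin s → ℕ} {a : ℕ}
    (A : Submodule K (MvPolynomial (Fin 3) K)) [Module.Finite K ↥A]
    (hA : A ≤ VS (fun j => aff (P j)) u a) (hAG : ∀ f ∈ A, G ∣ f → f = 0)
    (h1 : 1 ≤ Module.finrank K ↥A) :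
    2 * Module.finrank K ↥A + ∑ i, w i * u i ≤ a * d + 2 ∨
      2 * Module.finrank K ↥A + 2 * ∑ i, w i * u i + d * d + ∑ i, w i ≤
        2 * (a * d) + 3 * d + ∑ i, w i * w i := by
  classical
  have hG0 := hG.ne_zero
  obtain ⟨N, hN⟩ : ∃ N, N = d + d * d + ∑ j, w j * w j + ∑ j, w j * u j + a + 5 := ⟨_, rfl⟩
  -- a point outside of the curve and of `P`
  obtain ⟨p1, hp1, hp1P⟩ : ∃ p1 : Fin 2 → K, eval (aff p1) G ≠ 0 ∧ ∀ j, P j ≠ p1 := by
    obtain ⟨H, hH0, hHh, hHP⟩ : ∃ H : MvPolynomial (Fin 3) K, H ≠ 0 ∧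
        H.IsHomogeneous H.totalDegree ∧ ∀ j, eval (aff (P j)) H = 0 := by
      refine ⟨∏ j, mf 0 (P j), Finset.prod_ne_zero_iff.2 fun j _ => mf_ne 0 _, ?_, fun j => ?_⟩
      · have h1 : (∏ j, mf 0 (P j)).IsHomogeneous (∑ j : Fin s, 1) :=
          IsHomogeneous.prod _ _ _ fun j _ => mf_hom 0 _
        have h2 := h1.totalDegree (Finset.prod_ne_zero_iff.2 fun j _ => mf_ne 0 _)
        rwa [← h2] at h1
      · rw [map_prod]
        exact Finset.prod_eq_zero (Finset.mem_univ j) (by rw [eval_mf, sub_self])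
    obtain ⟨p1, hp1⟩ := TT.exists_pt (hGd.mul hHh) (mul_ne_zero hG0 hH0)
    rw [map_mul] at hp1
    refine ⟨p1, left_ne_zero_of_mul hp1, fun j h => ?_⟩
    apply right_ne_zero_of_mul hp1
    rw [← h]
    exact hHP j
  let P1 : Fin (s + 1) → Fin 2 → K := Fin.cons p1 P
  let w' : Fin (s + 1) → ℕ := Fin.cons 0 w
  let r' : Fin (s + 1) → ℕ := Fin.cons N u
  have hP1 : Function.Injective P1 := by
    rw [Fin.cons_injective_iff]
    refine ⟨?_, hP⟩
    rintro ⟨j, hj⟩
    exact hp1P j hj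
  have hw1 : ∀ i, Ord (aff (P1 i)) (w' i) G := by
    intro i
    refine Fin.cases ?_ (fun j => ?_) i
    · show Ord (aff p1) 0 G
      refine ⟨van_zero _ _, fun h => hp1 ?_⟩
      exact van_one'.1 h
    · exact hw j
  obtain ⟨Ls, Q, hC, hlen⟩ := exists_cfg hG hGd hd hP1 hw1 _ r' rfl
  obtain ⟨k, hk⟩ : ∃ k, k = Ls.length := ⟨_, rfl⟩
  have hk2 : k = N + ∑ j, u j := by
    rw [hk, hlen, Fin.sum_univ_succ]
    rfl
  have hcard : Q.card + ∑ j, w j * u j = d * k := by
    have h1 := hC.card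
    rw [Fin.sum_univ_succ, ← hk] at h1
    have h2 : w' 0 * r' 0 = 0 := by
      show 0 * N = 0
      rw [zero_mul]
    rw [h2, zero_add] at h1
    exact h1
  obtain ⟨m, hm⟩ : ∃ m, k = a + m + 3 := ⟨k - a - 3, by omega⟩
  have hQpos : 0 < Q.card := by
    have h2 : N ≤ d * k := by
      calc N ≤ k := by omega
        _ ≤ d * k := Nat.le_mul_of_pos_left _ (by omega)
    omega
  have hQne : Q.Nonempty := Finset.card_pos.1 hQpos
  let be : Fin s → ℕ := fun i => w i - 1
  have hbe : ∀ i, be i = w i - 1 := fun i => rfl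
  let B := VS (fun j => aff (P j)) be (d + m)
  have hBf : Module.Finite K ↥B := vs_fin (fun j => aff (P j)) be (d + m)
  have hQP : ∀ j, P j ∉ Q := fun j => hC.disj j.succ
  have hprod : ∀ f ∈ A, ∀ g ∈ B, ∀ j, w j ≠ 0 → Van (aff (P j)) (w j + u j - 1) (f * g) := by
    intro f hf g hg j hj
    have h1 := van_mul (((mem_VS _ _ _ _).1 (hA hf)).2 j) (((mem_VS _ _ _ _).1 hg).2 j)
    have h2 : u j + be j = w j + u j - 1 := by
      rw [hbe]
      omega
    rwa [h2] at h1
  have hprod1 : ∀ f ∈ A, ∀ g ∈ B, ∀ i, w' i ≠ 0 → Van (aff (P1 i)) (w' i + r' i - 1) (f * g) := by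
    intro f hf g hg i
    refine Fin.cases ?_ (fun j => ?_) i
    · intro h
      exact absurd rfl h
    · intro hj
      exact hprod f hf g hg j hj
  have hdual := hC.dual hGd hG0 hw1 (a := a) (b := d + m) (by rw [← hk]; omega) A B
    (fun f hf => ((mem_VS _ _ _ _).1 (hA hf)).1) (fun f hf => ((mem_VS _ _ _ _).1 hf).1) hprod1
  -- the kernels
  have hdA := ev_dim Q A ⊥ (by
    intro f hf hfQ
    have hf' := (mem_VS _ _ _ _).1 (hA hf)
    rw [Submodule.mem_bot]
    refine hAG f hf ?_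
    by_contra hnd
    have hf0 : f ≠ 0 := fun h => hnd (by rw [h]; exact dvd_zero _)
    have h1 := bezQ hP hG hGd (fun j => (hw j).1) hf0 hf'.1 hf'.2 hnd hQP hC.zQ hfQ
    have h2 : d * k = d * a + d * (m + 3) := by rw [hm]; ring
    have h3 : 0 < d * (m + 3) := Nat.mul_pos (by omega) (by omega)
    omega)
  rw [finrank_bot, zero_add] at hdA
  let B0 := B ⊓ LinearMap.ker (ev Q)
  have hB0f : Module.Finite K ↥B0 := Submodule.finiteDimensional_inf_left _ _
  have hdB := ev_dim Q B B0 (fun f hf hfQ => ⟨hf, LinearMap.mem_ker.2 (funext fun q =>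
    hfQ q.1 q.2)⟩)
  -- the multiples of `G`
  have hMf := mult_finite G m
  have hMd := mult_finrank hG0 m
  have hMm : ∀ f ∈ B0, G ∣ f → f ∈ mult G m := by
    rintro f ⟨hf, -⟩ hdvd
    exact mem_mult hGd hG0 ((mem_VS _ _ _ _).1 hf).1 hdvd (fun _ => rfl)
  have hdim := le_dim be P (d + m)
  rw [← vs_eq_forms] at hdim
  have hdim' : (d + m + 2).choose 2 ≤ Module.finrank K ↥B + ∑ j, (be j + 1).choose 2 := hdim
  obtain ⟨J, hJ1, hJ2⟩ := tbG hG hGd hd hP1 hw1 (i0 := 0) rfl hC (by omega) hQne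
  have hJ1' : 2 * J.card + ∑ i, w i * w i + 3 * d ≤ d * d + 2 + ∑ i, w i := by
    have e1 : ∑ i, w' i * w' i = ∑ i, w i * w i := by
      rw [Fin.sum_univ_succ]
      have : w' 0 * w' 0 = 0 := rfl
      rw [this, zero_add]
      rfl
    have e2 : ∑ i, w' i = ∑ i, w i := by
      rw [Fin.sum_univ_succ]
      have : w' 0 = 0 := rfl
      rw [this, zero_add]
      rfl
    rw [e1, e2] at hJ1
    exact hJ1
  -- the lemma of Hopf
  have hopf : Module.finrank K ↥B0 ≤ Module.finrank K ↥(mult G m) ∨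
      Module.finrank K ↥A + Module.finrank K ↥B0 ≤
        Module.finrank K ↥(mult G m) + 1 + J.card := by
    by_contra hcon
    push Not at hcon
    obtain ⟨hcon1, hcon2⟩ := hcon
    obtain ⟨α, hα⟩ : ∃ α, α = Module.finrank K ↥A := ⟨_, rfl⟩
    rw [← hα] at hcon2 h1
    obtain ⟨J1, hJs, hJc⟩ := Finset.exists_subset_card_eq (s := J) (n := min J.card (α - 1))
      (min_le_left _ _)
    have hJ2c : (J \ J1).card = J.card - min J.card (α - 1) := by
      rw [Finset.card_sdiff_of_subset hJs, hJc]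
    obtain ⟨f, hf1, hf2, hf3⟩ := exists_van J1 A ⊥ (by
      rw [finrank_bot, ← hα, hJc]
      omega)
    obtain ⟨g, hg1, hg2, hg3⟩ := exists_van (J \ J1) B0 (mult G m) (by
      rw [hJ2c]
      omega)
    have hf' := (mem_VS _ _ _ _).1 (hA hf1)
    have hg' := (mem_VS _ _ _ _).1 hg1.1
    have hfn : ¬ G ∣ f := fun h => hf2 (by rw [hAG f hf1 h]; exact Submodule.zero_mem _)
    have hgn : ¬ G ∣ g := fun h => hg2 (hMm g hg1 h)
    have hfg : G ∣ f * g := by
      refine hJ2 (f * g) ?_ (hprod1 f hf1 g hg1.1) ?_ ?_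
      · have h2 := hf'.1.mul hg'.1
        have h3 : a + (d + m) = d + (Ls.length - 3) := by rw [← hk]; omega
        rwa [h3] at h2
      · intro q hq
        have h5 : eval (aff q) g = 0 := congrFun (LinearMap.mem_ker.1 hg1.2) ⟨q, hq⟩
        rw [map_mul, h5, mul_zero]
      · intro q hq
        rw [map_mul]
        by_cases hq1 : q ∈ J1
        · rw [hf3 q hq1, zero_mul]
        · rw [hg3 q (Finset.mem_sdiff.2 ⟨hq, hq1⟩), mul_zero]
    rcases hG.prime.dvd_or_dvd hfg with h | h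
    · exact hfn h
    · exact hgn h
  -- arithmetic
  have hsum : 2 * ∑ j, (be j + 1).choose 2 + ∑ j, w j = ∑ j, w j * w j := by
    rw [Finset.mul_sum, ← Finset.sum_add_distrib]
    refine Finset.sum_congr rfl fun j _ => ?_
    rw [hbe]
    rcases Nat.eq_zero_or_pos (w j) with h | h
    · rw [h]
      rfl
    · obtain ⟨v, hv⟩ : ∃ v, w j = v + 1 := ⟨w j - 1, by omega⟩
      have e : w j - 1 + 1 = v + 1 := by omega
      rw [e, hv]
      rcases Nat.eq_zero_or_pos v with h2 | h2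
      · rw [h2]
        rfl
      · obtain ⟨z, hz⟩ : ∃ z, v = z + 1 := ⟨v - 1, by omega⟩
        rw [hz]
        have := H932R7.two_choose z
        have e : z + 1 + 1 = z + 2 := rfl
        rw [e, this]
        ring
  rw [hm] at hcard
  rw [hMd] at hopf
  have c1 : 2 * (d + m + 2).choose 2 = (d + m + 1) * (d + m + 2) := H932R7.two_choose (d + m)
  have c2 : 2 * (m + 2).choose 2 = (m + 1) * (m + 2) := H932R7.two_choose m
  rcases hopf with h | h
  · right
    nlinarith
  · left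
    nlinarith

end Pool.Agent.J4H49
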