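import Pool.Agent.J4H49.GrowG

set_option autoImplicit false

/-!
# Weights and derivations of the field
-/

namespace Pool.Agent.J4H49

open MvPolynomial Pool.Agent.W609 Pool.Agent.W609.CR Pool.Agent.TH167.SH Pool.Agent.TH167.TT
  Pool.Agent.TH167.CL Pool.Agent.TH167.T3 Pool.Agent.H248R5 Pool.Agent.H248R6

variable {K : Type} [Field K] [CharZero K]

/-- The linear form of the derivatives of the entries of a matrix. -/
noncomputable def lf (E : Derivation ℚ K K) (B : Matrix (Fin 2) (Fin 2) K) (j : Fin 2) :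
    MvPolynomial (Fin 2) K := C (E (B j 0)) * X 0 + C (E (B j 1)) * X 1

theorem lf_hom (E : Derivation ℚ K K) (B : Matrix (Fin 2) (Fin 2) K) (j : Fin 2) :
    (lf E B j).IsHomogeneous 1 :=
  (IsHomogeneous.C_mul (isHomogeneous_X _ _) _).add (IsHomogeneous.C_mul (isHomogeneous_X _ _) _)

theorem dG_lt (E : Derivation ℚ K K) (B : Matrix (Fin 2) (Fin 2) K)
    (p : MvPolynomial (Fin 2) K) : dG E (lt B p) =
      lt B (dG E p) + (lt B (pderiv 0 p) * lf E B 0 + lt B (pderiv 1 p) * lf E B 1) := by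
  induction p using MvPolynomial.induction_on with
  | C c =>
    rw [lt_C, dG_C, lt_C, pderiv_C, pderiv_C, map_zero]
    ring
  | add p q hp hq =>
    rw [map_add, dG_add, dG_add, hp, hq, map_add, map_add, map_add, map_add, map_add]
    ring
  | mul_X p i hp =>
    have h1 : dG E (lt B (X i)) = lf E B i := by
      rw [lt_X, dG_add, dG_mul, dG_mul, dG_C, dG_C, dG_X, dG_X]
      unfold lf
      ring
    rw [map_mul, dG_mul, hp, h1, dG_mul, dG_X, mul_zero, add_zero, map_mul, Derivation.leibniz,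
      Derivation.leibniz, map_add, map_add, smul_eq_mul, smul_eq_mul, smul_eq_mul, smul_eq_mul,
      map_mul, map_mul, map_mul, map_mul]
    fin_cases i
    · simp only [Fin.zero_eta, pderiv_X_self, map_one, mul_one]
      rw [pderiv_X_of_ne (by decide), map_zero]
      ring
    · simp only [Fin.mk_one, pderiv_X_self, map_one, mul_one]
      rw [pderiv_X_of_ne (by decide), map_zero]
      ring

theorem wg_dG {q W : ℕ} {p : MvPolynomial (Fin 2) K} (h : Wg q W p) (E : Derivation ℚ K K) :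
    Wg q W (dG E p) := by
  intro a b hab
  rw [coeff_dG, h a b hab, map_zero]

omit [CharZero K] in
theorem wg_C_mul {q W : ℕ} (c : K) {p : MvPolynomial (Fin 2) K} (h : Wg q W p) :
    Wg q W (C c * p) := by
  rw [← smul_eq_C_mul]
  exact wg_smul c h

/-- The weight of the derivative of a form with respect to the field. -/
theorem wg_der {q W : ℕ} {A : Matrix (Fin 2) (Fin 2) K} (hA : A.det ≠ 0) (p : Fin 2 → K)
    {G : MvPolynomial (Fin 3) K} (h : Wg q (W + (q + 1)) (LA A p G)) (E : Derivation ℚ K K) :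
    Wg q W (LA A p (dG E G)) := by
  obtain ⟨B, hB⟩ : ∃ B, B = A⁻¹ := ⟨_, rfl⟩
  obtain ⟨Γ, hΓ⟩ : ∃ Γ, Γ = LA A p G := ⟨_, rfl⟩
  have hg : tau p G = lt B Γ := by
    rw [hΓ, hB, LA_apply, lt_inv hA]
  rw [← hΓ] at h
  have hAB : ∀ x, lt A (lt B x) = x := by
    intro x
    rw [hB]
    exact lt_inv' hA x
  have hpd : ∀ j, Wg q W (pderiv j Γ) := fun j => wg_pd h j
  have h0 : ∀ j, Wg q W (pderiv j Γ * lt A (lf E B j)) := by
    intro j
    have h1 : Wg q 0 (lt A (lf E B j)) := fun a b hab => absurd hab (Nat.not_lt_zero _)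
    have h2 := wg_mul (hpd j) h1
    rwa [add_zero] at h2
  have h1 : ∀ b, Wg q W (lt A (C (E (p b)) * pderiv b (tau p G))) := by
    intro b
    rw [map_mul, lt_C, hg]
    refine wg_C_mul _ ?_
    have h2 := pd_lt B b Γ
    rw [pd_apply] at h2
    rw [h2, hAB, dd'_apply]
    exact wg_add (wg_smul _ (hpd 0)) (wg_smul _ (hpd 1))
  rw [LA_apply, tau_dG, map_sub, hg, dG_lt, map_add, map_add, map_mul, map_mul, hAB, hAB, hAB,
    ← hg, map_sum, sub_eq_add_neg]
  refine wg_add (wg_add (wg_dG (wg_mono (by omega) h) E) (wg_add (h0 0) (h0 1))) (wg_neg ?_)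
  exact wg_sum _ _ fun b _ => h1 b

end Pool.Agent.J4H49
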