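import Pool.Agent.J4H49.Binary

set_option autoImplicit false

/-!
# The structure of the derivatives of a binary form
-/

namespace Pool.Agent.J4H49

open MvPolynomial Pool.Agent.TH167.CL

variable {K : Type} [Field K]

/-- The directional derivative. -/
noncomputable def dd' (u : Fin 2 → K) : Module.End K (MvPolynomial (Fin 2) K) :=
  u 0 • pd 0 + u 1 • pd 1

theorem dd'_apply (u : Fin 2 → K) (p : MvPolynomial (Fin 2) K) :
    dd' u p = u 0 • pderiv 0 p + u 1 • pderiv 1 p := rfl

theorem ap_pow_one (c : ℕ) : ap c (1 : Polynomial K) = dd' ![0, 1] ^ c := by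
  have h1 : dd' (![0, 1] : Fin 2 → K) = pd 1 := by
    unfold dd'
    simp
  rw [h1]
  induction c with
  | zero => rw [ap_zero_poly]; simp
  | succ c ih =>
    rw [ap_succ_zero, ih, pow_succ']
    rw [Polynomial.coeff_one, if_neg (by omega)]

theorem ap_pow_root (c : ℕ) (a : K) :
    ap c ((Polynomial.X - Polynomial.C a) ^ c) = dd' ![1, -a] ^ c := by
  have h1 : dd' (![1, -a] : Fin 2 → K) = pd 0 - a • pd 1 := by
    unfold dd'
    simp only [Matrix.cons_val_zero, Matrix.cons_val_one]
    module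
  rw [h1]
  induction c with
  | zero => rw [ap_zero_poly]; simp
  | succ c ih =>
    rw [pow_succ', ap_succ_root, ih, pow_succ']
    rw [Polynomial.natDegree_pow, Polynomial.natDegree_X_sub_C, mul_one]

theorem ap_smul (c : ℕ) (a : K) (Q : Polynomial K) : ap c (Polynomial.C a * Q) = a • ap c Q := by
  unfold ap
  rw [Finset.smul_sum]
  refine Finset.sum_congr rfl fun i _ => ?_
  rw [Polynomial.coeff_C_mul, mul_smul]

/-- The dichotomy. -/
theorem dich [CharZero K] [IsAlgClosed K] {F : MvPolynomial (Fin 2) K} {m : ℕ} (hm : 2 ≤ m)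
    (hF : F.IsHomogeneous m) (hF0 : F ≠ 0) (hind : ∀ u : Fin 2 → K, dd' u F = 0 → u = 0) :
    ∃ ρ, 2 ≤ ρ ∧ 2 * ρ ≤ m + 2 ∧
      (∀ c < ρ, ∀ p : MvPolynomial (Fin 2) K, p.IsHomogeneous c → p ∈ Dq F (m - c)) ∧
      ((∃ u v : Fin 2 → K, u 0 * v 1 - u 1 * v 0 ≠ 0 ∧ ∃ p ∈ Dq F (ρ - 1), ∃ q ∈ Dq F (ρ - 1),
          p ≠ 0 ∧ q ≠ 0 ∧ dd' u p = 0 ∧ dd' v q = 0) ∨
        ∃ u : Fin 2 → K, u ≠ 0 ∧ (dd' u ^ ρ) F = 0 ∧ (dd' u ^ (ρ - 1)) F ≠ 0) := by
  classical
  -- forms of degree zero and one
  have hd0 : ∀ p : MvPolynomial (Fin 2) K, p.IsHomogeneous 0 → p ∈ Dq F (m - 0) := by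
    intro p hp
    obtain ⟨i, j, hij, hne⟩ : ∃ i j, i + j = m ∧
        (pd 0 ^ i * pd 1 ^ j : Module.End K (MvPolynomial (Fin 2) K)) F ≠ 0 := by
      by_contra hcon
      push Not at hcon
      exact hF0 (zero_of_pp hF hcon)
    have h1 := hom_pp (i := i) (j := j) hF (by omega)
    have e : m - i - j = 0 := by omega
    rw [e] at h1
    have h2 := hom_zero h1
    have hc : coeff (ex 0 0) ((pd 0 ^ i * pd 1 ^ j : Module.End K (MvPolynomial (Fin 2) K)) F) ≠ 0 := by
      intro h
      rw [h, C_0] at h2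
      exact hne h2
    have h3 : p = (coeff (ex 0 0) p / coeff (ex 0 0)
        ((pd 0 ^ i * pd 1 ^ j : Module.End K (MvPolynomial (Fin 2) K)) F)) •
        (pd 0 ^ i * pd 1 ^ j : Module.End K (MvPolynomial (Fin 2) K)) F := by
      conv_rhs => rw [h2, coeff_C, if_pos (by
        ext l
        fin_cases l
        · exact (ex_zero _ _).symm
        · exact (ex_one _ _).symm)]
      rw [smul_eq_C_mul, ← C_mul]
      conv_lhs => rw [hom_zero hp]
      congr 1
      field_simp [hc]
    rw [h3]
    exact Submodule.smul_mem _ _ (pp_mem_dq F (by omega))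
  have hd1 : ∀ p : MvPolynomial (Fin 2) K, p.IsHomogeneous 1 → p ∈ Dq F (m - 1) := by
    by_contra hcon
    push Not at hcon
    obtain ⟨p, hp1, hp2⟩ := hcon
    obtain ⟨Q, hQ0, hQ1, hQ2⟩ := exists_op (c := 1) (Dq F (m - 1)) (fun q hq => by
      have := dq_hom hF (by omega) hq
      have e : m - (m - 1) = 1 := by omega
      rwa [e] at this) hp1 hp2
    have h1 := ap_zero hF (by omega) hQ2
    have h2 : dd' ![Q.coeff 1, Q.coeff 0] F = 0 := by
      rw [← h1]
      unfold ap dd'
      rw [Finset.sum_range_succ, Finset.sum_range_one]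
      simp
      exact add_comm _ _
    have h3 := hind _ h2
    apply hQ0
    have e0 : Q.coeff 1 = 0 := congrFun h3 0
    have e1 : Q.coeff 0 = 0 := congrFun h3 1
    ext i
    rw [Polynomial.coeff_zero]
    rcases i with _ | _ | i
    · exact e1
    · exact e0
    · exact Polynomial.coeff_eq_zero_of_natDegree_lt (by omega)
  -- the first degree which is not attained
  have hexn : ∃ c, c ≤ m ∧ ∃ p : MvPolynomial (Fin 2) K, p.IsHomogeneous c ∧ p ∉ Dq F (m - c) := by
    refine ⟨m, le_rfl, ?_⟩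
    by_contra hcon
    push Not at hcon
    rw [Nat.sub_self] at hcon
    have hspan : Dq F 0 ≤ Submodule.span K {F} := by
      refine dq_induct _ fun i j hij => ?_
      have hi : i = 0 := by omega
      have hj : j = 0 := by omega
      rw [hi, hj, pow_zero, pow_zero, mul_one]
      exact Submodule.mem_span_singleton_self F
    have h1 := hspan (hcon _ (by have := mono_hom (K := K) m 0; rwa [add_zero] at this))
    have h2 := hspan (hcon _ (by have := mono_hom (K := K) 0 m; rwa [zero_add] at this))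
    obtain ⟨a, ha⟩ := Submodule.mem_span_singleton.1 h1
    obtain ⟨b, hb⟩ := Submodule.mem_span_singleton.1 h2
    have e1 := congrArg (coeff (ex m 0)) ha
    have e2 := congrArg (coeff (ex 0 m)) ha
    have e3 := congrArg (coeff (ex 0 m)) hb
    rw [coeff_smul, coeff_mono, if_pos ⟨rfl, rfl⟩, smul_eq_mul] at e1
    rw [coeff_smul, coeff_mono, if_neg (by omega), smul_eq_mul] at e2
    rw [coeff_smul, coeff_mono, if_pos ⟨rfl, rfl⟩, smul_eq_mul] at e3
    rcases mul_eq_zero.1 e2 with h | h
    · rw [h, zero_mul] at e1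
      exact zero_ne_one e1
    · rw [h, mul_zero] at e3
      exact zero_ne_one e3
  obtain ⟨ρ, ⟨hρm, p0, hp0, hp0'⟩, hρmin⟩ : ∃ ρ, (ρ ≤ m ∧
      ∃ p : MvPolynomial (Fin 2) K, p.IsHomogeneous ρ ∧ p ∉ Dq F (m - ρ)) ∧
      ∀ c < ρ, ¬ (c ≤ m ∧ ∃ p : MvPolynomial (Fin 2) K, p.IsHomogeneous c ∧ p ∉ Dq F (m - c)) :=
    ⟨Nat.find hexn, Nat.find_spec hexn, fun c hc => Nat.find_min hexn hc⟩
  have hall : ∀ c < ρ, ∀ p : MvPolynomial (Fin 2) K, p.IsHomogeneous c → p ∈ Dq F (m - c) := by
    intro c hc p hp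
    by_contra hcon
    exact hρmin c hc ⟨by omega, p, hp, hcon⟩
  have hρ2 : 2 ≤ ρ := by
    by_contra hlt
    have h : ρ = 0 ∨ ρ = 1 := by omega
    rcases h with h | h
    · subst h
      exact hp0' (hd0 p0 hp0)
    · subst h
      exact hp0' (hd1 p0 hp0)
  obtain ⟨r, hr⟩ : ∃ r, ρ = r + 1 := ⟨ρ - 1, by omega⟩
  have hne := fun (Q : Polynomial K) (hQ0 : Q ≠ 0) (hQ : Q.natDegree ≤ r) =>
    ap_ne (F := F) (m := m) (c := r) (hall r (by omega)) hQ0 hQ
  have hρ3 : 2 * ρ ≤ m + 2 := by
    by_contra hlt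
    -- too few derivatives
    have h1 : homogeneousSubmodule (Fin 2) K r ≤ Dq F (m - r) := fun p hp =>
      hall r (by omega) p hp
    have hfin : Module.Finite K ↥(Dq F (m - r)) := by
      unfold Dq
      exact Module.Finite.iff_fg.2 (Submodule.fg_span (Set.finite_range _))
    have h2 := Submodule.finrank_mono h1
    have h3 : Module.finrank K ↥(Dq F (m - r)) ≤ m - r + 1 := by
      unfold Dq
      have := finrank_range_le_card (R := K) (fun i : Fin (m - r + 1) =>
        (pd 0 ^ (i : ℕ) * pd 1 ^ (m - r - i) : Module.End K (MvPolynomial (Fin 2) K)) F)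
      rw [Fintype.card_fin] at this
      exact this
    have h4 : r + 1 ≤ Module.finrank K ↥(homogeneousSubmodule (Fin 2) K r) := by
      have hfin2 : Module.Finite K ↥(homogeneousSubmodule (Fin 2) K r) :=
        Module.Finite.iff_fg.2 (homogeneousSubmodule_fg _ _ r)
      have hli : LinearIndependent K (fun i : Fin (r + 1) =>
          (⟨X 0 ^ (i : ℕ) * X 1 ^ (r - i), by
            have := mono_hom (K := K) (i : ℕ) (r - i)
            have e : (i : ℕ) + (r - i) = r := by
              have := i.2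
              omega
            rw [e] at this
            exact this⟩ : ↥(homogeneousSubmodule (Fin 2) K r))) := by
        rw [Fintype.linearIndependent_iff]
        intro g hg i
        have h5 := congrArg (fun z : ↥(homogeneousSubmodule (Fin 2) K r) =>
          coeff (ex (i : ℕ) (r - i)) z.1) hg
        simp only [Submodule.coe_sum, Submodule.coe_smul, coeff_sum, coeff_smul,
          Submodule.coe_zero, coeff_zero, coeff_mono, smul_eq_mul] at h5
        rw [Finset.sum_eq_single i] at h5
        · rwa [if_pos ⟨rfl, rfl⟩, mul_one] at h5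
        · intro j _ hj
          rw [if_neg (fun h => hj (Fin.ext h.1)), mul_zero]
        · intro h
          exact absurd (Finset.mem_univ _) h
      have := hli.fintype_card_le_finrank
      rwa [Fintype.card_fin] at this
    omega
  refine ⟨ρ, hρ2, hρ3, hall, ?_⟩
  obtain ⟨Q, hQ0, hQ1, hQ2⟩ := exists_op (c := ρ) (Dq F (m - ρ)) (fun q hq => by
      have := dq_hom hF (by omega) hq
      have e : m - (m - ρ) = ρ := by omega
      rwa [e] at this) hp0 hp0'
  have hQF := ap_zero hF hρm hQ2
  have hr1 : ρ - 1 = r := by omega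
  rw [hr1]
  -- the factor at infinity
  have hinf : Q.natDegree < ρ → ap r Q F ∈ Dq F r ∧ ap r Q F ≠ 0 ∧ dd' ![0, 1] (ap r Q F) = 0 := by
    intro h
    refine ⟨ap_mem_dq F r Q, hne Q hQ0 (by omega), ?_⟩
    have h1 : dd' (![0, 1] : Fin 2 → K) = pd 1 := by
      unfold dd'
      simp
    rw [h1]
    have h2 := ap_succ_zero (c := r) (Q := Q) (Polynomial.coeff_eq_zero_of_natDegree_lt (by omega))
    rw [hr, h2] at hQF
    exact hQF
  have hroot : ∀ a, Q.IsRoot a → ∃ p ∈ Dq F r, p ≠ 0 ∧ dd' ![1, -a] p = 0 := by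
    intro a ha
    obtain ⟨Q1, hQ1'⟩ := Polynomial.dvd_iff_isRoot.2 ha
    have hQ10 : Q1 ≠ 0 := by
      rintro rfl
      rw [mul_zero] at hQ1'
      exact hQ0 hQ1'
    have hdeg : Q.natDegree = 1 + Q1.natDegree := by
      rw [hQ1', Polynomial.natDegree_mul (Polynomial.X_sub_C_ne_zero a) hQ10,
        Polynomial.natDegree_X_sub_C]
    have h1 : dd' (![1, -a] : Fin 2 → K) = pd 0 - a • pd 1 := by
      unfold dd'
      simp only [Matrix.cons_val_zero, Matrix.cons_val_one]
      module
    refine ⟨ap r Q1 F, ap_mem_dq F r Q1, hne Q1 hQ10 (by omega), ?_⟩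
    rw [h1]
    rw [hr, hQ1', ap_succ_root a (by omega)] at hQF
    exact hQF
  rcases Nat.lt_or_ge Q.natDegree ρ with hlt | hge
  · rcases Nat.eq_zero_or_pos Q.natDegree with h0 | h0
    · right
      refine ⟨![0, 1], fun h => one_ne_zero (congrFun h 1), ?_, ?_⟩
      · rw [Polynomial.eq_C_of_natDegree_eq_zero h0, ← mul_one (Polynomial.C _), ap_smul,
          ap_pow_one] at hQF
        have h1 : Q.coeff 0 ≠ 0 := by
          intro h
          rw [Polynomial.eq_C_of_natDegree_eq_zero h0, h, Polynomial.C_0] at hQ0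
          exact hQ0 rfl
        exact (smul_eq_zero.1 hQF).resolve_left h1
      · have := hne 1 one_ne_zero (by simp)
        rwa [ap_pow_one] at this
    · left
      obtain ⟨a, ha⟩ := IsAlgClosed.exists_root Q (by
        intro h
        rw [Polynomial.degree_eq_natDegree hQ0] at h
        have : Q.natDegree = 0 := by exact_mod_cast h
        omega)
      obtain ⟨p, hp1, hp2, hp3⟩ := hroot a ha
      obtain ⟨q1, q2, q3⟩ := hinf hlt
      refine ⟨![0, 1], ![1, -a], ?_, _, q1, p, hp1, q2, hp2, q3, hp3⟩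
      simp
  · have hQρ : Q.natDegree = ρ := le_antisymm hQ1 hge
    obtain ⟨a, ha⟩ := IsAlgClosed.exists_root Q (by
      intro h
      rw [Polynomial.degree_eq_natDegree hQ0] at h
      have : Q.natDegree = 0 := by exact_mod_cast h
      omega)
    by_cases hb : ∃ b, Q.IsRoot b ∧ b ≠ a
    · obtain ⟨b, hb1, hb2⟩ := hb
      left
      obtain ⟨p, hp1, hp2, hp3⟩ := hroot a ha
      obtain ⟨q, hq1, hq2, hq3⟩ := hroot b hb1
      refine ⟨![1, -a], ![1, -b], ?_, p, hp1, q, hq1, hp2, hq2, hp3, hq3⟩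
      simp only [Matrix.cons_val_zero, Matrix.cons_val_one]
      intro h
      apply hb2
      linear_combination -h
    · push Not at hb
      right
      have hsp := IsAlgClosed.splits Q
      have hcard : Multiset.card Q.roots = ρ := by
        rw [← hQρ]
        exact hsp.natDegree_eq_card_roots.symm
      have hroots : Q.roots = Multiset.replicate ρ a := by
        rw [Multiset.eq_replicate]
        exact ⟨hcard, fun b hb' => hb b (Polynomial.isRoot_of_mem_roots hb')⟩
      have hQeq : Q = Polynomial.C Q.leadingCoeff * (Polynomial.X - Polynomial.C a) ^ ρ := by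
        have h1 := hsp.eq_prod_roots
        rw [hroots, Multiset.map_replicate, Multiset.prod_replicate] at h1
        exact h1
      refine ⟨![1, -a], fun h => one_ne_zero (congrFun h 0), ?_, ?_⟩
      · rw [hQeq, ap_smul, ap_pow_root] at hQF
        exact (smul_eq_zero.1 hQF).resolve_left (Polynomial.leadingCoeff_ne_zero.2 hQ0)
      · have := hne ((Polynomial.X - Polynomial.C a) ^ r)
          (pow_ne_zero _ (Polynomial.X_sub_C_ne_zero a)) (by
            rw [Polynomial.natDegree_pow, Polynomial.natDegree_X_sub_C, mul_one])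
        rwa [ap_pow_root] at this

end Pool.Agent.J4H49
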