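import Pool.Agent.J4H49.Setup
import Pool.Agent.J4H49.CliffG

set_option autoImplicit false

/-!
# Degrees in which all forms are leading forms
-/

namespace Pool.Agent.J4H49

open MvPolynomial Pool.Agent.W609 Pool.Agent.W609.CR Pool.Agent.TH167.SH Pool.Agent.TH167.TT
  Pool.Agent.TH167.CL Pool.Agent.TH167.T3 Pool.Agent.H248R5 Pool.Agent.H248R6

variable {K : Type} [Field K] {s : ℕ}

/-- All forms of degree at most `N` are leading forms of elements of the `n`-th system. -/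
def Fu (P : Fin s → Fin 2 → K) (w : Fin s → ℕ) (d : ℕ) (k : Fin s) (n N : ℕ) : Prop :=
  ∀ c ≤ N, ∀ p : MvPolynomial (Fin 2) K, p.IsHomogeneous c → p ∈ Ld P w d k n c

theorem fu_zero (P : Fin s → Fin 2 → K) (w : Fin s → ℕ) (d : ℕ) (k : Fin s) :
    Fu P w d k 0 0 := by
  intro c hc p hp
  have hc0 : c = 0 := by omega
  subst hc0
  rw [hom_zero hp]
  have h1 := Submodule.smul_mem _ (coeff (ex 0 0) p) (ld_zero P w d k)
  rw [smul_eq_C_mul, mul_one] at h1
  exact h1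

theorem fu_mul {P : Fin s → Fin 2 → K} {w : Fin s → ℕ} {d : ℕ} {k : Fin s} {n N n' N' : ℕ}
    (h : Fu P w d k n N) (h' : Fu P w d k n' N') : Fu P w d k (n + n') (N + N') := by
  intro c hc p hp
  refine hom_induct (Ld P w d k (n + n') c) (fun a b hab => ?_) hp
  obtain ⟨c1, c2, h1, h2, h3⟩ : ∃ c1 c2, c = c1 + c2 ∧ c1 ≤ N ∧ c2 ≤ N' :=
    ⟨min c N, c - min c N, by omega, by omega, by omega⟩
  obtain ⟨a1, a2, b1, b2, e1, e2, e3, e4⟩ : ∃ a1 a2 b1 b2, a = a1 + a2 ∧ b = b1 + b2 ∧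
      a1 + b1 = c1 ∧ a2 + b2 = c2 :=
    ⟨min a c1, a - min a c1, c1 - min a c1, b - (c1 - min a c1), by omega, by omega, by omega,
      by omega⟩
  have f1 : (X 0 ^ a1 * X 1 ^ b1 : MvPolynomial (Fin 2) K) ∈ Ld P w d k n c1 := by
    refine h c1 h2 _ ?_
    have := mono_hom (K := K) a1 b1
    rwa [e3] at this
  have f2 : (X 0 ^ a2 * X 1 ^ b2 : MvPolynomial (Fin 2) K) ∈ Ld P w d k n' c2 := by
    refine h' c2 h3 _ ?_
    have := mono_hom (K := K) a2 b2
    rwa [e4] at this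
  have f3 := ld_mul f1 f2
  rw [← h1] at f3
  have e : (X 0 ^ a * X 1 ^ b : MvPolynomial (Fin 2) K) =
      X 0 ^ a1 * X 1 ^ b1 * (X 0 ^ a2 * X 1 ^ b2) := by
    rw [e1, e2, pow_add, pow_add]
    ring
  rw [e]
  exact f3

theorem fu_nsmul {P : Fin s → Fin 2 → K} {w : Fin s → ℕ} {d : ℕ} {k : Fin s} {N : ℕ}
    (h : Fu P w d k 1 N) (n : ℕ) : Fu P w d k n (n * N) := by
  induction n with
  | zero =>
    rw [zero_mul]
    exact fu_zero P w d k
  | succ n ih =>
    rw [Nat.succ_mul]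
    exact fu_mul ih h

theorem fu_mono {P : Fin s → Fin 2 → K} {w : Fin s → ℕ} {d : ℕ} {k : Fin s} {n N N' : ℕ}
    (h : Fu P w d k n N) (hN : N' ≤ N) : Fu P w d k n N' :=
  fun c hc p hp => h c (hc.trans hN) p hp

/-- Powers of a leading form. -/
theorem ld_pow_le {P : Fin s → Fin 2 → K} {w : Fin s → ℕ} {d : ℕ} {k : Fin s}
    (h0 : Fu P w d k 1 0) {n n' c : ℕ} (hn : n ≤ n') {p : MvPolynomial (Fin 2) K}
    (hp : p ∈ Ld P w d k n c) : p ∈ Ld P w d k n' c := by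
  obtain ⟨t, rfl⟩ : ∃ t, n' = n + t := ⟨n' - n, by omega⟩
  have h1 := fu_nsmul h0 t
  rw [mul_zero] at h1
  have h2 := h1 0 le_rfl 1 (isHomogeneous_one _ _)
  have h3 := ld_mul hp h2
  rwa [mul_one, add_zero] at h3

theorem ld_linpow {P : Fin s → Fin 2 → K} {w : Fin s → ℕ} {d : ℕ} {k : Fin s} {M : ℕ}
    {l : MvPolynomial (Fin 2) K} (hl : ∀ c ≤ M, l ^ c ∈ Ld P w d k 1 c) :
    ∀ i c : ℕ, c ≤ i * M → l ^ c ∈ Ld P w d k i c := by
  intro i
  induction i with
  | zero =>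
    intro c hc
    have hc0 : c = 0 := by omega
    rw [hc0, pow_zero]
    exact ld_zero P w d k
  | succ i ih =>
    intro c hc
    rw [Nat.succ_mul] at hc
    obtain ⟨c1, c2, h1, h2, h3⟩ : ∃ c1 c2, c = c1 + c2 ∧ c1 ≤ i * M ∧ c2 ≤ M :=
      ⟨min c (i * M), c - min c (i * M), by omega, by omega, by omega⟩
    rw [h1, pow_add]
    exact ld_mul (ih c1 h2) (hl c2 h3)

/-- The first case. -/
theorem fu_pow {P : Fin s → Fin 2 → K} {w : Fin s → ℕ} {d : ℕ} {k : Fin s} {M : ℕ}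
    (h0 : Fu P w d k 1 0) {A : Matrix (Fin 2) (Fin 2) K} (hA : A.det ≠ 0)
    (hl : ∀ j : Fin 2, ∀ c ≤ M, lt A (X j) ^ c ∈ Ld P w d k 1 c) (n : ℕ) :
    Fu P w d k (n + 1) (n * M) := by
  intro c hc p hp
  have h1 : ∀ q : MvPolynomial (Fin 2) K, q.IsHomogeneous c → lt A q ∈ Ld P w d k (n + 1) c := by
    intro q hq
    have h2 : q ∈ (Ld P w d k (n + 1) c).comap (lt A).toLinearMap := by
      refine hom_induct _ (fun a b hab => ?_) hq
      rw [Submodule.mem_comap]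
      show lt A (X 0 ^ a * X 1 ^ b) ∈ _
      rw [map_mul, map_pow, map_pow]
      rcases Nat.eq_zero_or_pos M with hM | hM
      · rw [hM, mul_zero] at hc
        have ha : a = 0 := by omega
        have hb : b = 0 := by omega
        have hc0 : c = 0 := by omega
        rw [ha, hb, hc0, pow_zero, pow_zero, mul_one]
        exact ld_pow_le h0 (Nat.zero_le _) (ld_zero P w d k)
      · obtain ⟨i, hi⟩ : ∃ i, i = (a + M - 1) / M := ⟨_, rfl⟩
        obtain ⟨j, hj⟩ : ∃ j, j = (b + M - 1) / M := ⟨_, rfl⟩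
        have hi1 : a ≤ i * M := by
          have := Nat.lt_div_mul_add (a := a + M - 1) hM
          rw [← hi] at this
          omega
        have hj1 : b ≤ j * M := by
          have := Nat.lt_div_mul_add (a := b + M - 1) hM
          rw [← hj] at this
          omega
        have hi2 : i * M ≤ a + M - 1 := by
          rw [hi]
          exact Nat.div_mul_le_self _ _
        have hj2 : j * M ≤ b + M - 1 := by
          rw [hj]
          exact Nat.div_mul_le_self _ _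
        have hij : i + j ≤ n + 1 := by
          by_contra hcon
          have h3 : (n + 2) * M ≤ (i + j) * M := Nat.mul_le_mul_right M (by omega)
          have h4 : (i + j) * M = i * M + j * M := by ring
          have h5 : (n + 2) * M = n * M + 2 * M := by ring
          omega
        have h3 := ld_mul (ld_linpow (hl 0) i a hi1) (ld_linpow (hl 1) j b hj1)
        rw [hab] at h3
        exact ld_pow_le h0 hij h3
    exact h2
  rw [← lt_inv' hA p]
  exact h1 _ (lt_hom _ hp)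

/-- The bound for the arithmetic genus. The point `P k` is not blown up. -/
theorem Cv.bnd [CharZero K] [IsAlgClosed K] {P : Fin s → Fin 2 → K} {w : Fin s → ℕ} {d : ℕ}
    {k : Fin s} {G : MvPolynomial (Fin 3) K} (h : Cv P w d k G) {n : ℕ}
    (A : Submodule K (MvPolynomial (Fin 3) K)) (hA : A ≤ Sp P w d k n 0)
    (hfin : Module.Finite K ↥A) (hAG : ∀ f ∈ A, G ∣ f → f = 0) (r : ℤ) (hr1 : 1 ≤ r)
    (hr : r ≤ (Module.finrank K ↥A : ℤ))
    (hbig : (n : ℤ) * ((w k : ℤ) ^ 2 - 1) + 3 ≤ 2 * r) :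
    2 * r + ((d : ℤ) ^ 2 - 3 * d - ∑ i, (w i : ℤ) ^ 2 + ∑ i, (w i : ℤ)) +
      (w k : ℤ) * ((w k : ℤ) - 1) ≤ 2 * ((n : ℤ) * ((w k : ℤ) ^ 2 - 1)) := by
  classical
  have hd : 2 ≤ d := by
    have h1 := van_le h.irr.ne_zero h.hom (h.ord k).1
    have := h.two
    omega
  have h1 : 1 ≤ Module.finrank K ↥A := by
    have : (1 : ℤ) ≤ (Module.finrank K ↥A : ℤ) := hr1.trans hr
    exact_mod_cast this
  obtain ⟨s', rfl⟩ : ∃ s', s = s' + 1 := ⟨s - 1, by have := k.2; omega⟩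
  have h2 := cliffG (P := fun i => P (k.succAbove i)) (w := fun i => w (k.succAbove i)) h.irr
    h.hom hd (fun a b hab => Fin.succAbove_right_injective (inj_of_alg h.alg hab))
    (fun i => h.ord (k.succAbove i)) (u := fun i => n * w (k.succAbove i)) (a := n * d) A
    (by
      intro f hf
      obtain ⟨g1, g2, -⟩ := mem_sp.1 (hA hf)
      exact (mem_VS _ _ _ _).2 ⟨g1, fun i => g2 _ (Fin.succAbove_ne k i)⟩) hAG h1
  have hneg := h.neg
  unfold ip at hneg
  have hq : ∑ i, (w i : ℤ) ^ 2 =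
      (w k : ℤ) ^ 2 + ((∑ i, w (k.succAbove i) * w (k.succAbove i) : ℕ) : ℤ) := by
    rw [Fin.sum_univ_succAbove _ k]
    push_cast
    congr 1
    refine Finset.sum_congr rfl fun i _ => ?_
    ring
  have hl : ∑ i, (w i : ℤ) = (w k : ℤ) + ((∑ i, w (k.succAbove i) : ℕ) : ℤ) := by
    rw [Fin.sum_univ_succAbove _ k]
    push_cast
    rfl
  have hT : ∑ i, w (k.succAbove i) * (n * w (k.succAbove i)) =
      n * ∑ i, w (k.succAbove i) * w (k.succAbove i) := by
    rw [Finset.mul_sum]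
    refine Finset.sum_congr rfl fun i _ => ?_
    ring
  rw [hT] at h2
  rw [hq, hl]
  have hneg' : (d : ℤ) * d + 1 ≤ ∑ i, (w i : ℤ) ^ 2 := by
    have e : ∑ j, (w j : ℤ) * (w j : ℤ) = ∑ i, (w i : ℤ) ^ 2 :=
      Finset.sum_congr rfl fun i _ => (sq _).symm
    rw [e] at hneg
    linarith
  rw [hq] at hneg'
  obtain ⟨S, hS⟩ : ∃ S : ℕ, S = ∑ i, w (k.succAbove i) * w (k.succAbove i) := ⟨_, rfl⟩
  obtain ⟨L, hL⟩ : ∃ L : ℕ, L = ∑ i, w (k.succAbove i) := ⟨_, rfl⟩
  rw [← hS] at h2 hneg' ⊢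
  rw [← hL] at h2 ⊢
  obtain ⟨R, hR⟩ : ∃ R : ℕ, R = Module.finrank K ↥A := ⟨_, rfl⟩
  rw [← hR] at h2 hr
  obtain ⟨m, hm⟩ : ∃ m : ℤ, m = (w k : ℤ) := ⟨_, rfl⟩
  rw [← hm] at hbig hneg' ⊢
  have hnS : (n : ℤ) * ((d : ℤ) * d + 1) ≤ n * (m ^ 2 + S) :=
    mul_le_mul_of_nonneg_left hneg' (Int.natCast_nonneg n)
  rcases h2 with h2 | h2
  · exfalso
    have h3 : (2 * R + n * S : ℤ) ≤ n * d * d + 2 := by exact_mod_cast h2
    nlinarith
  · have h3 : (2 * R + 2 * (n * S) + d * d + L : ℤ) ≤ 2 * (n * d * d) + 3 * d + S := by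
      exact_mod_cast h2
    nlinarith

end Pool.Agent.J4H49
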