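import Pool.Agent.J4H49.Wt
import Pool.Agent.J4H49.Full

set_option autoImplicit false

/-!
# Families of forms with different weights
-/

namespace Pool.Agent.J4H49

open MvPolynomial Pool.Agent.W609 Pool.Agent.W609.CR Pool.Agent.TH167.SH Pool.Agent.TH167.TT
  Pool.Agent.TH167.CL Pool.Agent.TH167.T3 Pool.Agent.H248R5 Pool.Agent.H248R6

variable {K : Type} [Field K]

/-- The expansion at a point in linear coordinates. -/
noncomputable def LA (A : Matrix (Fin 2) (Fin 2) K) (p : Fin 2 → K) :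
    MvPolynomial (Fin 3) K →ₐ[K] MvPolynomial (Fin 2) K := (lt A).comp (tau p)

theorem LA_apply (A : Matrix (Fin 2) (Fin 2) K) (p : Fin 2 → K) (f : MvPolynomial (Fin 3) K) :
    LA A p f = lt A (tau p f) := rfl

theorem fam {s : ℕ} [CharZero K] {P : Fin s → Fin 2 → K} {w : Fin s → ℕ} {d : ℕ} {k : Fin s}
    {G : MvPolynomial (Fin 3) K} {A : Matrix (Fin 2) (Fin 2) K} {q W0 : ℕ}
    (hg : Wg q W0 (LA A (P k) G)) (hg0 : wc q W0 (LA A (P k) G) ≠ 0) {y : K} (hy : y ≠ 0)
    (hgy : eval (![1, y] : Fin 2 → K) (wc q W0 (LA A (P k) G)) = 0) {n : ℕ} {ι : Type}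
    [Fintype ι] (f : ι → MvPolynomial (Fin 3) K) (hf : ∀ i, f i ∈ Sp P w d k n 0)
    (a b : ι → ℕ) (hini : ∀ i, Ini q (a i) (b i) (LA A (P k) (f i)))
    (hinj : Function.Injective fun i => wt q (a i) (b i)) :
    ∃ V : Submodule K (MvPolynomial (Fin 3) K), V ≤ Sp P w d k n 0 ∧ Module.Finite K ↥V ∧
      (∀ x ∈ V, G ∣ x → x = 0) ∧ Module.finrank K ↥V = Fintype.card ι := by
  classical
  let Θ : (ι → K) →ₗ[K] MvPolynomial (Fin 3) K :=
    { toFun := fun c => ∑ i, c i • f i
      map_add' := fun c c' => by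
        simp only [Pi.add_apply, add_smul, Finset.sum_add_distrib]
      map_smul' := fun t c => by
        simp only [Pi.smul_apply, smul_eq_mul, mul_smul, RingHom.id_apply, Finset.smul_sum] }
  have hΘ : ∀ c, Θ c = ∑ i, c i • f i := fun _ => rfl
  have key : ∀ c, G ∣ Θ c → c = 0 := by
    intro c hdvd
    by_contra hne
    obtain ⟨i1, hi1⟩ : ∃ i, c i ≠ 0 := by
      by_contra hcon
      push Not at hcon
      exact hne (funext hcon)
    obtain ⟨i0, hi0, hmin⟩ := Finset.exists_min_image (Finset.univ.filter fun i => c i ≠ 0)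
      (fun i => wt q (a i) (b i)) ⟨i1, by rw [Finset.mem_filter]; exact ⟨Finset.mem_univ _, hi1⟩⟩
    rw [Finset.mem_filter] at hi0
    have hmin' : ∀ i, c i ≠ 0 → i ≠ i0 → wt q (a i0) (b i0) < wt q (a i) (b i) := by
      intro i hi hii
      have h1 := hmin i (by rw [Finset.mem_filter]; exact ⟨Finset.mem_univ _, hi⟩)
      exact lt_of_le_of_ne h1 fun h => hii (hinj h.symm)
    obtain ⟨g', hg'⟩ := hdvd
    have hLA : LA A (P k) (Θ c) = ∑ i, c i • LA A (P k) (f i) := by
      rw [hΘ, map_sum]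
      exact Finset.sum_congr rfl fun i _ => map_smul _ _ _
    have hmul : LA A (P k) (Θ c) = LA A (P k) G * LA A (P k) g' := by
      rw [hg', map_mul]
    obtain ⟨κ, hκ, hκ1⟩ := (hini i0).2
    refine no_mult (W := wt q (a i0) (b i0)) (a := a i0) (b := b i0) (γ := LA A (P k) g')
      hg hg0 hy hgy ?_ (c := c i0 * κ) (mul_ne_zero hi0.2 hκ) ?_
    · rw [← hmul, hLA]
      refine wg_sum _ _ fun i _ => ?_
      by_cases hi : c i = 0
      · rw [hi, zero_smul]
        exact wg_zero _ _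
      · by_cases hii : i = i0
        · rw [hii]
          exact wg_smul _ (hini i0).1
        · exact wg_smul _ (wg_mono (hmin' i hi hii).le (hini i).1)
    · rw [← hmul, hLA, map_sum, Finset.sum_eq_single i0]
      · rw [map_smul, hκ1, smul_smul]
      · intro i _ hii
        rw [map_smul]
        by_cases hi : c i = 0
        · rw [hi, zero_smul]
        · rw [wc_of_lt (hini i).1 (hmin' i hi hii), smul_zero]
      · intro h
        exact absurd (Finset.mem_univ _) h
  have hinjΘ : Function.Injective Θ := by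
    rw [← LinearMap.ker_eq_bot, LinearMap.ker_eq_bot']
    intro x hx
    exact key x (by rw [hx]; exact dvd_zero _)
  refine ⟨LinearMap.range Θ, ?_, inferInstance, ?_, ?_⟩
  · rintro _ ⟨x, rfl⟩
    rw [hΘ]
    exact Submodule.sum_mem _ fun i _ => Submodule.smul_mem _ _ (hf i)
  · rintro _ ⟨x, rfl⟩ hdvd
    rw [key x hdvd, map_zero]
  · rw [LinearMap.finrank_range_of_inj hinjΘ, Module.finrank_fintype_fun_eq_card]

/-- The products of the sections of the first system. -/
theorem prods {s : ℕ} {P : Fin s → Fin 2 → K} {w : Fin s → ℕ} {d : ℕ} {k : Fin s}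
    {A : Matrix (Fin 2) (Fin 2) K} {q ε B : ℕ}
    (hsec : ∀ a ≤ ε, ∀ b ≤ B, ∃ f ∈ Sp P w d k 1 0, Ini q a b (LA A (P k) f)) :
    ∀ n a b : ℕ, a ≤ n * ε → b ≤ n * B →
      ∃ f ∈ Sp P w d k n 0, Ini q a b (LA A (P k) f) := by
  intro n
  induction n with
  | zero =>
    intro a b ha hb
    have ha0 : a = 0 := by omega
    have hb0 : b = 0 := by omega
    rw [ha0, hb0]
    refine ⟨1, ?_, ?_⟩
    · rw [mem_sp]
      refine ⟨?_, fun j _ => ?_, van_zero _ _⟩
      · rw [zero_mul]
        exact isHomogeneous_one _ _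
      · rw [zero_mul]
        exact van_zero _ _
    · rw [map_one]
      exact ini_one q
  | succ n ih =>
    intro a b ha hb
    rw [Nat.succ_mul] at ha hb
    obtain ⟨a1, a2, e1, e2, e3⟩ : ∃ a1 a2, a = a1 + a2 ∧ a1 ≤ n * ε ∧ a2 ≤ ε :=
      ⟨min a (n * ε), a - min a (n * ε), by omega, by omega, by omega⟩
    obtain ⟨b1, b2, e4, e5, e6⟩ : ∃ b1 b2, b = b1 + b2 ∧ b1 ≤ n * B ∧ b2 ≤ B :=
      ⟨min b (n * B), b - min b (n * B), by omega, by omega, by omega⟩
    obtain ⟨f, hf1, hf2⟩ := ih a1 b1 e2 e5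
    obtain ⟨g, hg1, hg2⟩ := hsec a2 e3 b2 e6
    refine ⟨f * g, sp_mono (Nat.zero_le _) (sp_mul hf1 hg1), ?_⟩
    rw [map_mul, e1, e4]
    exact ini_mul hf2 hg2

/-- The indices of the family. -/
theorem wt_inj {q c B : ℕ} (hq : 1 ≤ q) (hB : q ≤ B + 1) :
    Function.Injective (fun i : (Fin (q + 1) × Fin (B + 1)) ⊕ (Fin c × Fin q) =>
      wt q (Sum.elim (fun x => (x.1 : ℕ)) (fun x => q + 1 + (x.1 : ℕ)) i)
        (Sum.elim (fun x => (x.2 : ℕ)) (fun x => B - (x.2 : ℕ)) i)) := by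
  -- the basic fact
  have key : ∀ a b a' b' : ℕ, wt q a b = wt q a' b' → a' < a → q + 1 ≤ a ∧ b + q ≤ b' := by
    intro a b a' b' h hlt
    unfold wt at h
    obtain ⟨t, ht⟩ : ∃ t, a = a' + t := ⟨a - a', by omega⟩
    have h1 : q * t + (q + 1) * b = (q + 1) * b' := by
      rw [ht] at h
      nlinarith
    have h2 : b ≤ b' := by
      by_contra hcon
      push Not at hcon
      have : (q + 1) * b' < (q + 1) * b := Nat.mul_lt_mul_of_pos_left hcon (by omega)
      omega
    obtain ⟨u, hu⟩ : ∃ u, b' = b + u := ⟨b' - b, by omega⟩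
    have h3 : q * t = (q + 1) * u := by
      rw [hu] at h1
      nlinarith
    have hu0 : u ≠ 0 := by
      rintro rfl
      rw [mul_zero] at h3
      rcases Nat.mul_eq_zero.1 h3 with h | h <;> omega
    have h4 : q ∣ u := by
      have h5 : q ∣ (q + 1) * u := ⟨t, h3.symm⟩
      have h6 : Nat.Coprime q (q + 1) := by simp
      exact h6.dvd_of_dvd_mul_left h5
    have h5 : q ≤ u := Nat.le_of_dvd (by omega) h4
    have h6 : q + 1 ∣ t := by
      have h5 : q + 1 ∣ q * t := ⟨u, h3⟩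
      have h6 : Nat.Coprime (q + 1) q := by simp
      exact h6.dvd_of_dvd_mul_left h5
    have ht0 : t ≠ 0 := by omega
    have h7 : q + 1 ≤ t := Nat.le_of_dvd (by omega) h6
    omega
  have key2 : ∀ a b a' b' : ℕ, wt q a b = wt q a' b' → a = a' → b = b' := by
    intro a b a' b' h he
    unfold wt at h
    rw [he] at h
    nlinarith
  have key3 : ∀ i j : (Fin (q + 1) × Fin (B + 1)) ⊕ (Fin c × Fin q),
      wt q (Sum.elim (fun x => (x.1 : ℕ)) (fun x => q + 1 + (x.1 : ℕ)) i)
        (Sum.elim (fun x => (x.2 : ℕ)) (fun x => B - (x.2 : ℕ)) i) =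
      wt q (Sum.elim (fun x => (x.1 : ℕ)) (fun x => q + 1 + (x.1 : ℕ)) j)
        (Sum.elim (fun x => (x.2 : ℕ)) (fun x => B - (x.2 : ℕ)) j) →
      ¬ (Sum.elim (fun x => (x.1 : ℕ)) (fun x => q + 1 + (x.1 : ℕ)) j <
        Sum.elim (fun x => (x.1 : ℕ)) (fun x => q + 1 + (x.1 : ℕ)) i) := by
    intro i j h hlt
    obtain ⟨h1, h2⟩ := key _ _ _ _ h hlt
    have hjB : Sum.elim (fun x : Fin (q + 1) × Fin (B + 1) => (x.2 : ℕ))
        (fun x : Fin c × Fin q => B - (x.2 : ℕ)) j ≤ B := by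
      rcases j with x | x
      · have := x.2.2
        show (x.2 : ℕ) ≤ B
        omega
      · show B - (x.2 : ℕ) ≤ B
        omega
    rcases i with x | x
    · have := x.1.2
      simp only [Sum.elim_inl] at h1
      omega
    · have h3 := x.2.2
      simp only [Sum.elim_inr] at h2
      omega
  intro i j h
  have h1 := key3 i j h
  have h2 := key3 j i h.symm
  have h3 := le_antisymm (not_lt.1 h1) (not_lt.1 h2)
  have h4 := key2 _ _ _ _ h h3
  rcases i with x | x <;> rcases j with x' | x'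
  · simp only [Sum.elim_inl] at h3 h4
    congr 1
    exact Prod.ext (Fin.ext h3) (Fin.ext h4)
  · simp only [Sum.elim_inl, Sum.elim_inr] at h3 h4
    have := x.1.2
    omega
  · simp only [Sum.elim_inl, Sum.elim_inr] at h3 h4
    have := x'.1.2
    omega
  · simp only [Sum.elim_inr] at h3 h4
    congr 1
    have h5 := x.2.2
    have h6 := x'.2.2
    exact Prod.ext (Fin.ext (by omega)) (Fin.ext (by omega))

end Pool.Agent.J4H49
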