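import Pool.Agent.J4H49.FamW

set_option autoImplicit false

/-!
# A general step of the growth
-/

namespace Pool.Agent.J4H49

open MvPolynomial Pool.Agent.W609 Pool.Agent.W609.CR Pool.Agent.TH167.SH Pool.Agent.TH167.TT
  Pool.Agent.TH167.CL Pool.Agent.TH167.T3 Pool.Agent.H248R5 Pool.Agent.H248R6

variable {K : Type} [Field K] {s : ℕ}

/-- One step of the growth. -/
theorem grow_gen {P : Fin s → Fin 2 → K} {w : Fin s → ℕ} {d : ℕ} {k : Fin s} {n : ℕ}
    {V : Type} [AddCommGroup V] [Module K V] [Module.Finite K V]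
    (φ : MvPolynomial (Fin 2) K →ₗ[K] V)
    (hφ : ∀ v : V, ∃ f ∈ Sp P w d k (n + 1) 0, φ (tau (P k) f) = v)
    {G H : MvPolynomial (Fin 3) K} (hG : Irreducible G) (hH : H ∈ Sp P w d k 1 0)
    (hHG : ¬ G ∣ H) (I : Submodule K V)
    (hI : ∀ a b : MvPolynomial (Fin 2) K, φ (tau (P k) G * a + tau (P k) H * b) ∈ I)
    (A : Submodule K (MvPolynomial (Fin 3) K)) [Module.Finite K ↥A] (hA : A ≤ Sp P w d k n 0)
    (hAG : ∀ f ∈ A, G ∣ f → f = 0) :
    ∃ A' : Submodule K (MvPolynomial (Fin 3) K), A' ≤ Sp P w d k (n + 1) 0 ∧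
      Module.Finite K ↥A' ∧ (∀ f ∈ A', G ∣ f → f = 0) ∧
      Module.finrank K ↥A + Module.finrank K V ≤ Module.finrank K ↥A' + Module.finrank K ↥I := by
  classical
  let Φ : ↥(Sp P w d k (n + 1) 0) →ₗ[K] V ⧸ I :=
    (I.mkQ.comp (φ.comp (tau (P k)).toLinearMap)).comp (Sp P w d k (n + 1) 0).subtype
  have hΦ : Function.Surjective Φ := by
    intro y
    obtain ⟨z, rfl⟩ := I.mkQ_surjective y
    obtain ⟨f, hf1, hf2⟩ := hφ z
    refine ⟨⟨f, hf1⟩, ?_⟩
    show I.mkQ (φ (tau (P k) f)) = I.mkQ z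
    rw [hf2]
  obtain ⟨σ, hσ⟩ := Φ.exists_rightInverse_of_surjective (LinearMap.range_eq_top.2 hΦ)
  have hmulH : ∀ a ∈ A, H * a ∈ Sp P w d k (n + 1) 0 := by
    intro a ha
    have h1 := sp_mul hH (hA ha)
    rw [add_comm 1 n] at h1
    exact sp_mono (Nat.zero_le _) h1
  let Θ : (↥A × (V ⧸ I)) →ₗ[K] MvPolynomial (Fin 3) K :=
    LinearMap.coprod ((LinearMap.mulLeft K H).comp A.subtype)
      ((Sp P w d k (n + 1) 0).subtype.comp σ)
  have hΘ : ∀ x, Θ x = H * x.1.1 + (σ x.2).1 := fun x => rfl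
  have key : ∀ x, G ∣ Θ x → x = 0 := by
    rintro ⟨a, c⟩ hdvd
    rw [hΘ] at hdvd
    have h1 : c = 0 := by
      obtain ⟨q, hq⟩ := hdvd
      have h2 := congrArg (tau (P k)) hq
      rw [map_add, map_mul, map_mul] at h2
      have h3 : tau (P k) (σ c).1 = tau (P k) G * tau (P k) q + tau (P k) H * (-tau (P k) a.1) := by
        linear_combination h2
      have h4 : Φ (σ c) = 0 := by
        show I.mkQ (φ (tau (P k) (σ c).1)) = 0
        rw [h3]
        exact (Submodule.Quotient.mk_eq_zero I).2 (hI _ _)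
      have h5 : Φ (σ c) = c := LinearMap.congr_fun hσ c
      rw [← h5, h4]
    have h2 : a = 0 := by
      rw [h1, map_zero] at hdvd
      have h3 : G ∣ H * a.1 := by
        have e : H * a.1 + ((0 : ↥(Sp P w d k (n + 1) 0)) : MvPolynomial (Fin 3) K) = H * a.1 := by
          rw [Submodule.coe_zero, add_zero]
        rw [← e]
        exact hdvd
      rcases hG.prime.dvd_or_dvd h3 with h4 | h4
      · exact absurd h4 hHG
      · exact Subtype.ext (hAG a.1 a.2 h4)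
    rw [h1, h2]
    rfl
  have hinj : Function.Injective Θ := by
    rw [← LinearMap.ker_eq_bot, LinearMap.ker_eq_bot']
    intro x hx
    exact key x (by rw [hx]; exact dvd_zero _)
  refine ⟨LinearMap.range Θ, ?_, inferInstance, ?_, ?_⟩
  · rintro _ ⟨x, rfl⟩
    rw [hΘ]
    exact Submodule.add_mem _ (hmulH _ x.1.2) (σ x.2).2
  · rintro _ ⟨x, rfl⟩ hdvd
    rw [key x hdvd, map_zero]
  · rw [LinearMap.finrank_range_of_inj hinj, Module.finrank_prod]
    have h1 := Submodule.finrank_quotient_add_finrank I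
    omega

/-- The rank of a linear map which factors through a finite-dimensional space. -/
theorem rank_fac {M V W : Type} [AddCommGroup M] [Module K M] [AddCommGroup V] [Module K V]
    [AddCommGroup W] [Module K W] [Module.Finite K W] (f : M →ₗ[K] V) (g : M →ₗ[K] W)
    (h : ∀ x, g x = 0 → f x = 0) :
    Module.finrank K ↥(LinearMap.range f) ≤ Module.finrank K W := by
  obtain ⟨σ, hσ⟩ := (g.rangeRestrict).exists_rightInverse_of_surjective
    (LinearMap.range_rangeRestrict g)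
  have h1 : LinearMap.range f ≤ LinearMap.range (f.comp σ) := by
    rintro _ ⟨x, rfl⟩
    refine ⟨g.rangeRestrict x, ?_⟩
    have h2 : g.rangeRestrict (σ (g.rangeRestrict x)) = g.rangeRestrict x :=
      LinearMap.congr_fun hσ _
    have h3 : g (σ (g.rangeRestrict x) - x) = 0 := by
      rw [map_sub, sub_eq_zero]
      exact congrArg Subtype.val h2
    have h4 := h _ h3
    rw [map_sub, sub_eq_zero] at h4
    exact h4
  have h2 : Module.finrank K ↥(LinearMap.range (f.comp σ)) ≤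
      Module.finrank K ↥(LinearMap.range g) := LinearMap.finrank_range_le _
  exact ((Submodule.finrank_mono h1).trans h2).trans (Submodule.finrank_le _)

/-- The coefficients under a staircase. -/
noncomputable def stc (c : ℕ → ℕ) (n1 : ℕ) :
    MvPolynomial (Fin 2) K →ₗ[K] ((Σ D : Fin n1, Fin (c D)) → K) :=
  LinearMap.pi fun x => lcoeff K (ex ((x.1 : ℕ) - (x.2 : ℕ)) (x.2 : ℕ))

theorem stc_apply (c : ℕ → ℕ) (n1 : ℕ) (p : MvPolynomial (Fin 2) K)
    (x : Σ D : Fin n1, Fin (c D)) :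
    stc c n1 p x = coeff (ex ((x.1 : ℕ) - (x.2 : ℕ)) (x.2 : ℕ)) p := rfl

theorem stc_rank (c : ℕ → ℕ) (n1 : ℕ) :
    Module.finrank K ((Σ D : Fin n1, Fin (c D)) → K) = ∑ D ∈ Finset.range n1, c D := by
  rw [Module.finrank_fintype_fun_eq_card, Fintype.card_sigma, Finset.sum_range]
  exact Finset.sum_congr rfl fun D _ => Fintype.card_fin _

theorem stc_zero_wg {c : ℕ → ℕ} {n1 q W : ℕ} {p : MvPolynomial (Fin 2) K}
    (h : stc c n1 p = 0) (hc : ∀ a b, wt q a b < W → a + b < n1 ∧ b < c (a + b)) : Wg q W p := by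
  intro a b hab
  obtain ⟨h1, h2⟩ := hc a b hab
  have h3 := congrFun h ⟨⟨a + b, h1⟩, ⟨b, h2⟩⟩
  rw [stc_apply] at h3
  have e : a + b - b = a := by omega
  simp only [e] at h3
  exact h3

theorem wg_stc_zero {c : ℕ → ℕ} {n1 q W : ℕ} {p : MvPolynomial (Fin 2) K} (h : Wg q W p)
    (hc : ∀ D < n1, ∀ j < c D, j ≤ D ∧ q * D + j < W) : stc c n1 p = 0 := by
  funext x
  rw [stc_apply]
  obtain ⟨h1, h2⟩ := hc x.1 x.1.2 x.2 x.2.2
  apply h
  unfold wt
  have e : (x.1 : ℕ) - (x.2 : ℕ) + (x.2 : ℕ) = x.1 := by omega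
  rw [e]
  exact h2

theorem stc_surj {c : ℕ → ℕ} {n1 : ℕ} (hc : ∀ D < n1, ∀ j < c D, j ≤ D)
    (v : (Σ D : Fin n1, Fin (c D)) → K) : ∃ p : MvPolynomial (Fin 2) K, stc c n1 p = v := by
  classical
  refine ⟨∑ x, v x • (X 0 ^ ((x.1 : ℕ) - (x.2 : ℕ)) * X 1 ^ (x.2 : ℕ)), ?_⟩
  funext y
  rw [stc_apply, coeff_sum, Finset.sum_eq_single y]
  · rw [coeff_smul, coeff_mono, if_pos ⟨rfl, rfl⟩, smul_eq_mul, mul_one]
  · intro x _ hxy
    rw [coeff_smul, coeff_mono, if_neg, smul_zero]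
    rintro ⟨h1, h2⟩
    apply hxy
    have h3 := hc x.1 x.1.2 x.2 x.2.2
    have h4 := hc y.1 y.1.2 y.2 y.2.2
    obtain ⟨⟨D, hD⟩, ⟨j, hj⟩⟩ := x
    obtain ⟨⟨D', hD'⟩, ⟨j', hj'⟩⟩ := y
    simp only at h1 h2 h3 h4
    have e1 : D = D' := by omega
    subst e1
    subst h2
    rfl
  · intro h
    exact absurd (Finset.mem_univ _) h

end Pool.Agent.J4H49
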