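import Pool.Agent.J4H49.Ld

set_option autoImplicit false

/-!
# The growth of the systems on the curve
-/

namespace Pool.Agent.J4H49

open MvPolynomial Pool.Agent.W609 Pool.Agent.W609.CR Pool.Agent.TH167.SH Pool.Agent.TH167.TT
  Pool.Agent.TH167.CL Pool.Agent.H248R5 Pool.Agent.H248R6

variable {K : Type} [Field K] {s : ℕ}

/-- The dimension of the quotient by the ideal generated by two polynomials and a power of the
maximal ideal. -/
theorem quo_two {g h : MvPolynomial (Fin 2) K} {m N : ℕ} (hg : g ∈ Id K m)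
    (hh : h ∈ Id K (m - 1)) (hm : 1 ≤ m) :
    ∃ I : Submodule K (Quo K (N + 1)),
      (∀ a b : MvPolynomial (Fin 2) K, Ideal.Quotient.mk (Id K (N + 1)) (g * a + h * b) ∈ I) ∧
      Module.finrank K ↥I ≤ (N + 2 - m).choose 2 + (N + 3 - m).choose 2 := by
  classical
  have hfin : Module.Finite K (Quo K (N + 1)) := quo_finite _
  let π : MvPolynomial (Fin 2) K →ₗ[K] Quo K (N + 1) :=
    (Ideal.Quotient.mkₐ K (Id K (N + 1))).toLinearMap
  let A1 := LinearMap.range (π.comp (LinearMap.mulLeft K g))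
  let A2 := LinearMap.range (π.comp (LinearMap.mulLeft K h))
  refine ⟨A1 ⊔ A2, fun a b => ?_, ?_⟩
  · rw [map_add]
    exact Submodule.add_mem_sup ⟨a, rfl⟩ ⟨b, rfl⟩
  · have h1 : Module.finrank K ↥A1 ≤ (N + 2 - m).choose 2 := by
      rcases Nat.lt_or_ge (N + 1) m with hlt | hge
      · have h2 := rank_le (c := 0) (π.comp (LinearMap.mulLeft K g)) (by
          intro p _
          apply Ideal.Quotient.eq_zero_iff_mem.2
          exact Ideal.mul_mem_right _ _ (id_mono hlt.le hg))
        have h3 : (0 + 1).choose 2 = 0 := rfl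
        rw [h3] at h2
        exact h2.trans (Nat.zero_le _)
      · have h2 := rank_le (c := N + 1 - m) (π.comp (LinearMap.mulLeft K g)) (by
          intro p hp
          apply Ideal.Quotient.eq_zero_iff_mem.2
          have := id_mul hg hp
          have e : m + (N + 1 - m) = N + 1 := by omega
          rw [e] at this
          exact this)
        have e : N + 1 - m + 1 = N + 2 - m := by omega
        rw [e] at h2
        exact h2
    have h2 : Module.finrank K ↥A2 ≤ (N + 3 - m).choose 2 := by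
      rcases Nat.lt_or_ge (N + 1) (m - 1) with hlt | hge
      · have h2 := rank_le (c := 0) (π.comp (LinearMap.mulLeft K h)) (by
          intro p _
          apply Ideal.Quotient.eq_zero_iff_mem.2
          exact Ideal.mul_mem_right _ _ (id_mono hlt.le hh))
        have h3 : (0 + 1).choose 2 = 0 := rfl
        rw [h3] at h2
        exact h2.trans (Nat.zero_le _)
      · have h2 := rank_le (c := N + 2 - m) (π.comp (LinearMap.mulLeft K h)) (by
          intro p hp
          apply Ideal.Quotient.eq_zero_iff_mem.2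
          have := id_mul hh hp
          have e : m - 1 + (N + 2 - m) = N + 1 := by omega
          rw [e] at this
          exact this)
        have e : N + 2 - m + 1 = N + 3 - m := by omega
        rw [e] at h2
        exact h2
    have h3 := Submodule.finrank_add_le_finrank_add_finrank A1 A2
    omega

/-- One step of the growth. -/
theorem grow_one {P : Fin s → Fin 2 → K} {w : Fin s → ℕ} {d : ℕ} {k : Fin s} {n N m : ℕ}
    (hjets : ∀ p : MvPolynomial (Fin 2) K, ∃ f ∈ Sp P w d k (n + 1) 0,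
      tau (P k) f - p ∈ Id K (N + 1))
    {G H : MvPolynomial (Fin 3) K} (hG : Irreducible G) (hm : 1 ≤ m)
    (hGm : tau (P k) G ∈ Id K m) (hH : H ∈ Sp P w d k 1 (m - 1)) (hHG : ¬ G ∣ H)
    (A : Submodule K (MvPolynomial (Fin 3) K)) [Module.Finite K ↥A] (hA : A ≤ Sp P w d k n 0)
    (hAG : ∀ f ∈ A, G ∣ f → f = 0) :
    ∃ A' : Submodule K (MvPolynomial (Fin 3) K), A' ≤ Sp P w d k (n + 1) 0 ∧
      Module.Finite K ↥A' ∧ (∀ f ∈ A', G ∣ f → f = 0) ∧
      Module.finrank K ↥A + (N + 2).choose 2 ≤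
        Module.finrank K ↥A' + ((N + 2 - m).choose 2 + (N + 3 - m).choose 2) := by
  classical
  have hfin : Module.Finite K (Quo K (N + 1)) := quo_finite _
  obtain ⟨I, hI1, hI2⟩ := quo_two (N := N) hGm (sp_tau hH) hm
  let π : MvPolynomial (Fin 2) K →ₗ[K] Quo K (N + 1) :=
    (Ideal.Quotient.mkₐ K (Id K (N + 1))).toLinearMap
  let Φ : ↥(Sp P w d k (n + 1) 0) →ₗ[K] Quo K (N + 1) ⧸ I :=
    (I.mkQ.comp (π.comp (tau (P k)).toLinearMap)).comp (Sp P w d k (n + 1) 0).subtype
  have hΦ : Function.Surjective Φ := by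
    intro y
    obtain ⟨z, rfl⟩ := I.mkQ_surjective y
    obtain ⟨p, rfl⟩ := Ideal.Quotient.mk_surjective z
    obtain ⟨f, hf1, hf2⟩ := hjets p
    refine ⟨⟨f, hf1⟩, ?_⟩
    show I.mkQ (Ideal.Quotient.mk (Id K (N + 1)) (tau (P k) f)) =
      I.mkQ (Ideal.Quotient.mk (Id K (N + 1)) p)
    rw [Ideal.Quotient.eq.2 hf2]
  obtain ⟨σ, hσ⟩ := Φ.exists_rightInverse_of_surjective (LinearMap.range_eq_top.2 hΦ)
  have hmulH : ∀ a ∈ A, H * a ∈ Sp P w d k (n + 1) 0 := by
    intro a ha
    have h1 := sp_mul hH (hA ha)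
    rw [add_comm 1 n] at h1
    exact sp_mono (Nat.zero_le _) h1
  let Θ : (↥A × (Quo K (N + 1) ⧸ I)) →ₗ[K] MvPolynomial (Fin 3) K :=
    LinearMap.coprod ((LinearMap.mulLeft K H).comp A.subtype)
      ((Sp P w d k (n + 1) 0).subtype.comp σ)
  have hΘ : ∀ x, Θ x = H * x.1.1 + (σ x.2).1 := fun x => rfl
  have key : ∀ x, G ∣ Θ x → x = 0 := by
    rintro ⟨a, c⟩ hdvd
    rw [hΘ] at hdvd
    have h1 : c = 0 := by
      obtain ⟨q, hq⟩ := hdvd
      have h2 := congrArg (tau (P k)) hq
      rw [map_add, map_mul, map_mul] at h2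
      have h3 : tau (P k) (σ c).1 = tau (P k) G * tau (P k) q + tau (P k) H * (-tau (P k) a.1) := by
        linear_combination h2
      have h4 : Φ (σ c) = 0 := by
        show I.mkQ (Ideal.Quotient.mk (Id K (N + 1)) (tau (P k) (σ c).1)) = 0
        rw [h3]
        exact (Submodule.Quotient.mk_eq_zero I).2 (hI1 _ _)
      have h5 : Φ (σ c) = c := LinearMap.congr_fun hσ c
      rw [← h5, h4]
    have h2 : a = 0 := by
      rw [h1, map_zero] at hdvd
      have h3 : G ∣ H * a.1 := by
        have e : H * a.1 + ((0 : ↥(Sp P w d k (n + 1) 0)) : MvPolynomial (Fin 3) K) = H * a.1 := by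
          rw [Submodule.coe_zero, add_zero]
        rw [← e]
        exact hdvd
      rcases hG.prime.dvd_or_dvd h3 with h4 | h4
      · exact absurd h4 hHG
      · exact Subtype.ext (hAG a.1 a.2 h4)
    rw [h1, h2]
    rfl
  have hinj : Function.Injective Θ := by
    rw [← LinearMap.ker_eq_bot, LinearMap.ker_eq_bot']
    intro x hx
    exact key x (by rw [hx]; exact dvd_zero _)
  refine ⟨LinearMap.range Θ, ?_, inferInstance, ?_, ?_⟩
  · rintro _ ⟨x, rfl⟩
    rw [hΘ]
    exact Submodule.add_mem _ (hmulH _ x.1.2) (σ x.2).2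
  · rintro _ ⟨x, rfl⟩ hdvd
    rw [key x hdvd, map_zero]
  · rw [LinearMap.finrank_range_of_inj hinj, Module.finrank_prod]
    have h1 := Submodule.finrank_quotient_add_finrank I
    have h2 : Module.finrank K (Quo K (N + 1)) = (N + 1 + 1).choose 2 := finrank_quo _
    have e : N + 1 + 1 = N + 2 := rfl
    rw [e] at h2
    omega

/-- The gain of one step. -/
def gn (m N : ℕ) : ℤ :=
  ((N + 2).choose 2 : ℤ) - (((N + 2 - m).choose 2 : ℕ) + ((N + 3 - m).choose 2 : ℕ) : ℤ)

/-- The growth. -/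
theorem grow_sum {P : Fin s → Fin 2 → K} {w : Fin s → ℕ} {d : ℕ} {k : Fin s} {m : ℕ}
    {G H : MvPolynomial (Fin 3) K} (hG : Irreducible G) (hm : 1 ≤ m)
    (hGm : tau (P k) G ∈ Id K m) (hH : H ∈ Sp P w d k 1 (m - 1)) (hHG : ¬ G ∣ H) (N : ℕ → ℕ) :
    ∀ n : ℕ, (∀ i, i < n → ∀ c ≤ N i, ∀ p : MvPolynomial (Fin 2) K, p.IsHomogeneous c →
        p ∈ Ld P w d k (i + 1) c) →
      ∃ A : Submodule K (MvPolynomial (Fin 3) K), A ≤ Sp P w d k n 0 ∧
        Module.Finite K ↥A ∧ (∀ f ∈ A, G ∣ f → f = 0) ∧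
        1 + ∑ i ∈ Finset.range n, gn m (N i) ≤ (Module.finrank K ↥A : ℤ) := by
  classical
  intro n
  induction n with
  | zero =>
    intro _
    have h1 : (1 : MvPolynomial (Fin 3) K) ∈ Sp P w d k 0 0 := by
      rw [mem_sp]
      refine ⟨?_, fun j _ => ?_, van_zero _ _⟩
      · rw [zero_mul]
        exact isHomogeneous_one _ _
      · rw [zero_mul]
        exact van_zero _ _
    refine ⟨Submodule.span K {1}, ?_, inferInstance, ?_, ?_⟩
    · rw [Submodule.span_singleton_le_iff_mem]
      exact h1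
    · intro f hf hdvd
      obtain ⟨c, rfl⟩ := Submodule.mem_span_singleton.1 hf
      by_contra hne
      have hc : c ≠ 0 := by
        rintro rfl
        rw [zero_smul] at hne
        exact hne rfl
      have hu : IsUnit (c • (1 : MvPolynomial (Fin 3) K)) := by
        rw [smul_eq_C_mul, mul_one]
        exact (isUnit_iff_ne_zero.2 hc).map C
      exact hG.not_isUnit (isUnit_of_dvd_unit hdvd hu)
    · rw [finrank_span_singleton one_ne_zero]
      simp
  | succ n ih =>
    intro h
    obtain ⟨A, hA1, hA2, hA3, hA4⟩ := ih fun i hi => h i (by omega)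
    obtain ⟨A', hA1', hA2', hA3', hA4'⟩ := grow_one (N := N n) (m := m)
      (jets (h n (by omega))) hG hm hGm hH hHG A hA1 hA3
    refine ⟨A', hA1', hA2', hA3', ?_⟩
    rw [Finset.sum_range_succ]
    unfold gn
    have h5 : ((Module.finrank K ↥A + (N n + 2).choose 2 : ℕ) : ℤ) ≤
      ((Module.finrank K ↥A' + ((N n + 2 - m).choose 2 + (N n + 3 - m).choose 2) : ℕ) : ℤ) := by
      exact_mod_cast hA4'
    push_cast at h5
    unfold gn at hA4
    linarith

end Pool.Agent.J4H49
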