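import Pool.Agent.J4H49.Loc
import Pool.Agent.TH167.CL.Grow

set_option autoImplicit false

/-!
# The spaces of leading forms at one of the points
-/

namespace Pool.Agent.J4H49

open MvPolynomial Pool.Agent.W609 Pool.Agent.W609.CR Pool.Agent.TH167.SH Pool.Agent.TH167.TT
  Pool.Agent.TH167.CL Pool.Agent.H248R5 Pool.Agent.H248R6

variable {K : Type} [Field K] {s : ℕ}

/-- The forms of degree `n d` with multiplicity at least `n w j` at `P j`, `j ≠ k`, and at
least `c` at `P k`. -/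
noncomputable def Sp (P : Fin s → Fin 2 → K) (w : Fin s → ℕ) (d : ℕ) (k : Fin s) (n c : ℕ) :
    Submodule K (MvPolynomial (Fin 3) K) :=
  VS (fun j => aff (P j)) (Function.update (fun j => n * w j) k c) (n * d)

theorem sp_fin (P : Fin s → Fin 2 → K) (w : Fin s → ℕ) (d : ℕ) (k : Fin s) (n c : ℕ) :
    Module.Finite K ↥(Sp P w d k n c) := vs_fin _ _ _

theorem mem_sp {P : Fin s → Fin 2 → K} {w : Fin s → ℕ} {d : ℕ} {k : Fin s} {n c : ℕ}
    {f : MvPolynomial (Fin 3) K} : f ∈ Sp P w d k n c ↔ f.IsHomogeneous (n * d) ∧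
      (∀ j, j ≠ k → Van (aff (P j)) (n * w j) f) ∧ Van (aff (P k)) c f := by
  unfold Sp
  rw [mem_VS]
  constructor
  · rintro ⟨h1, h2⟩
    refine ⟨h1, fun j hj => ?_, ?_⟩
    · have := h2 j
      rwa [Function.update_of_ne hj] at this
    · have := h2 k
      rwa [Function.update_self] at this
  · rintro ⟨h1, h2, h3⟩
    refine ⟨h1, fun j => ?_⟩
    by_cases hj : j = k
    · rw [hj, Function.update_self]
      exact h3
    · rw [Function.update_of_ne hj]
      exact h2 j hj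

theorem sp_mul {P : Fin s → Fin 2 → K} {w : Fin s → ℕ} {d : ℕ} {k : Fin s} {n c n' c' : ℕ}
    {f g : MvPolynomial (Fin 3) K} (hf : f ∈ Sp P w d k n c) (hg : g ∈ Sp P w d k n' c') :
    f * g ∈ Sp P w d k (n + n') (c + c') := by
  rw [mem_sp] at hf hg ⊢
  refine ⟨?_, fun j hj => ?_, van_mul hf.2.2 hg.2.2⟩
  · rw [add_mul]
    exact hf.1.mul hg.1
  · rw [add_mul]
    exact van_mul (hf.2.1 j hj) (hg.2.1 j hj)

theorem sp_mono {P : Fin s → Fin 2 → K} {w : Fin s → ℕ} {d : ℕ} {k : Fin s} {n c c' : ℕ}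
    (h : c' ≤ c) {f : MvPolynomial (Fin 3) K} (hf : f ∈ Sp P w d k n c) :
    f ∈ Sp P w d k n c' := by
  rw [mem_sp] at hf ⊢
  exact ⟨hf.1, hf.2.1, van_mono h hf.2.2⟩

theorem sp_tau {P : Fin s → Fin 2 → K} {w : Fin s → ℕ} {d : ℕ} {k : Fin s} {n c : ℕ}
    {f : MvPolynomial (Fin 3) K} (hf : f ∈ Sp P w d k n c) : tau (P k) f ∈ Id K c := by
  rw [mem_sp] at hf
  exact (van_tau hf.1).1 hf.2.2

/-- The leading forms. -/
noncomputable def Ld (P : Fin s → Fin 2 → K) (w : Fin s → ℕ) (d : ℕ) (k : Fin s) (n c : ℕ) :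
    Submodule K (MvPolynomial (Fin 2) K) :=
  (Sp P w d k n c).map (lam c (P k))

theorem mem_ld {P : Fin s → Fin 2 → K} {w : Fin s → ℕ} {d : ℕ} {k : Fin s} {n c : ℕ}
    {p : MvPolynomial (Fin 2) K} : p ∈ Ld P w d k n c ↔
      ∃ f ∈ Sp P w d k n c, homogeneousComponent c (tau (P k) f) = p := Iff.rfl

theorem ld_mul {P : Fin s → Fin 2 → K} {w : Fin s → ℕ} {d : ℕ} {k : Fin s} {n c n' c' : ℕ}
    {p q : MvPolynomial (Fin 2) K} (hp : p ∈ Ld P w d k n c) (hq : q ∈ Ld P w d k n' c') :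
    p * q ∈ Ld P w d k (n + n') (c + c') := by
  rw [mem_ld] at hp hq ⊢
  obtain ⟨f, hf, rfl⟩ := hp
  obtain ⟨g, hg, rfl⟩ := hq
  refine ⟨f * g, sp_mul hf hg, ?_⟩
  rw [map_mul, hc_mul (sp_tau hf) (sp_tau hg)]

theorem ld_hom {P : Fin s → Fin 2 → K} {w : Fin s → ℕ} {d : ℕ} {k : Fin s} {n c : ℕ}
    {p : MvPolynomial (Fin 2) K} (hp : p ∈ Ld P w d k n c) : p.IsHomogeneous c := by
  rw [mem_ld] at hp
  obtain ⟨f, -, rfl⟩ := hp
  exact homogeneousComponent_isHomogeneous _ _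

theorem ld_zero (P : Fin s → Fin 2 → K) (w : Fin s → ℕ) (d : ℕ) (k : Fin s) :
    (1 : MvPolynomial (Fin 2) K) ∈ Ld P w d k 0 0 := by
  rw [mem_ld]
  refine ⟨1, ?_, ?_⟩
  · rw [mem_sp]
    refine ⟨?_, fun j _ => ?_, van_zero _ _⟩
    · rw [zero_mul]
      exact isHomogeneous_one _ _
    · rw [zero_mul]
      exact van_zero _ _
  · rw [map_one]
    exact homogeneousComponent_of_mem (isHomogeneous_one _ _) |>.trans (if_pos rfl)

/-- Moving the point `P k`: the leading forms are closed under derivatives. -/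
theorem ld_der [CharZero K] {P : Fin s → Fin 2 → K}
    (hP : AlgebraicIndependent ℚ (fun ij : Fin s × Fin 2 => P ij.1 ij.2))
    {w : Fin s → ℕ} {d : ℕ} {k : Fin s} {n c : ℕ}
    {p : MvPolynomial (Fin 2) K} (hp : p ∈ Ld P w d k n (c + 1)) (a : Fin 2) :
    pderiv a p ∈ Ld P w d k n c := by
  classical
  rw [mem_ld] at hp
  obtain ⟨f, hf, rfl⟩ := hp
  obtain ⟨D, hD⟩ := exists_D hP
  obtain ⟨k1, k2⟩ := move (w := Function.update (fun j => n * w j) k (c + 1)) (P := P)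
    (d := n * d) (k := k) (m := c) (Function.update_self _ _ _) (a := a) (D (k, a))
    (fun i b => hD (k, a) i b) (mem_forms_VS.1 hf)
  rw [← mem_forms_VS, Function.update_idem] at k1
  have h1 : -pderiv a (homogeneousComponent (c + 1) (tau (P k) f)) ∈ Ld P w d k n c :=
    ⟨_, k1, k2⟩
  have h2 := Submodule.neg_mem _ h1
  rwa [neg_neg] at h2

/-- All jets are attained. -/
theorem jets {P : Fin s → Fin 2 → K} {w : Fin s → ℕ} {d : ℕ} {k : Fin s} {n N : ℕ}
    (h : ∀ c ≤ N, ∀ p : MvPolynomial (Fin 2) K, p.IsHomogeneous c → p ∈ Ld P w d k n c)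
    (p : MvPolynomial (Fin 2) K) : ∃ f ∈ Sp P w d k n 0, tau (P k) f - p ∈ Id K (N + 1) := by
  have key : ∀ N', N' ≤ N + 1 → ∃ f ∈ Sp P w d k n 0, tau (P k) f - p ∈ Id K N' := by
    intro N'
    induction N' with
    | zero =>
      intro _
      refine ⟨0, Submodule.zero_mem _, ?_⟩
      rw [Id, pow_zero, Ideal.one_eq_top]
      exact Submodule.mem_top
    | succ N' ih =>
      intro hN'
      obtain ⟨f, hf1, hf2⟩ := ih (by omega)
      obtain ⟨g, hg1, hg2⟩ := mem_ld.1 (h N' (by omega)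
        (-homogeneousComponent N' (tau (P k) f - p))
        ((homogeneousComponent_isHomogeneous N' _).neg))
      refine ⟨f + g, Submodule.add_mem _ hf1 (sp_mono (Nat.zero_le _) hg1), ?_⟩
      have e : tau (P k) (f + g) - p = (tau (P k) f - p) + tau (P k) g := by
        rw [map_add]
        ring
      rw [e]
      refine mem_succ (Ideal.add_mem _ hf2 (sp_tau hg1)) ?_
      rw [map_add, hg2, add_neg_cancel]
  exact key (N + 1) le_rfl

/-- A form in the first space. -/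
theorem mem_sp_one {P : Fin s → Fin 2 → K} {w : Fin s → ℕ} {d : ℕ} {k : Fin s} {c : ℕ}
    {f : MvPolynomial (Fin 3) K} :
    f ∈ Sp P w d k 1 c ↔ f ∈ VS (fun j => aff (P j)) (Function.update w k c) d := by
  unfold Sp
  simp only [one_mul]

end Pool.Agent.J4H49
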