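import Pool.Agent.J4H49.Dich

set_option autoImplicit false

/-!
# Linear changes of the two variables
-/

namespace Pool.Agent.J4H49

open MvPolynomial Pool.Agent.TH167.CL Pool.Agent.H248R5 Pool.Agent.H248R6

variable {K : Type} [Field K]

/-- The linear change of variables `X i ↦ A i 0 X 0 + A i 1 X 1`. -/
noncomputable def lt (A : Matrix (Fin 2) (Fin 2) K) :
    MvPolynomial (Fin 2) K →ₐ[K] MvPolynomial (Fin 2) K :=
  aeval (fun i => C (A i 0) * X 0 + C (A i 1) * X 1)

theorem lt_X (A : Matrix (Fin 2) (Fin 2) K) (i : Fin 2) :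
    lt A (X i) = C (A i 0) * X 0 + C (A i 1) * X 1 := by
  unfold lt
  rw [aeval_X]

theorem lt_C (A : Matrix (Fin 2) (Fin 2) K) (c : K) : lt A (C c) = C c := (lt A).commutes c

theorem lt_lt (A B : Matrix (Fin 2) (Fin 2) K) (p : MvPolynomial (Fin 2) K) :
    lt A (lt B p) = lt (B * A) p := by
  have h : (lt A).comp (lt B) = lt (B * A) := by
    refine MvPolynomial.algHom_ext fun i => ?_
    rw [AlgHom.comp_apply, lt_X, lt_X, map_add, map_mul, map_mul, lt_C, lt_C, lt_X, lt_X,
      Matrix.mul_apply, Matrix.mul_apply, Fin.sum_univ_two, Fin.sum_univ_two]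
    simp only [map_add, map_mul]
    ring
  exact AlgHom.congr_fun h p

theorem lt_one (p : MvPolynomial (Fin 2) K) : lt (1 : Matrix (Fin 2) (Fin 2) K) p = p := by
  have h : lt (1 : Matrix (Fin 2) (Fin 2) K) = AlgHom.id K _ := by
    refine MvPolynomial.algHom_ext fun i => ?_
    rw [lt_X, AlgHom.id_apply, Matrix.one_apply, Matrix.one_apply]
    fin_cases i <;> simp
  rw [h]
  rfl

theorem lt_inv {A : Matrix (Fin 2) (Fin 2) K} (hA : A.det ≠ 0) (p : MvPolynomial (Fin 2) K) :
    lt A⁻¹ (lt A p) = p := by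
  rw [lt_lt, Matrix.mul_nonsing_inv _ (isUnit_iff_ne_zero.2 hA), lt_one]

theorem lt_inv' {A : Matrix (Fin 2) (Fin 2) K} (hA : A.det ≠ 0) (p : MvPolynomial (Fin 2) K) :
    lt A (lt A⁻¹ p) = p := by
  rw [lt_lt, Matrix.nonsing_inv_mul _ (isUnit_iff_ne_zero.2 hA), lt_one]

theorem lt_ne {A : Matrix (Fin 2) (Fin 2) K} (hA : A.det ≠ 0) {p : MvPolynomial (Fin 2) K}
    (hp : p ≠ 0) : lt A p ≠ 0 := by
  intro h
  apply hp
  rw [← lt_inv hA p, h, map_zero]

theorem lt_hom (A : Matrix (Fin 2) (Fin 2) K) {p : MvPolynomial (Fin 2) K} {c : ℕ}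
    (hp : p.IsHomogeneous c) : (lt A p).IsHomogeneous c := by
  have h := hp.aeval (R := K) (fun i => (C (A i 0) * X 0 + C (A i 1) * X 1 :
    MvPolynomial (Fin 2) K)) (n := 1) (fun i =>
    (IsHomogeneous.C_mul (isHomogeneous_X _ _) _).add
      (IsHomogeneous.C_mul (isHomogeneous_X _ _) _))
  rw [one_mul] at h
  exact h

theorem lt_hc (A : Matrix (Fin 2) (Fin 2) K) (p : MvPolynomial (Fin 2) K) (c : ℕ) :
    homogeneousComponent c (lt A p) = lt A (homogeneousComponent c p) := by
  conv_lhs => rw [← sum_homogeneousComponent p, map_sum, map_sum]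
  rcases Nat.lt_or_ge p.totalDegree c with h | h
  · rw [homogeneousComponent_eq_zero c p h, map_zero]
    refine Finset.sum_eq_zero fun i hi => ?_
    rw [Finset.mem_range] at hi
    rw [homogeneousComponent_of_mem (lt_hom A (homogeneousComponent_isHomogeneous i p)),
      if_neg (by omega)]
  · rw [Finset.sum_eq_single c]
    · rw [homogeneousComponent_of_mem (lt_hom A (homogeneousComponent_isHomogeneous c p)),
        if_pos rfl]
    · intro i _ hi
      rw [homogeneousComponent_of_mem (lt_hom A (homogeneousComponent_isHomogeneous i p)),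
        if_neg (fun h => hi h.symm)]
    · intro h1
      rw [Finset.mem_range] at h1
      omega

theorem lt_id (A : Matrix (Fin 2) (Fin 2) K) {p : MvPolynomial (Fin 2) K} {c : ℕ}
    (hp : p ∈ Id K c) : lt A p ∈ Id K c := by
  rw [mem_id]
  intro x hx
  have h1 := lt_hc A p x.degree
  have h2 : homogeneousComponent x.degree p = 0 := by
    apply hc_of_mem
    exact id_mono hx hp
  rw [h2, map_zero] at h1
  have h3 := congrArg (coeff x) h1
  rw [coeff_homogeneousComponent, if_pos rfl, coeff_zero] at h3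
  exact h3

/-- The chain rule. -/
theorem pd_lt (A : Matrix (Fin 2) (Fin 2) K) (j : Fin 2) (p : MvPolynomial (Fin 2) K) :
    pd j (lt A p) = lt A (dd' (fun i => A i j) p) := by
  rw [pd_apply, dd'_apply, map_add, map_smul, map_smul]
  induction p using MvPolynomial.induction_on with
  | C c =>
    rw [lt_C, pderiv_C, pderiv_C, pderiv_C, map_zero, smul_zero, smul_zero, add_zero]
  | add p q hp hq =>
    rw [map_add, map_add, hp, hq, map_add, map_add, map_add, map_add, smul_add, smul_add]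
    abel
  | mul_X p i hp =>
    rw [map_mul, pderiv_mul, hp, lt_X, pderiv_mul, pderiv_mul, map_add, map_add]
    simp only [pderiv_mul, pderiv_C, zero_mul, zero_add, map_add, map_mul, lt_X, smul_eq_C_mul]
    fin_cases i <;> fin_cases j <;>
    simp <;> ring

theorem pd_lt_pow (A : Matrix (Fin 2) (Fin 2) K) (j : Fin 2) (n : ℕ) :
    ∀ p : MvPolynomial (Fin 2) K, (pd j ^ n : Module.End K (MvPolynomial (Fin 2) K)) (lt A p) =
      lt A ((dd' (fun i => A i j) ^ n : Module.End K (MvPolynomial (Fin 2) K)) p) := by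
  induction n with
  | zero =>
    intro p
    rw [pow_zero, pow_zero, Module.End.one_apply, Module.End.one_apply]
  | succ n ih =>
    intro p
    rw [pow_succ, pow_succ, Module.End.mul_apply, Module.End.mul_apply, pd_lt, ih]

/-- The matrix with the columns `u` and `v`. -/
def mt (u v : Fin 2 → K) : Matrix (Fin 2) (Fin 2) K := !![u 0, v 0; u 1, v 1]

theorem mt_det (u v : Fin 2 → K) : (mt u v).det = u 0 * v 1 - u 1 * v 0 := by
  unfold mt
  rw [Matrix.det_fin_two]
  simp
  ring

theorem mt_zero (u v : Fin 2 → K) : (fun i => mt u v i 0) = u := by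
  funext i
  fin_cases i <;> rfl

theorem mt_one (u v : Fin 2 → K) : (fun i => mt u v i 1) = v := by
  funext i
  fin_cases i <;> rfl

/-- A form which is killed by a directional derivative is a power of a linear form. -/
theorem pure0 [CharZero K] {p : MvPolynomial (Fin 2) K} {c : ℕ} (hp : p.IsHomogeneous c)
    (h : pd 0 p = 0) : p = coeff (ex 0 c) p • X 1 ^ c := by
  refine ext_ex fun a b => ?_
  rw [coeff_smul, smul_eq_mul]
  have e : (X 1 ^ c : MvPolynomial (Fin 2) K) = X 0 ^ 0 * X 1 ^ c := by rw [pow_zero, one_mul]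
  rw [e, coeff_mono]
  rcases Nat.eq_zero_or_pos a with ha | ha
  · subst ha
    by_cases hb : c = b
    · subst hb
      rw [if_pos ⟨rfl, rfl⟩, mul_one]
    · rw [if_neg (fun h => hb h.2), mul_zero]
      rw [hom_iff] at hp
      exact hp 0 b (by omega)
  · obtain ⟨a', rfl⟩ : ∃ a', a = a' + 1 := ⟨a - 1, by omega⟩
    rw [if_neg (fun h => by omega), mul_zero]
    have h1 := congrArg (coeff (ex a' b)) h
    rw [coeff_pd0, coeff_zero] at h1
    exact (mul_eq_zero.1 h1).resolve_right (Nat.cast_add_one_ne_zero a')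

theorem pure1 [CharZero K] {p : MvPolynomial (Fin 2) K} {c : ℕ} (hp : p.IsHomogeneous c)
    (h : pd 1 p = 0) : p = coeff (ex c 0) p • X 0 ^ c := by
  refine ext_ex fun a b => ?_
  rw [coeff_smul, smul_eq_mul]
  have e : (X 0 ^ c : MvPolynomial (Fin 2) K) = X 0 ^ c * X 1 ^ 0 := by rw [pow_zero, mul_one]
  rw [e, coeff_mono]
  rcases Nat.eq_zero_or_pos b with hb | hb
  · subst hb
    by_cases ha : c = a
    · subst ha
      rw [if_pos ⟨rfl, rfl⟩, mul_one]
    · rw [if_neg (fun h => ha h.1), mul_zero]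
      rw [hom_iff] at hp
      exact hp a 0 (by omega)
  · obtain ⟨b', rfl⟩ : ∃ b', b = b' + 1 := ⟨b - 1, by omega⟩
    rw [if_neg (fun h => by omega), mul_zero]
    have h1 := congrArg (coeff (ex a b')) h
    rw [coeff_pd1, coeff_zero] at h1
    exact (mul_eq_zero.1 h1).resolve_right (Nat.cast_add_one_ne_zero b')

theorem pow_of_dd0 [CharZero K] {u v : Fin 2 → K} (hdet : u 0 * v 1 - u 1 * v 0 ≠ 0)
    {p : MvPolynomial (Fin 2) K} {c : ℕ} (hp : p.IsHomogeneous c) (h0 : p ≠ 0)
    (h : dd' u p = 0) : ∃ a : K, a ≠ 0 ∧ p = a • (lt (mt u v)⁻¹ (X 1)) ^ c := by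
  have hA : (mt u v).det ≠ 0 := by rw [mt_det]; exact hdet
  have h1 : pd 0 (lt (mt u v) p) = 0 := by
    rw [pd_lt, mt_zero, h, map_zero]
  have h2 := pure0 (lt_hom (mt u v) hp) h1
  have h3 := congrArg (lt (mt u v)⁻¹) h2
  rw [lt_inv hA, map_smul, map_pow] at h3
  refine ⟨_, ?_, h3⟩
  intro h4
  rw [h4, zero_smul] at h3
  exact h0 h3

theorem pow_of_dd1 [CharZero K] {u v : Fin 2 → K} (hdet : u 0 * v 1 - u 1 * v 0 ≠ 0)
    {p : MvPolynomial (Fin 2) K} {c : ℕ} (hp : p.IsHomogeneous c) (h0 : p ≠ 0)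
    (h : dd' v p = 0) : ∃ a : K, a ≠ 0 ∧ p = a • (lt (mt u v)⁻¹ (X 0)) ^ c := by
  have hA : (mt u v).det ≠ 0 := by rw [mt_det]; exact hdet
  have h1 : pd 1 (lt (mt u v) p) = 0 := by
    rw [pd_lt, mt_one, h, map_zero]
  have h2 := pure1 (lt_hom (mt u v) hp) h1
  have h3 := congrArg (lt (mt u v)⁻¹) h2
  rw [lt_inv hA, map_smul, map_pow] at h3
  refine ⟨_, ?_, h3⟩
  intro h4
  rw [h4, zero_smul] at h3
  exact h0 h3

/-- The powers of a linear form in a family of spaces which is closed under derivatives. -/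
theorem pow_down [CharZero K] {S : ℕ → Submodule K (MvPolynomial (Fin 2) K)}
    (hS : ∀ c p, p ∈ S (c + 1) → ∀ a, pderiv a p ∈ S c) {A : Matrix (Fin 2) (Fin 2) K}
    (hA : A.det ≠ 0) (j : Fin 2) {M : ℕ} (hM : lt A (X j) ^ M ∈ S M) :
    ∀ c ≤ M, lt A (X j) ^ c ∈ S c := by
  -- a nonzero derivative
  obtain ⟨a, ha⟩ : ∃ a, A j a ≠ 0 := by
    by_contra hcon
    push Not at hcon
    apply hA
    rw [Matrix.det_fin_two]
    have h0 := hcon 0
    have h1 := hcon 1
    fin_cases j
    · simp only [Fin.zero_eta] at h0 h1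
      rw [h0, h1]
      ring
    · simp only [Fin.mk_one] at h0 h1
      rw [h0, h1]
      ring
  have hd : pderiv a (lt A (X j)) = C (A j a) := by
    rw [lt_X]
    fin_cases a <;> simp
  have key : ∀ t c, c + t = M → lt A (X j) ^ c ∈ S c := by
    intro t
    induction t with
    | zero =>
      intro c hc
      have : c = M := by omega
      rw [this]
      exact hM
    | succ t ih =>
      intro c hc
      have h1 := hS c _ (ih (c + 1) (by omega)) a
      rw [pderiv_pow, hd, Nat.add_sub_cancel] at h1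
      have h2 : ((c + 1 : ℕ) : MvPolynomial (Fin 2) K) * lt A (X j) ^ c * C (A j a) =
          (((c + 1 : ℕ) : K) * A j a) • lt A (X j) ^ c := by
        rw [smul_eq_C_mul, C_mul, ← map_natCast (C : K →+* MvPolynomial (Fin 2) K)]
        ring
      rw [h2] at h1
      have h3 : (((c + 1 : ℕ) : K) * A j a) ≠ 0 :=
        mul_ne_zero (Nat.cast_ne_zero.2 (Nat.succ_ne_zero c)) ha
      have h4 := Submodule.smul_mem _ (((c + 1 : ℕ) : K) * A j a)⁻¹ h1
      rwa [smul_smul, inv_mul_cancel₀ h3, one_smul] at h4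
  intro c hc
  exact key (M - c) c (by omega)

end Pool.Agent.J4H49
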