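import Pool.Agent.H248R6.Dim
import Pool.Agent.H248R6.Coef

set_option autoImplicit false

/-!
# Local algebra at the origin of the plane
-/

namespace Pool.Agent.J4H49

open MvPolynomial Pool.Agent.H248R5 Pool.Agent.H248R6

/-- The power of the maximal ideal of the origin. -/
noncomputable abbrev Id (K : Type) [Field K] (c : ℕ) : Ideal (MvPolynomial (Fin 2) K) :=
  (idealOfVars (Fin 2) K) ^ c

theorem mem_id {K : Type} [Field K] {c : ℕ} {p : MvPolynomial (Fin 2) K} :
    p ∈ Id K c ↔ ∀ x : Fin 2 →₀ ℕ, x.degree < c → coeff x p = 0 :=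
  mem_pow_idealOfVars_iff' _ _

theorem id_mono {K : Type} [Field K] {a b : ℕ} (h : a ≤ b) {p : MvPolynomial (Fin 2) K}
    (hp : p ∈ Id K b) : p ∈ Id K a := Ideal.pow_le_pow_right h hp

theorem id_mul {K : Type} [Field K] {a b : ℕ} {p q : MvPolynomial (Fin 2) K}
    (hp : p ∈ Id K a) (hq : q ∈ Id K b) : p * q ∈ Id K (a + b) := by
  rw [Id, pow_add]
  exact Ideal.mul_mem_mul hp hq

theorem hom_id {K : Type} [Field K] {c : ℕ} {p : MvPolynomial (Fin 2) K} (h : p.IsHomogeneous c) :
    p ∈ Id K c := by
  rw [mem_id]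
  intro x hx
  by_contra hne
  have := h hne
  rw [Finsupp.degree_eq_weight_one] at hx
  exact absurd this (ne_of_lt hx)

theorem hc_mul {K : Type} [Field K] {p q : MvPolynomial (Fin 2) K} {a b : ℕ}
    (hp : p ∈ Id K a) (hq : q ∈ Id K b) :
    homogeneousComponent (a + b) (p * q) =
      homogeneousComponent a p * homogeneousComponent b q := by
  classical
  rw [mem_id] at hp hq
  ext t
  rw [coeff_homogeneousComponent]
  split_ifs with ht
  · rw [coeff_mul, coeff_mul]
    refine Finset.sum_congr rfl fun x hx => ?_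
    rw [Finset.HasAntidiagonal.mem_antidiagonal] at hx
    have hd : x.1.degree + x.2.degree = a + b := by rw [← map_add, hx, ht]
    rw [coeff_homogeneousComponent, coeff_homogeneousComponent]
    rcases lt_trichotomy x.1.degree a with h | h | h
    · rw [hp _ h, zero_mul, if_neg (ne_of_lt h), zero_mul]
    · rw [if_pos h, if_pos (by omega)]
    · rw [hq x.2 (by omega), mul_zero, if_neg (ne_of_gt h), zero_mul]
  · have h1 : (homogeneousComponent a p * homogeneousComponent b q).IsHomogeneous (a + b) :=
      (homogeneousComponent_isHomogeneous a p).mul (homogeneousComponent_isHomogeneous b q)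
    by_contra hne
    have := h1 (Ne.symm hne)
    apply ht
    rw [Finsupp.degree_eq_weight_one]
    exact this

theorem mem_succ {K : Type} [Field K] {p : MvPolynomial (Fin 2) K} {c : ℕ} (hp : p ∈ Id K c)
    (h : homogeneousComponent c p = 0) : p ∈ Id K (c + 1) := by
  rw [mem_id] at hp ⊢
  intro x hx
  rcases Nat.lt_or_ge x.degree c with h1 | h1
  · exact hp x h1
  · have h2 := congrArg (coeff x) h
    rw [coeff_homogeneousComponent, if_pos (by omega), coeff_zero] at h2
    exact h2

theorem hc_of_mem {K : Type} [Field K] {p : MvPolynomial (Fin 2) K} {c : ℕ}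
    (hp : p ∈ Id K (c + 1)) : homogeneousComponent c p = 0 := by
  rw [mem_id] at hp
  ext x
  rw [coeff_homogeneousComponent, coeff_zero]
  split_ifs with h
  · exact hp x (by omega)
  · rfl

/-- The rank of a linear map which kills a power of the maximal ideal. -/
theorem rank_le {K V : Type} [Field K] [AddCommGroup V] [Module K V] {c : ℕ}
    (f : MvPolynomial (Fin 2) K →ₗ[K] V) (hf : ∀ p ∈ Id K c, f p = 0) :
    Module.finrank K ↥(LinearMap.range f) ≤ (c + 1).choose 2 := by
  have hfin : Module.Finite K (Quo K c) := quo_finite c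
  let π : MvPolynomial (Fin 2) K →ₗ[K] Quo K c := (Ideal.Quotient.mkₐ K (Id K c)).toLinearMap
  have hπ : Function.Surjective π := Ideal.Quotient.mk_surjective
  obtain ⟨σ, hσ⟩ := π.exists_rightInverse_of_surjective (LinearMap.range_eq_top.2 hπ)
  have h1 : LinearMap.range f ≤ LinearMap.range (f.comp σ) := by
    rintro _ ⟨x, rfl⟩
    refine ⟨π x, ?_⟩
    have h2 : π (σ (π x)) = π x := LinearMap.congr_fun hσ (π x)
    have h3 : σ (π x) - x ∈ Id K c := by
      apply Ideal.Quotient.eq.1
      exact h2
    have h4 := hf _ h3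
    rw [map_sub, sub_eq_zero] at h4
    exact h4
  have h2 : Module.finrank K ↥(LinearMap.range (f.comp σ)) ≤ Module.finrank K (Quo K c) :=
    LinearMap.finrank_range_le _
  rw [finrank_quo] at h2
  exact (Submodule.finrank_mono h1).trans h2

/-- A form is a combination of monomials of its degree. -/
theorem hom_induct {K : Type} [Field K] {c : ℕ} (S : Submodule K (MvPolynomial (Fin 2) K))
    (h : ∀ a b, a + b = c → (X 0 ^ a * X 1 ^ b : MvPolynomial (Fin 2) K) ∈ S)
    {p : MvPolynomial (Fin 2) K} (hp : p.IsHomogeneous c) : p ∈ S := by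
  classical
  rw [p.as_sum]
  refine Submodule.sum_mem _ fun x hx => ?_
  have h1 : x 0 + x 1 = c := by
    have h2 := hp (mem_support_iff.1 hx)
    have h3 : x.degree = c := by
      rw [Finsupp.degree_eq_weight_one]
      exact h2
    rw [Finsupp.degree_eq_sum, Fin.sum_univ_two] at h3
    exact h3
  have h2 : monomial x (coeff x p) = coeff x p • (X 0 ^ (x 0) * X 1 ^ (x 1)) := by
    rw [monomial_eq, Finsupp.prod_fintype _ _ (fun i => pow_zero _), Fin.prod_univ_two,
      smul_eq_C_mul]
  rw [h2]
  exact Submodule.smul_mem _ _ (h _ _ h1)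

end Pool.Agent.J4H49
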