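import Pool.Agent.J4H49.CaseC

set_option autoImplicit false

/-!
# The arithmetic genus of a negative curve is bounded by its multiplicities
-/

namespace Pool.Agent.J4H49

open MvPolynomial Pool.Agent.W609 Pool.Agent.W609.CR Pool.Agent.TH167.SH Pool.Agent.TH167.TT
  Pool.Agent.TH167.CL Pool.Agent.TH167.T3 Pool.Agent.H248R5 Pool.Agent.H248R6

theorem Cv.main {K : Type} [Field K] [CharZero K] [IsAlgClosed K] {s : ℕ}
    {P : Fin s → Fin 2 → K} {w : Fin s → ℕ} {d : ℕ} {k : Fin s} {G : MvPolynomial (Fin 3) K}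
    (h : Cv P w d k G) :
    ((d : ℤ) ^ 2 - 3 * d - ∑ i, (w i : ℤ) ^ 2 + ∑ i, (w i : ℤ)) + 2 ≤ 11 * (w k : ℤ) ^ 2 := by
  rcases h.split with h1 | ⟨ε, h1, h2, h3, u, h4, h5, h6⟩
  · exact h1
  · exact h.caseC h1 h2 h3 h4 h5 h6

/-- The bound for the arithmetic genus: `K C + C ^ 2 + 2 ≤ 11 m ^ 2`. -/
theorem genus {K : Type} [Field K] [CharZero K] [IsAlgClosed K] {s : ℕ}
    {P : Fin s → Fin 2 → K} (hP : AlgebraicIndependent ℚ (fun ij : Fin s × Fin 2 => P ij.1 ij.2))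
    {w : Fin s → ℕ} {d : ℕ} {G : MvPolynomial (Fin 3) K} (hG : Irreducible G)
    (hGe : G.IsHomogeneous d) (hord : ∀ j, Ord (aff (P j)) (w j) G) (hneg : ip d w d w < 0)
    {k : Fin s} (hk : 2 ≤ w k) : ip d w d w - kk d w + 2 ≤ 11 * (w k : ℤ) ^ 2 := by
  obtain ⟨μ, hμ⟩ := MvPolynomial.ne_zero_iff.1 hG.ne_zero
  have hu : IsUnit (C (coeff μ G)⁻¹ : MvPolynomial (Fin 3) K) :=
    (isUnit_iff_ne_zero.2 (inv_ne_zero hμ)).map C
  have hcv : Cv P w d k (C (coeff μ G)⁻¹ * G) := by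
    refine ⟨hP, ?_, ?_, fun j => ⟨?_, fun h => (hord j).2 ?_⟩, hneg, hk, μ, ?_⟩
    · obtain ⟨v, hv⟩ := hu
      rw [← hv]
      exact (irreducible_units_mul v).2 hG
    · exact IsHomogeneous.C_mul hGe _
    · exact Ideal.mul_mem_left _ _ (hord j).1
    · exact (Ideal.unit_mul_mem_iff_mem _ hu).1 h
    · rw [coeff_C_mul, inv_mul_cancel₀ hμ]
  have h1 := hcv.main
  have e1 : ip d w d w - kk d w =
      (d : ℤ) ^ 2 - 3 * d - ∑ i, (w i : ℤ) ^ 2 + ∑ i, (w i : ℤ) := by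
    unfold ip kk
    have : ∑ j, (w j : ℤ) ^ 2 = ∑ j, (w j : ℤ) * w j := Finset.sum_congr rfl fun j _ => sq _
    rw [this]
    ring
  rw [e1]
  exact h1

end Pool.Agent.J4H49
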