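import Pool.Agent.J4H49.Main
import Pool.Agent.TH167.T3.Std
import Pool.Agent.R355.CanDeg3

set_option autoImplicit false

/-!
# The intersection numbers with the `(-1)`-curves
-/

namespace Pool.Agent.J4H49

open MvPolynomial Pool.Agent.W609 Pool.Agent.W609.CR Pool.Agent.TH167 Pool.Agent.TH167.SH
  Pool.Agent.TH167.TT Pool.Agent.TH167.CL Pool.Agent.TH167.T3 Pool.Agent.TH167.DD

theorem num_std {e a b c S : ℤ} (hab : b ≤ a) (hbc : c ≤ b) (hc : 0 ≤ c) (h : a + b + c ≤ e)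
    (hS : a + b + S = 3 * e - 1) (hq : e ^ 2 + 1 ≤ a ^ 2 + b ^ 2 + c * S) : False := by
  have hS' : S = 3 * e - 1 - a - b := by linarith
  rw [hS'] at hq
  have h1 : 0 ≤ (e - a - b - c) * (a - c) := mul_nonneg (by linarith) (by linarith)
  have h2 : 0 ≤ (e - a - b - c) * (b - c) := mul_nonneg (by linarith) (by linarith)
  have h3 : 0 ≤ (e - a - b - c) * e := mul_nonneg (by linarith) (by linarith)
  have h4 : 0 ≤ (a - c) * b := mul_nonneg (by linarith) (by linarith)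
  have h5 : 0 ≤ (b - c) * c := mul_nonneg (by linarith) hc
  have h6 : 0 ≤ (a - c) * c := mul_nonneg (by linarith) hc
  nlinarith

/-- The class of a `(-1)`-curve of positive degree is not standard. -/
theorem not_red {r e : ℕ} {u : Fin (r + 4) → ℕ} (h1 : ip e u e u = -1) (h2 : kk e u = 1) :
    ¬ Reduced e u := by
  intro hred
  obtain ⟨σ, hσ⟩ := exists_sort u
  have n0 : ((0 : Fin (r + 4)) : ℕ) = 0 := rfl
  have n1 : ((1 : Fin (r + 4)) : ℕ) = 1 := Nat.mod_eq_of_lt (show 1 < r + 4 by omega)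
  have n2 : ((2 : Fin (r + 4)) : ℕ) = 2 := Nat.mod_eq_of_lt (show 2 < r + 4 by omega)
  have ne01 : σ 0 ≠ σ 1 := fun h => by
    have := congrArg Fin.val (σ.injective h)
    rw [n0, n1] at this
    omega
  have ne02 : σ 0 ≠ σ 2 := fun h => by
    have := congrArg Fin.val (σ.injective h)
    rw [n0, n2] at this
    omega
  have ne12 : σ 1 ≠ σ 2 := fun h => by
    have := congrArg Fin.val (σ.injective h)
    rw [n1, n2] at this
    omega
  have h21 : u (σ 1) ≤ u (σ 0) := hσ (by rw [Fin.le_def, n1, n0]; omega)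
  have h32 : u (σ 2) ≤ u (σ 1) := hσ (by rw [Fin.le_def, n1, n2]; omega)
  have h3 := hred _ _ _ ne01 ne02 ne12
  have s1 : ∑ j, (u j : ℤ) = (u (σ 0) : ℤ) + ((u (σ 1) : ℤ) +
      ∑ j : Fin (r + 2), (u (σ j.succ.succ) : ℤ)) := by
    rw [← Equiv.sum_comp σ, Fin.sum_univ_succ, Fin.sum_univ_succ]
    rfl
  have s2 : ∑ j, (u j : ℤ) * (u j : ℤ) = (u (σ 0) : ℤ) * (u (σ 0) : ℤ) +
      ((u (σ 1) : ℤ) * (u (σ 1) : ℤ) +
      ∑ j : Fin (r + 2), (u (σ j.succ.succ) : ℤ) * (u (σ j.succ.succ) : ℤ)) := by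
    rw [← Equiv.sum_comp σ, Fin.sum_univ_succ, Fin.sum_univ_succ]
    rfl
  have s3 : ∑ j : Fin (r + 2), (u (σ j.succ.succ) : ℤ) * (u (σ j.succ.succ) : ℤ) ≤
      (u (σ 2) : ℤ) * ∑ j : Fin (r + 2), (u (σ j.succ.succ) : ℤ) := by
    rw [Finset.mul_sum]
    refine Finset.sum_le_sum fun j _ => mul_le_mul_of_nonneg_right ?_ (Int.natCast_nonneg _)
    have h4 : u (σ j.succ.succ) ≤ u (σ 2) := by
      refine hσ ?_
      rw [Fin.le_def, n2, Fin.val_succ, Fin.val_succ]
      omega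
    exact_mod_cast h4
  unfold ip at h1
  unfold kk at h2
  rw [s2] at h1
  rw [s1] at h2
  refine num_std (e := (e : ℤ)) (a := (u (σ 0) : ℤ)) (b := (u (σ 1) : ℤ)) (c := (u (σ 2) : ℤ))
    (S := ∑ j : Fin (r + 2), (u (σ j.succ.succ) : ℤ)) (by exact_mod_cast h21)
    (by exact_mod_cast h32) (Int.natCast_nonneg _) (by exact_mod_cast h3) (by linarith) ?_
  nlinarith

/-- An irreducible curve and a `(-1)`-curve: quadratic transformations carry the `(-1)`-curve to an
exceptional curve. -/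
theorem orb {K : Type} [Field K] [CharZero K] {r : ℕ} :
    ∀ (e : ℕ) (P : Fin (r + 4) → Fin 2 → K)
      (_ : AlgebraicIndependent ℚ (fun ij : Fin (r + 4) × Fin 2 => P ij.1 ij.2))
      (u : Fin (r + 4) → ℕ) (E : MvPolynomial (Fin 3) K) (_ : Irreducible E)
      (_ : E.IsHomogeneous e) (_ : ∀ j, Ord (aff (P j)) (u j) E)
      (_ : ip e u e u = -1) (_ : kk e u = 1)
      (d : ℕ) (w : Fin (r + 4) → ℕ) (G : MvPolynomial (Fin 3) K) (_ : Irreducible G)
      (_ : G.IsHomogeneous d) (_ : ∀ j, Ord (aff (P j)) (w j) G)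
      (_ : ¬ (ip d w d w = -1 ∧ kk d w = 1)),
      ∃ (P1 : Fin (r + 4) → Fin 2 → K) (d1 : ℕ) (w1 : Fin (r + 4) → ℕ)
        (G1 : MvPolynomial (Fin 3) K) (k : Fin (r + 4)),
        AlgebraicIndependent ℚ (fun ij : Fin (r + 4) × Fin 2 => P1 ij.1 ij.2) ∧
        Irreducible G1 ∧ G1.IsHomogeneous d1 ∧ (∀ j, Ord (aff (P1 j)) (w1 j) G1) ∧
        ip d1 w1 d1 w1 = ip d w d w ∧ kk d1 w1 = kk d w ∧ (w1 k : ℤ) = ip d w e u := by
  classical
  intro e
  induction e using Nat.strong_induction_on with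
  | _ e ih =>
    intro P hP u E hE hEe hEo hE1 hE2 d w G hG hGd hGo hne
    have hwd : ∀ j, u j ≤ e := fun j => van_le hE.ne_zero hEe (hEo j).1
    by_cases hpair : ∀ i j, i ≠ j → u i + u j ≤ e
    · obtain ⟨i, hinj, p, hlt, -, -⟩ := step3 (not_red hE1 hE2) hpair
      obtain ⟨P', hP', hr⟩ := exists_crel hP hinj
      have hi01 : i 0 ≠ i 1 := fun h => absurd (hinj h) (by decide)
      have hi02 : i 0 ≠ i 2 := fun h => absurd (hinj h) (by decide)
      have hi12 : i 1 ≠ i 2 := fun h => absurd (hinj h) (by decide)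
      have p' : PS i d w := ⟨R355.CanDeg.pair_le' hP hG hGd hGo hne hi01,
        R355.CanDeg.pair_le' hP hG hGd hGo hne hi02, R355.CanDeg.pair_le' hP hG hGd hGo hne hi12⟩
      obtain ⟨E', hE', hEe', hEo'⟩ := hr.irr hE hEe hEo p.p01 p.p02 p.p12
      obtain ⟨G', hG', hGd', hGo'⟩ := hr.irr hG hGd hGo p'.p01 p'.p02 p'.p12
      obtain ⟨P1, d1, w1, G1, k, a1, a2, a3, a4, a5, a6, a7⟩ := ih (cd i e u) hlt P' hP'
        (wcr e i u) E' hE' hEe' hEo' (by rw [ip_cr hinj p p, hE1]) (by rw [kk_cr hinj p, hE2])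
        (cd i d w) (wcr d i w) G' hG' hGd' hGo'
        (by rw [ip_cr hinj p' p', kk_cr hinj p']; exact hne)
      rw [ip_cr hinj p' p'] at a5
      rw [kk_cr hinj p'] at a6
      rw [ip_cr hinj p' p] at a7
      exact ⟨P1, d1, w1, G1, k, a1, a2, a3, a4, a5, a6, a7⟩
    · push Not at hpair
      obtain ⟨a, b, hab, hlt⟩ := hpair
      obtain ⟨rfl, rfl⟩ := TH442.NF.line_of hP hE hEe hEo hab hlt
      obtain ⟨c, hc⟩ : ∃ c : Fin (r + 4), c ∉ ({a, b} : Finset (Fin (r + 4))) := by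
        by_contra hcon
        push Not at hcon
        have h1 : (Finset.univ : Finset (Fin (r + 4))) ⊆ {a, b} := fun x _ => hcon x
        have h2 := Finset.card_le_card h1
        have h3 := Finset.card_le_two (a := a) (b := b)
        rw [Finset.card_univ, Fintype.card_fin] at h2
        omega
      rw [Finset.mem_insert, Finset.mem_singleton, not_or] at hc
      have hi : Function.Injective ![a, b, c] := inj_cons hab (Ne.symm hc.1) (Ne.symm hc.2)
      have p' : PS ![a, b, c] d w := ⟨R355.CanDeg.pair_le' hP hG hGd hGo hne hab,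
        R355.CanDeg.pair_le' hP hG hGd hGo hne (Ne.symm hc.1),
        R355.CanDeg.pair_le' hP hG hGd hGo hne (Ne.symm hc.2)⟩
      obtain ⟨P', hP', hr⟩ := exists_crel hP hi
      obtain ⟨G', hG', hGd', hGo'⟩ := hr.irr hG hGd hGo p'.p01 p'.p02 p'.p12
      refine ⟨P', _, _, G', c, hP', hG', hGd', hGo', ip_cr hi p' p', kk_cr hi p', ?_⟩
      rw [wcr_cast hi p']
      have h1 := (ic_base ![a, b, c]).2.2
      have e2 : (![a, b, c] : Fin 3 → Fin (r + 4)) 2 = c := rfl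
      rw [e2] at h1
      rw [h1]
      rw [TH442.NF.ip_line hab]
      unfold dl
      have e0 : (![a, b, c] : Fin 3 → Fin (r + 4)) 0 = a := rfl
      have e1 : (![a, b, c] : Fin 3 → Fin (r + 4)) 1 = b := rfl
      rw [e0, e1, e2]
      ring

end Pool.Agent.J4H49
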