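import Pool.Agent.J4H49.RGrow

set_option autoImplicit false

/-!
# The bound for the arithmetic genus, from several singular points
-/

namespace Pool.Agent.J4H49

open MvPolynomial Pool.Agent.W609 Pool.Agent.W609.CR Pool.Agent.TH167.SH Pool.Agent.TH167.TT
  Pool.Agent.TH167.CL Pool.Agent.H248R5 Pool.Agent.H248R6

variable {K : Type} [Field K] {s : ℕ}

/-- All jets at several points. -/
theorem jets_mul {P : Fin s → Fin 2 → K} {w : Fin s → ℕ} {d : ℕ} {I : Finset (Fin s)} {n : ℕ}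
    {N : Fin s → ℕ} (hw : ∀ k ∈ I, 2 ≤ w k) (hN : ∀ k ∈ I, N k ≤ n + 1)
    (hF : ∀ k ∈ I, Fu P w d k 1 1) :
    ∀ k ∈ I, ∀ p : MvPolynomial (Fin 2) K, ∃ f ∈ Sm P w d I (n + 1),
      tau (P k) f - p ∈ Id K (N k + 1) ∧ ∀ j ∈ I, j ≠ k → tau (P j) f ∈ Id K (N j + 1) := by
  intro k hk p
  have h1 := fu_nsmul (hF k hk) (n + 1)
  rw [mul_one] at h1
  obtain ⟨f, hf1, hf2⟩ := jets (fu_mono h1 (hN k hk)) p
  refine ⟨f, sp_le_sm hk hf1, hf2, fun j hj hjk => ?_⟩
  obtain ⟨g1, g2, -⟩ := mem_sp.1 hf1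
  have h2 := (van_tau g1).1 (g2 j hjk)
  refine id_mono ?_ h2
  have h3 := hN j hj
  have h4 : (n + 1) * 2 ≤ (n + 1) * w j := Nat.mul_le_mul_left _ (hw j hj)
  omega

/-- The growth, with several points. -/
theorem grow_mul_sum {P : Fin s → Fin 2 → K} {w : Fin s → ℕ} {d : ℕ} {I : Finset (Fin s)}
    {G H : MvPolynomial (Fin 3) K} (hG : Irreducible G) (hw : ∀ k ∈ I, 2 ≤ w k)
    (hGm : ∀ k ∈ I, tau (P k) G ∈ Id K (w k)) (hH : H ∈ Sm P w d I 1)
    (hHm : ∀ k ∈ I, tau (P k) H ∈ Id K (w k - 1)) (hHG : ¬ G ∣ H)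
    (hF : ∀ k ∈ I, Fu P w d k 1 1) :
    ∀ n : ℕ, ∃ A : Submodule K (MvPolynomial (Fin 3) K), A ≤ Sm P w d I n ∧
        Module.Finite K ↥A ∧ (∀ f ∈ A, G ∣ f → f = 0) ∧
        1 + ∑ i ∈ Finset.range n, ∑ k ∈ I, gn (w k) (min (i + 1) (2 * (w k - 2) + 1)) ≤
          (Module.finrank K ↥A : ℤ) := by
  classical
  intro n
  induction n with
  | zero =>
    have h1 : (1 : MvPolynomial (Fin 3) K) ∈ Sm P w d I 0 := by
      rw [mem_sm]
      refine ⟨?_, fun j _ => ?_⟩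
      · rw [zero_mul]
        exact isHomogeneous_one _ _
      · rw [zero_mul]
        exact van_zero _ _
    refine ⟨Submodule.span K {1}, ?_, inferInstance, ?_, ?_⟩
    · rw [Submodule.span_singleton_le_iff_mem]
      exact h1
    · intro f hf hdvd
      obtain ⟨c, rfl⟩ := Submodule.mem_span_singleton.1 hf
      by_contra hne
      have hc : c ≠ 0 := by
        rintro rfl
        rw [zero_smul] at hne
        exact hne rfl
      have hu : IsUnit (c • (1 : MvPolynomial (Fin 3) K)) := by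
        rw [smul_eq_C_mul, mul_one]
        exact (isUnit_iff_ne_zero.2 hc).map C
      exact hG.not_isUnit (isUnit_of_dvd_unit hdvd hu)
    · rw [finrank_span_singleton one_ne_zero]
      simp
  | succ n ih =>
    obtain ⟨A, hA1, hA2, hA3, hA4⟩ := ih
    obtain ⟨A', hA1', hA2', hA3', hA4'⟩ := grow_mul
      (N := fun k => min (n + 1) (2 * (w k - 2) + 1))
      (jets_mul hw (fun k _ => min_le_left _ _) hF) hG (fun k hk => by have := hw k hk; omega)
      hGm hH hHm hHG A hA1 hA3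
    refine ⟨A', hA1', hA2', hA3', ?_⟩
    rw [Finset.sum_range_succ]
    have h5 : ((Module.finrank K ↥A + ∑ k ∈ I, (min (n + 1) (2 * (w k - 2) + 1) + 2).choose 2 : ℕ) :
        ℤ) ≤ ((Module.finrank K ↥A' + ∑ k ∈ I,
          ((min (n + 1) (2 * (w k - 2) + 1) + 2 - w k).choose 2 +
            (min (n + 1) (2 * (w k - 2) + 1) + 3 - w k).choose 2) : ℕ) : ℤ) := by
      exact_mod_cast hA4'
    push_cast at h5
    have h6 : ∑ k ∈ I, gn (w k) (min (n + 1) (2 * (w k - 2) + 1)) =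
        ∑ k ∈ I, (((min (n + 1) (2 * (w k - 2) + 1) + 2).choose 2 : ℕ) : ℤ) -
          ∑ k ∈ I, ((((min (n + 1) (2 * (w k - 2) + 1) + 2 - w k).choose 2 : ℕ) : ℤ) +
            (((min (n + 1) (2 * (w k - 2) + 1) + 3 - w k).choose 2 : ℕ) : ℤ)) := by
      rw [← Finset.sum_sub_distrib]
      exact Finset.sum_congr rfl fun k _ => rfl
    rw [h6]
    linarith

/-- The loss at a point of multiplicity `m`. -/
def rl (m : ℕ) : ℤ := ((m : ℤ) - 1) * m * (2 * m - 5) + 2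

theorem gain_sum {m : ℕ} (hm : 2 ≤ m) (n : ℕ) :
    2 * (n : ℤ) * (m * (m - 1)) - rl m ≤
      2 * ∑ i ∈ Finset.range n, gn m (min (i + 1) (2 * (m - 2) + 1)) := by
  obtain ⟨a, rfl⟩ : ∃ a, m = a + 2 := ⟨m - 2, by omega⟩
  have e : a + 2 - 2 = a := by omega
  rw [e, sum_gn a (fun i => i + 1) n]
  have h1 := sum_loss a 1 n
  simp only [mul_one, Nat.cast_one, one_mul] at h1
  unfold rl
  push_cast
  nlinarith

/-- The main inequality. -/
theorem bnd_mul [CharZero K] [IsAlgClosed K] {P : Fin s → Fin 2 → K} (hP : Function.Injective P)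
    {w : Fin s → ℕ} {d : ℕ} {I : Finset (Fin s)}
    {G H : MvPolynomial (Fin 3) K} (hG : Irreducible G) (hGd : G.IsHomogeneous d) (hd : 2 ≤ d)
    (hord : ∀ j, Ord (aff (P j)) (w j) G) (hw : ∀ k ∈ I, 2 ≤ w k) (hH : H ∈ Sm P w d I 1)
    (hHm : ∀ k ∈ I, tau (P k) H ∈ Id K (w k - 1)) (hHG : ¬ G ∣ H)
    (hF : ∀ k ∈ I, Fu P w d k 1 1) (n : ℕ)
    (hn : ∑ k ∈ I, rl (w k) + 1 ≤ (n : ℤ) * (∑ k ∈ I, (w k : ℤ) * (w k - 2) - ip d w d w)) :
    ip d w d w - kk d w + 2 ≤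
      2 * (n : ℤ) * (ip d w d w + ∑ k ∈ I, (w k : ℤ)) + ∑ k ∈ I, rl (w k) := by
  classical
  have hGm : ∀ k ∈ I, tau (P k) G ∈ Id K (w k) := fun k _ => (van_tau hGd).1 (hord k).1
  obtain ⟨A, hA1, hA2, hA3, hA4⟩ := grow_mul_sum hG hw hGm hH hHm hHG hF n
  have h1 : 2 + ∑ k ∈ I, (2 * (n : ℤ) * (w k * (w k - 1)) - rl (w k)) ≤
      2 * (Module.finrank K ↥A : ℤ) := by
    have h2 := Finset.sum_le_sum fun k hk => gain_sum (hw k hk) n
    rw [← Finset.mul_sum, Finset.sum_comm] at h2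
    linarith
  have hfr : 1 ≤ Module.finrank K ↥A := by
    by_contra hcon
    have h0 : Module.finrank K ↥A = 0 := by omega
    rw [h0] at hA4
    have h3 : ∀ i ∈ Finset.range n, (0 : ℤ) ≤
        ∑ k ∈ I, gn (w k) (min (i + 1) (2 * (w k - 2) + 1)) := by
      intro i _
      refine Finset.sum_nonneg fun k hk => ?_
      obtain ⟨a, ha⟩ : ∃ a, w k = a + 2 := ⟨w k - 2, by have := hw k hk; omega⟩
      have e : w k - 2 = a := by omega
      rw [e, ha]
      have h4 := gn_los (a := a) (N := min (i + 1) (2 * a + 1)) (min_le_right _ _)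
      have h5 := los_anti a (Nat.zero_le (min (i + 1) (2 * a + 1)))
      have h6 : los a 0 ≤ 2 * ((a : ℤ) + 2) * (a + 1) := by
        unfold los
        split_ifs with h7 h8
        · push_cast
          nlinarith
        · have : a = 0 := by omega
          subst this
          norm_num
        · have : (0 : ℤ) ≤ a := Int.natCast_nonneg a
          positivity
      linarith
    have h4 := Finset.sum_nonneg h3
    push_cast at hA4
    linarith
  have h2 := cliffG hG hGd hd hP hord (u := um w I n) (a := n * d) A hA1 hA3 hfr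
  obtain ⟨Q, hQ⟩ : ∃ Q : ℤ, Q = ∑ k ∈ I, (w k : ℤ) ^ 2 := ⟨_, rfl⟩
  obtain ⟨L, hL⟩ : ∃ L : ℤ, L = ∑ k ∈ I, (w k : ℤ) := ⟨_, rfl⟩
  obtain ⟨R, hR⟩ : ∃ R : ℤ, R = ∑ k ∈ I, rl (w k) := ⟨_, rfl⟩
  obtain ⟨S, hS⟩ : ∃ S : ℤ, S = ∑ j, (w j : ℤ) * w j := ⟨_, rfl⟩
  obtain ⟨S1, hS1⟩ : ∃ S1 : ℤ, S1 = ∑ j, (w j : ℤ) := ⟨_, rfl⟩
  have hwu : ((∑ j, w j * um w I n j : ℕ) : ℤ) = n * (S - Q) := by
    have h3 : ∑ j, (w j : ℤ) * w j = ∑ j, (if j ∈ I then (w j : ℤ) * w j else 0) +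
        ∑ j, (if j ∈ I then 0 else (w j : ℤ) * w j) := by
      rw [← Finset.sum_add_distrib]
      refine Finset.sum_congr rfl fun j _ => ?_
      split_ifs <;> ring
    have h4 : ∑ j, (if j ∈ I then (w j : ℤ) * w j else 0) = Q := by
      rw [Finset.sum_ite_mem, Finset.univ_inter, hQ]
      exact Finset.sum_congr rfl fun j _ => by ring
    rw [h4, ← hS] at h3
    have h5 : S - Q = ∑ j, (if j ∈ I then 0 else (w j : ℤ) * w j) := by linarith
    rw [h5, Finset.mul_sum]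
    push_cast
    refine Finset.sum_congr rfl fun j _ => ?_
    unfold um
    split_ifs
    · simp
    · push_cast
      ring
  have hsumw : ((∑ j, w j : ℕ) : ℤ) = S1 := by
    rw [hS1]
    push_cast
    rfl
  have hsumq : ((∑ j, w j * w j : ℕ) : ℤ) = S := by
    rw [hS]
    push_cast
    rfl
  have e1 : ∑ k ∈ I, (2 * (n : ℤ) * (w k * (w k - 1)) - rl (w k)) =
      2 * (n : ℤ) * (Q - L) - R := by
    rw [Finset.sum_sub_distrib, ← Finset.mul_sum, ← hR, hQ, hL, ← Finset.sum_sub_distrib]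
    congr 2
    exact Finset.sum_congr rfl fun j _ => by ring
  have e2 : ∑ k ∈ I, (w k : ℤ) * (w k - 2) = Q - 2 * L := by
    rw [hQ, hL, Finset.mul_sum, ← Finset.sum_sub_distrib]
    exact Finset.sum_congr rfl fun j _ => by ring
  have e3 : ip d w d w = (d : ℤ) * d - S := by
    rw [hS]
    rfl
  have e4 : kk d w = 3 * (d : ℤ) - S1 := by
    rw [hS1]
    rfl
  rw [e1] at h1
  rw [e2, ← hR, e3] at hn
  rw [← hL, ← hR, e3, e4]
  rcases h2 with h2 | h2
  · exfalso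
    have h3 : (2 * (Module.finrank K ↥A : ℤ) + ((∑ j, w j * um w I n j : ℕ) : ℤ) ≤
        (n * d) * d + 2) := by exact_mod_cast h2
    rw [hwu] at h3
    nlinarith
  · have h3 : (2 * (Module.finrank K ↥A : ℤ) + 2 * ((∑ j, w j * um w I n j : ℕ) : ℤ) + d * d +
        ((∑ j, w j : ℕ) : ℤ) ≤ 2 * ((n * d) * d) + 3 * d + ((∑ j, w j * w j : ℕ) : ℤ)) := by
      exact_mod_cast h2
    rw [hwu, hsumw, hsumq] at h3
    nlinarith

end Pool.Agent.J4H49
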