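import Pool.Agent.J4H49.RSing
import Pool.Agent.J4H49.Full

set_option autoImplicit false

/-!
# All linear forms are leading forms at a singular point
-/

namespace Pool.Agent.J4H49

open MvPolynomial Pool.Agent.W609 Pool.Agent.W609.CR Pool.Agent.TH167.SH Pool.Agent.TH167.TT
  Pool.Agent.TH167.CL Pool.Agent.TH167.T3 Pool.Agent.H248R5 Pool.Agent.H248R6

variable {K : Type} [Field K] {s : ℕ}

theorem zero_of_pd [CharZero K] {p : MvPolynomial (Fin 2) K} {c : ℕ} (hp : p.IsHomogeneous c)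
    (hc : 1 ≤ c) (h : ∀ a, pderiv a p = 0) : p = 0 := by
  have h1 := hp.sum_X_mul_pderiv
  rw [Finset.sum_eq_zero (fun l _ => by rw [h l, mul_zero]), nsmul_eq_mul] at h1
  rcases mul_eq_zero.1 h1.symm with h2 | h2
  · have : ((c : ℕ) : MvPolynomial (Fin 2) K) ≠ 0 := by
      exact_mod_cast (by omega : c ≠ 0)
    exact absurd h2 this
  · exact h2

/-- Moving the point `P k` in the direction `u`. -/
theorem mv_gen [CharZero K] {P : Fin s → Fin 2 → K} {w : Fin s → ℕ} {d : ℕ} {k : Fin s}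
    {D : Fin s × Fin 2 → Derivation ℚ K K}
    (hD : ∀ x i b, D x (P i b) = if i = x.1 ∧ b = x.2 then 1 else 0) {n c : ℕ}
    {f : MvPolynomial (Fin 3) K} (hf : f ∈ Sp P w d k n (c + 1)) (u : Fin 2 → K) :
    dG (u 0 • D (k, 0) + u 1 • D (k, 1)) f ∈ Sp P w d k n c ∧
      homogeneousComponent c (tau (P k) (dG (u 0 • D (k, 0) + u 1 • D (k, 1)) f)) =
        - dd' u (homogeneousComponent (c + 1) (tau (P k) f)) := by
  classical
  have h1 : ∀ a : Fin 2, dG (D (k, a)) f ∈ Sp P w d k n c ∧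
      homogeneousComponent c (tau (P k) (dG (D (k, a)) f)) =
        - pderiv a (homogeneousComponent (c + 1) (tau (P k) f)) := by
    intro a
    obtain ⟨k1, k2⟩ := move (w := Function.update (fun j => n * w j) k (c + 1)) (P := P)
      (d := n * d) (k := k) (m := c) (Function.update_self _ _ _) (a := a) (D (k, a))
      (fun i b => hD (k, a) i b) (mem_forms_VS.1 hf)
    rw [← mem_forms_VS, Function.update_idem] at k1
    exact ⟨k1, k2⟩
  rw [dG_smul_der]
  refine ⟨Submodule.add_mem _ (Submodule.smul_mem _ _ (h1 0).1)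
    (Submodule.smul_mem _ _ (h1 1).1), ?_⟩
  rw [map_add, map_smul, map_smul, map_add, map_smul, map_smul, (h1 0).2, (h1 1).2, dd'_apply,
    smul_neg, smul_neg]
  abel

/-- The leading forms of degree at most one. -/
theorem ld_low [CharZero K] {P : Fin s → Fin 2 → K}
    (hP : AlgebraicIndependent ℚ (fun ij : Fin s × Fin 2 => P ij.1 ij.2))
    {w : Fin s → ℕ} {d : ℕ} {k : Fin s} {c : ℕ} {p : MvPolynomial (Fin 2) K}
    (hp : p ∈ Ld P w d k 1 c) (hp0 : p ≠ 0) : ∀ e ≤ c, ∃ q ∈ Ld P w d k 1 e, q ≠ 0 := by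
  induction c generalizing p with
  | zero =>
    intro e he
    have : e = 0 := by omega
    rw [this]
    exact ⟨p, hp, hp0⟩
  | succ c ih =>
    intro e he
    rcases Nat.lt_or_ge e (c + 1) with h | h
    · obtain ⟨a, ha⟩ : ∃ a, pderiv a p ≠ 0 := by
        by_contra hcon
        push Not at hcon
        exact hp0 (zero_of_pd (ld_hom hp) (by omega) hcon)
      exact ih (ld_der hP hp a) ha e (by omega)
    · have : e = c + 1 := by omega
      rw [this]
      exact ⟨p, hp, hp0⟩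

theorem fu_zero_one [CharZero K] {P : Fin s → Fin 2 → K}
    (hP : AlgebraicIndependent ℚ (fun ij : Fin s × Fin 2 => P ij.1 ij.2))
    {w : Fin s → ℕ} {d : ℕ} {k : Fin s} {c : ℕ} {p : MvPolynomial (Fin 2) K}
    (hp : p ∈ Ld P w d k 1 c) (hp0 : p ≠ 0) : Fu P w d k 1 0 := by
  intro e he q hq
  have he0 : e = 0 := by omega
  subst he0
  obtain ⟨r, hr, hr0⟩ := ld_low hP hp hp0 0 (Nat.zero_le _)
  obtain ⟨t, rfl⟩ : ∃ t, r = C t := ⟨_, hom_zero (ld_hom hr)⟩
  have h2 : t ≠ 0 := by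
    rintro rfl
    exact hr0 C_0
  obtain ⟨t', rfl⟩ : ∃ t', q = C t' := ⟨_, hom_zero hq⟩
  have h3 := Submodule.smul_mem _ (t' * t⁻¹) hr
  rw [smul_eq_C_mul, ← C_mul, mul_assoc, inv_mul_cancel₀ h2, mul_one] at h3
  exact h3

theorem pd_com (i j : Fin 2) (p : MvPolynomial (Fin 2) K) :
    pderiv i (pderiv j p) = pderiv j (pderiv i p) := by
  have h1 := LinearMap.congr_fun (pd_comm (K := K)) p
  have h2 : pderiv 0 (pderiv 1 p) = pderiv 1 (pderiv 0 p) := h1
  fin_cases i <;> fin_cases j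
  · rfl
  · exact h2
  · exact h2.symm
  · rfl

/-- All linear forms are leading forms, at a singular point of an irreducible curve. -/
theorem fu_one [CharZero K] {P : Fin s → Fin 2 → K}
    (hP : AlgebraicIndependent ℚ (fun ij : Fin s × Fin 2 => P ij.1 ij.2))
    {w : Fin s → ℕ} {d : ℕ} {G : MvPolynomial (Fin 3) K} (hG : Irreducible G)
    (hGd : G.IsHomogeneous d) (hord : ∀ j, Ord (aff (P j)) (w j) G) {k : Fin s}
    (hk : 2 ≤ w k) : Fu P w d k 1 1 := by
  classical
  obtain ⟨a, ha⟩ : ∃ a, w k = a + 1 := ⟨w k - 1, by omega⟩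
  have hGV : G ∈ Sp P w d k 1 (a + 1) := by
    rw [mem_sp_one, ← ha, Function.update_eq_self]
    exact (mem_VS _ _ _ _).2 ⟨hGd, fun j => (hord j).1⟩
  have hl : homogeneousComponent (a + 1) (tau (P k) G) ∈ Ld P w d k 1 (a + 1) :=
    mem_ld.2 ⟨G, hGV, rfl⟩
  have hl0 : homogeneousComponent (a + 1) (tau (P k) G) ≠ 0 := by
    intro h
    have h1 := mem_succ (sp_tau hGV) h
    rw [← ha] at h1
    exact (hord k).2 ((van_tau hGd).2 h1)
  have hf0 := fu_zero_one hP hl hl0
  by_contra hcon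
  -- a direction
  let δ : ↥(Ld P w d k 1 1) →ₗ[K] (Fin 2 → K) :=
    LinearMap.pi fun i => (lcoeff K (ex 0 0)).comp
      ((pderiv i : Derivation K (MvPolynomial (Fin 2) K) (MvPolynomial (Fin 2) K)).toLinearMap.comp
        (Ld P w d k 1 1).subtype)
  have hδ : ∀ (p : ↥(Ld P w d k 1 1)) i, pderiv i p.1 = C (δ p i) := by
    intro p i
    exact hom_zero (ld_hom p.2).pderiv
  have hr : LinearMap.range δ ≠ ⊤ := by
    intro htop
    apply hcon
    intro e he q hq
    rcases Nat.lt_or_ge e 1 with h | h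
    · exact hf0 e (by omega) q hq
    · have he1 : e = 1 := by omega
      subst he1
      obtain ⟨p, hp⟩ : ∃ p, δ p = fun i => coeff (ex 0 0) (pderiv i q) := by
        have : (fun i => coeff (ex 0 0) (pderiv i q)) ∈ LinearMap.range δ := by
          rw [htop]
          exact Submodule.mem_top
        exact this
      have h1 : q - p.1 = 0 := by
        refine zero_of_pd (hq.sub (ld_hom p.2)) le_rfl fun i => ?_
        rw [map_sub, hδ, hp, sub_eq_zero]
        exact hom_zero hq.pderiv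
      rw [sub_eq_zero.1 h1]
      exact p.2
  obtain ⟨f, hf, hfle⟩ := Submodule.exists_le_ker_of_lt_top _ (lt_top_iff_ne_top.2 hr)
  obtain ⟨u, hu⟩ : ∃ u : Fin 2 → K, u = fun i => f (Pi.single i 1) := ⟨_, rfl⟩
  have hfu : ∀ x : Fin 2 → K, f x = u 0 * x 0 + u 1 * x 1 := by
    intro x
    have h1 : x = x 0 • Pi.single 0 1 + x 1 • Pi.single 1 1 := by
      funext i
      fin_cases i <;> simp
    conv_lhs => rw [h1]
    rw [map_add, map_smul, map_smul, hu, smul_eq_mul, smul_eq_mul]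
    ring
  have hu0 : u ≠ 0 := by
    intro h
    apply hf
    ext i
    rw [LinearMap.comp_apply, hfu, h]
    simp
  have hkill : ∀ c, ∀ p ∈ Ld P w d k 1 (c + 1), dd' u p = 0 := by
    intro c
    induction c with
    | zero =>
      intro p hp
      have h1 : f (δ ⟨p, hp⟩) = 0 := hfle ⟨_, rfl⟩
      rw [hfu] at h1
      rw [dd'_apply, hδ ⟨p, hp⟩, hδ ⟨p, hp⟩, smul_eq_C_mul, smul_eq_C_mul, ← C_mul, ← C_mul,
        ← C_add, h1, C_0]
    | succ c ih =>
      intro p hp
      have h1 : (dd' u p).IsHomogeneous (c + 1) := by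
        rw [dd'_apply, smul_eq_C_mul, smul_eq_C_mul]
        exact (IsHomogeneous.C_mul (ld_hom hp).pderiv _).add
          (IsHomogeneous.C_mul (ld_hom hp).pderiv _)
      refine zero_of_pd h1 (by omega) fun i => ?_
      have h2 := ih _ (ld_der hP hp i)
      rw [dd'_apply] at h2 ⊢
      rw [map_add, Derivation.map_smul, Derivation.map_smul, pd_com i 0, pd_com i 1]
      exact h2
  obtain ⟨D, hD⟩ := exists_D hP
  obtain ⟨E, hE⟩ : ∃ E, E = u 0 • D (k, 0) + u 1 • D (k, 1) := ⟨_, rfl⟩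
  have hstab : ∀ v ∈ Sp P w d k 1 (a + 1), dG E v ∈ Sp P w d k 1 (a + 1) := by
    intro v hv
    obtain ⟨k1, k2⟩ := mv_gen hD hv u
    rw [← hE, hkill a _ (mem_ld.2 ⟨v, hv, rfl⟩), neg_zero] at k2
    rw [← hE] at k1
    have h2 := mem_succ (sp_tau k1) k2
    have k1' := mem_sp.1 k1
    exact mem_sp.2 ⟨k1'.1, k1'.2.1, (van_tau k1'.1).2 h2⟩
  have hvan : ∀ v ∈ Sp P w d k 1 (a + 1), Van (aff (P k)) 2 v := fun v hv =>
    van_mono (by omega) (mem_sp.1 hv).2.2
  have h3 : ∀ b, E (P k b) = 0 := fun b =>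
    sing_stable E hstab (d := 1 * d) (fun v hv => (mem_sp.1 hv).1) hG hGV
      (fun v hv => (Pool.Agent.TH167.TT.van_one).1 (van_mono (by omega) (hvan v hv)))
      (fun v hv l => pd_mem (hvan v hv) l) b
  apply hu0
  funext b
  have h4 := h3 b
  rw [hE] at h4
  have h5 : u 0 * D (k, 0) (P k b) + u 1 * D (k, 1) (P k b) = 0 := h4
  rw [hD, hD] at h5
  show u b = 0
  rw [← h5]
  fin_cases b <;> simp

end Pool.Agent.J4H49
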