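import Pool.Agent.J4H49.GrowS
import Pool.Agent.J4H49.Full
import Pool.Agent.J4H49.CaseA

set_option autoImplicit false

/-!
# The growth of the systems on the curve, with several singular points
-/

namespace Pool.Agent.J4H49

open MvPolynomial Pool.Agent.W609 Pool.Agent.W609.CR Pool.Agent.TH167.SH Pool.Agent.TH167.TT
  Pool.Agent.TH167.CL Pool.Agent.H248R5 Pool.Agent.H248R6

variable {K : Type} [Field K] {s : ℕ}

/-- The multiplicities of the `n`-th system, without conditions at the points of `I`. -/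
def um (w : Fin s → ℕ) (I : Finset (Fin s)) (n : ℕ) (j : Fin s) : ℕ :=
  if j ∈ I then 0 else n * w j

/-- The forms of degree `n d` with multiplicity at least `n w j` at `P j`, `j ∉ I`. -/
noncomputable def Sm (P : Fin s → Fin 2 → K) (w : Fin s → ℕ) (d : ℕ) (I : Finset (Fin s)) (n : ℕ) :
    Submodule K (MvPolynomial (Fin 3) K) :=
  VS (fun j => aff (P j)) (um w I n) (n * d)

theorem mem_sm {P : Fin s → Fin 2 → K} {w : Fin s → ℕ} {d : ℕ} {I : Finset (Fin s)} {n : ℕ}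
    {f : MvPolynomial (Fin 3) K} : f ∈ Sm P w d I n ↔ f.IsHomogeneous (n * d) ∧
      ∀ j, j ∉ I → Van (aff (P j)) (n * w j) f := by
  unfold Sm um
  rw [mem_VS]
  refine and_congr_right fun _ => ⟨fun h j hj => ?_, fun h j => ?_⟩
  · have := h j
    rwa [if_neg hj] at this
  · by_cases hj : j ∈ I
    · rw [if_pos hj]
      exact van_zero _ _
    · rw [if_neg hj]
      exact h j hj

theorem sp_le_sm {P : Fin s → Fin 2 → K} {w : Fin s → ℕ} {d : ℕ} {I : Finset (Fin s)} {n c : ℕ}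
    {k : Fin s} (hk : k ∈ I) {f : MvPolynomial (Fin 3) K} (hf : f ∈ Sp P w d k n c) :
    f ∈ Sm P w d I n := by
  rw [mem_sp] at hf
  rw [mem_sm]
  refine ⟨hf.1, fun j hj => hf.2.1 j ?_⟩
  rintro rfl
  exact hj hk

theorem sm_mul {P : Fin s → Fin 2 → K} {w : Fin s → ℕ} {d : ℕ} {I : Finset (Fin s)} {n n' : ℕ}
    {f g : MvPolynomial (Fin 3) K} (hf : f ∈ Sm P w d I n) (hg : g ∈ Sm P w d I n') :
    f * g ∈ Sm P w d I (n + n') := by
  rw [mem_sm] at hf hg ⊢
  refine ⟨?_, fun j hj => ?_⟩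
  · rw [add_mul]
    exact hf.1.mul hg.1
  · rw [add_mul]
    exact van_mul (hf.2 j hj) (hg.2 j hj)

/-- Growth, abstract form. -/
theorem grow_abs {ι : Type} [Fintype ι] {W : ι → Type} [∀ i, AddCommGroup (W i)]
    [∀ i, Module K (W i)] [∀ i, Module.Finite K (W i)]
    (F : ∀ i, MvPolynomial (Fin 3) K →ₗ[K] W i) {G H : MvPolynomial (Fin 3) K}
    (hG : Irreducible G) (hHG : ¬ G ∣ H)
    (A S' : Submodule K (MvPolynomial (Fin 3) K)) [Module.Finite K ↥A]
    (hsurj : ∀ i (y : W i), ∃ f ∈ S', F i f = y ∧ ∀ j, j ≠ i → F j f = 0)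
    (hkill : ∀ i f a, G ∣ H * a + f → F i f = 0)
    (hmul : ∀ a ∈ A, H * a ∈ S') (hAG : ∀ f ∈ A, G ∣ f → f = 0) :
    ∃ A' : Submodule K (MvPolynomial (Fin 3) K), A' ≤ S' ∧
      Module.Finite K ↥A' ∧ (∀ f ∈ A', G ∣ f → f = 0) ∧
      Module.finrank K ↥A' = Module.finrank K ↥A + ∑ i, Module.finrank K (W i) := by
  classical
  let Φ : ↥S' →ₗ[K] (∀ i, W i) := (LinearMap.pi F).comp S'.subtype
  have hΦ0 : ∀ f k, Φ f k = F k f.1 := fun f k => rfl
  have hΦ : Function.Surjective Φ := by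
    intro y
    choose f hf1 hf2 hf3 using fun i => hsurj i (y i)
    refine ⟨⟨∑ k, f k, Submodule.sum_mem _ fun k _ => hf1 k⟩, ?_⟩
    funext j
    rw [hΦ0, map_sum, Finset.sum_eq_single j]
    · exact hf2 j
    · intro k _ hk
      exact hf3 k j (Ne.symm hk)
    · intro h
      exact absurd (Finset.mem_univ _) h
  obtain ⟨σ, hσ⟩ := Φ.exists_rightInverse_of_surjective (LinearMap.range_eq_top.2 hΦ)
  let Θ : (↥A × (∀ i, W i)) →ₗ[K] MvPolynomial (Fin 3) K :=
    LinearMap.coprod ((LinearMap.mulLeft K H).comp A.subtype) (S'.subtype.comp σ)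
  have hΘ : ∀ x, Θ x = H * x.1.1 + (σ x.2).1 := fun x => rfl
  have key : ∀ x, G ∣ Θ x → x = 0 := by
    rintro ⟨a, c⟩ hdvd
    rw [hΘ] at hdvd
    have h5 : Φ (σ c) = c := LinearMap.congr_fun hσ c
    have h1 : c = 0 := by
      rw [← h5]
      funext k
      rw [hΦ0]
      exact hkill k _ _ hdvd
    have h2 : a = 0 := by
      rw [h1, map_zero] at hdvd
      have h3 : G ∣ H * a.1 := by
        have e : H * a.1 + ((0 : ↥S') : MvPolynomial (Fin 3) K) = H * a.1 := by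
          rw [Submodule.coe_zero, add_zero]
        rw [← e]
        exact hdvd
      rcases hG.prime.dvd_or_dvd h3 with h4 | h4
      · exact absurd h4 hHG
      · exact Subtype.ext (hAG a.1 a.2 h4)
    rw [h1, h2]
    rfl
  have hinj : Function.Injective Θ := by
    rw [← LinearMap.ker_eq_bot, LinearMap.ker_eq_bot']
    intro x hx
    exact key x (by rw [hx]; exact dvd_zero _)
  refine ⟨LinearMap.range Θ, ?_, inferInstance, ?_, ?_⟩
  · rintro _ ⟨x, rfl⟩
    rw [hΘ]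
    exact Submodule.add_mem _ (hmul _ x.1.2) (σ x.2).2
  · rintro _ ⟨x, rfl⟩ hdvd
    rw [key x hdvd, map_zero]
  · rw [LinearMap.finrank_range_of_inj hinj, Module.finrank_prod, Module.finrank_pi_fintype]

/-- One step of the growth, with several points. -/
theorem grow_mul {P : Fin s → Fin 2 → K} {w : Fin s → ℕ} {d : ℕ} {I : Finset (Fin s)} {n : ℕ}
    {N : Fin s → ℕ}
    (hjets : ∀ k ∈ I, ∀ p : MvPolynomial (Fin 2) K, ∃ f ∈ Sm P w d I (n + 1),
      tau (P k) f - p ∈ Id K (N k + 1) ∧ ∀ j ∈ I, j ≠ k → tau (P j) f ∈ Id K (N j + 1))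
    {G H : MvPolynomial (Fin 3) K} (hG : Irreducible G) (hm : ∀ k ∈ I, 1 ≤ w k)
    (hGm : ∀ k ∈ I, tau (P k) G ∈ Id K (w k)) (hH : H ∈ Sm P w d I 1)
    (hHm : ∀ k ∈ I, tau (P k) H ∈ Id K (w k - 1)) (hHG : ¬ G ∣ H)
    (A : Submodule K (MvPolynomial (Fin 3) K)) [Module.Finite K ↥A] (hA : A ≤ Sm P w d I n)
    (hAG : ∀ f ∈ A, G ∣ f → f = 0) :
    ∃ A' : Submodule K (MvPolynomial (Fin 3) K), A' ≤ Sm P w d I (n + 1) ∧
      Module.Finite K ↥A' ∧ (∀ f ∈ A', G ∣ f → f = 0) ∧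
      Module.finrank K ↥A + ∑ k ∈ I, (N k + 2).choose 2 ≤
        Module.finrank K ↥A' + ∑ k ∈ I, ((N k + 2 - w k).choose 2 + (N k + 3 - w k).choose 2) := by
  classical
  have hfin : ∀ c, Module.Finite K (Quo K c) := fun c => quo_finite _
  have hq := fun k : ↥I => quo_two (N := N k) (hGm k k.2) (hHm k k.2) (hm k k.2)
  choose J hJ1 hJ2 using hq
  let F : ∀ k : ↥I, MvPolynomial (Fin 3) K →ₗ[K] Quo K (N k + 1) ⧸ J k := fun k =>
    (J k).mkQ.comp ((Ideal.Quotient.mkₐ K (Id K (N k + 1))).toLinearMap.comp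
      (tau (P k)).toLinearMap)
  have hF : ∀ (k : ↥I) f, F k f = (J k).mkQ (Ideal.Quotient.mk (Id K (N k + 1)) (tau (P k) f)) :=
    fun k f => rfl
  have hs1 : ∀ (k : ↥I) (y : Quo K (N k + 1) ⧸ J k), ∃ f ∈ Sm P w d I (n + 1), F k f = y ∧
      ∀ j, j ≠ k → F j f = 0 := by
    intro k y
    obtain ⟨z, hz⟩ := (J k).mkQ_surjective y
    obtain ⟨p, rfl⟩ := Ideal.Quotient.mk_surjective z
    obtain ⟨f, hf1, hf2, hf3⟩ := hjets k k.2 p
    refine ⟨f, hf1, ?_, fun j hj => ?_⟩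
    · rw [hF, Ideal.Quotient.eq.2 hf2, hz]
    · rw [hF, Ideal.Quotient.eq_zero_iff_mem.2 (hf3 j j.2 fun h => hj (Subtype.ext h)), map_zero]
  have hs2 : ∀ (k : ↥I) (f a : MvPolynomial (Fin 3) K), G ∣ H * a + f → F k f = 0 := by
    intro k f a hdvd
    obtain ⟨q, hq⟩ := hdvd
    have h2 := congrArg (tau (P k)) hq
    rw [map_add, map_mul, map_mul] at h2
    have h3 : tau (P k) f = tau (P k) G * tau (P k) q + tau (P k) H * (-tau (P k) a) := by
      linear_combination h2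
    rw [hF, h3]
    exact (Submodule.Quotient.mk_eq_zero (J k)).2 (hJ1 k _ _)
  have hs3 : ∀ a ∈ A, H * a ∈ Sm P w d I (n + 1) := by
    intro a ha
    have h1 := sm_mul hH (hA ha)
    rw [add_comm 1 n] at h1
    exact h1
  obtain ⟨A', h1, h2, h3, h4⟩ := grow_abs
    (W := fun k : ↥I => Quo K (N k + 1) ⧸ J k) F hG hHG A (Sm P w d I (n + 1)) hs1 hs2 hs3 hAG
  · refine ⟨A', h1, h2, h3, ?_⟩
    rw [h4]
    have h1 : ∀ k : ↥I, (N k + 2).choose 2 ≤ Module.finrank K (Quo K (N k + 1) ⧸ J k) +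
        ((N k + 2 - w k).choose 2 + (N k + 3 - w k).choose 2) := by
      intro k
      have h1 := Submodule.finrank_quotient_add_finrank (J k)
      have h2 : Module.finrank K (Quo K (N k + 1)) = (N k + 1 + 1).choose 2 := finrank_quo _
      have e : N k + 1 + 1 = N k + 2 := rfl
      rw [e] at h2
      have h3 := hJ2 k
      omega
    have h2 := Finset.sum_le_sum fun (k : ↥I) (_ : k ∈ Finset.univ) => h1 k
    rw [Finset.sum_add_distrib] at h2
    rw [Finset.sum_coe_sort I fun k => (N k + 2).choose 2,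
      Finset.sum_coe_sort I fun k => ((N k + 2 - w k).choose 2 + (N k + 3 - w k).choose 2)] at h2
    omega

end Pool.Agent.J4H49
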