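import Pool.Agent.J4H49.RPts

set_option autoImplicit false

/-!
# The bound for the arithmetic genus of an irreducible curve with a given dimension of its system
-/

namespace Pool.Agent.J4H49

open MvPolynomial Pool.Agent.W609 Pool.Agent.W609.CR Pool.Agent.TH167.SH Pool.Agent.TH167.TT
  Pool.Agent.TH167.CL Pool.Agent.TH167.DD Pool.Agent.H248R5 Pool.Agent.H248R6

variable {K : Type} [Field K] {s : ℕ}

/-- The points with one more point in front. -/
def pcs (x : Fin 2 → K) (P : Fin s → Fin 2 → K) : Fin (s + 1) → Fin 2 → K := Fin.cons x P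

/-- The multiplicities with one more simple point in front. -/
def wcs (w : Fin s → ℕ) : Fin (s + 1) → ℕ := Fin.cons 1 w

theorem sp_cons {x : Fin 2 → K} {P : Fin s → Fin 2 → K} {w : Fin s → ℕ} {d : ℕ} {k : Fin s}
    {n c : ℕ} {f : MvPolynomial (Fin 3) K} :
    f ∈ Sp (pcs x P) (wcs w) d k.succ n c ↔ f ∈ Sp P w d k n c ∧ Van (aff x) n f := by
  rw [mem_sp, mem_sp]
  constructor
  · rintro ⟨h1, h2, h3⟩
    refine ⟨⟨h1, fun j hj => ?_, h3⟩, ?_⟩
    · exact h2 j.succ fun h => hj (Fin.succ_injective _ h)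
    · have h4 := h2 0 (Fin.succ_ne_zero k).symm
      have e : n * wcs w 0 = n := mul_one n
      rw [e] at h4
      exact h4
  · rintro ⟨⟨h1, h2, h3⟩, h4⟩
    refine ⟨h1, fun j => ?_, h3⟩
    refine Fin.cases (fun _ => ?_) (fun i hi => ?_) j
    · have e : n * wcs w 0 = n := mul_one n
      rw [e]
      exact h4
    · exact h2 i fun h => hi (by rw [h])

theorem sm_cons {x : Fin 2 → K} {P : Fin s → Fin 2 → K} {w : Fin s → ℕ} {d : ℕ}
    {I : Finset (Fin s)} {n : ℕ} {f : MvPolynomial (Fin 3) K} :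
    f ∈ Sm (pcs x P) (wcs w) d (I.map (Fin.succEmb s)) n ↔ f ∈ Sm P w d I n ∧ Van (aff x) n f := by
  have hmem : ∀ j : Fin s, j.succ ∈ I.map (Fin.succEmb s) ↔ j ∈ I := by
    intro j
    rw [Finset.mem_map]
    constructor
    · rintro ⟨i, hi, h⟩
      rwa [← Fin.succ_injective _ h]
    · intro h
      exact ⟨j, h, rfl⟩
  have hmem0 : (0 : Fin (s + 1)) ∉ I.map (Fin.succEmb s) := by
    rw [Finset.mem_map]
    rintro ⟨i, -, h⟩
    exact Fin.succ_ne_zero i h
  rw [mem_sm, mem_sm]
  constructor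
  · rintro ⟨h1, h2⟩
    refine ⟨⟨h1, fun j hj => ?_⟩, ?_⟩
    · exact h2 j.succ fun h => hj ((hmem j).1 h)
    · have h4 := h2 0 hmem0
      have e : n * wcs w 0 = n := mul_one n
      rw [e] at h4
      exact h4
  · rintro ⟨⟨h1, h2⟩, h4⟩
    refine ⟨h1, fun j => ?_⟩
    refine Fin.cases (fun _ => ?_) (fun i hi => ?_) j
    · have e : n * wcs w 0 = n := mul_one n
      rw [e]
      exact h4
    · exact h2 i fun h => hi ((hmem i).2 h)

/-- Adding a simple point of the curve. -/
theorem Gd.step [CharZero K] [IsAlgClosed K] {P : Fin s → Fin 2 → K} {w : Fin s → ℕ} {d : ℕ}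
    {I : Finset (Fin s)} {G : MvPolynomial (Fin 3) K} (h : Gd P w d I G)
    {f : MvPolynomial (Fin 3) K} (hf : f ∈ VS (fun j => aff (P j)) w d) (hfG : ¬ G ∣ f) :
    ∃ x : Fin 2 → K, Gd (pcs x P) (wcs w) d (I.map (Fin.succEmb s)) G ∧ eval (aff x) f ≠ 0 := by
  classical
  obtain ⟨hf1, hf2⟩ := (mem_VS _ _ _ _).1 hf
  obtain ⟨x, hx1, hx2, hx3⟩ := exists_simple h.irr h.hom h.deg hf1 hfG P
  -- the correction
  have hcor : ∀ g : MvPolynomial (Fin 3) K, Van (aff x) 1
      (g - (eval (aff x) g / eval (aff x) f) • f) := by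
    intro g
    rw [van_one', map_sub, smul_eval, div_mul_cancel₀ _ hx2, sub_self]
  have hfsp : ∀ (k : Fin s) (c : ℕ), c ≤ w k → f ∈ Sp P w d k 1 c := by
    intro k c hc
    refine mem_sp.2 ⟨by rw [one_mul]; exact hf1, fun j _ => by rw [one_mul]; exact hf2 j,
      van_mono hc (hf2 k)⟩
  have hfsm : f ∈ Sm P w d I 1 :=
    mem_sm.2 ⟨by rw [one_mul]; exact hf1, fun j _ => by rw [one_mul]; exact hf2 j⟩
  have hftau : ∀ k, tau (P k) f ∈ Id K (w k) := fun k => (van_tau hf1).1 (hf2 k)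
  refine ⟨x, ⟨?_, h.irr, h.hom, h.deg, ?_, ?_, ?_, ?_⟩, hx2⟩
  · unfold pcs
    rw [Fin.cons_injective_iff]
    refine ⟨?_, h.inj⟩
    rintro ⟨j, hj⟩
    exact hx3 j hj
  · intro j
    refine Fin.cases ?_ (fun i => ?_) j
    · exact hx1
    · exact h.ord i
  · intro k hk
    obtain ⟨i, hi, rfl⟩ := Finset.mem_map.1 hk
    exact h.two i hi
  · intro k hk
    obtain ⟨i, hi, rfl⟩ := Finset.mem_map.1 hk
    intro c hc p hp
    obtain ⟨g, hg1, hg2⟩ := mem_ld.1 (h.full i hi c hc p hp)
    have h2 := h.two i hi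
    refine mem_ld.2 ⟨g - (eval (aff x) g / eval (aff x) f) • f, ?_, ?_⟩
    · refine sp_cons.2 ⟨Submodule.sub_mem _ hg1 (Submodule.smul_mem _ _
        (hfsp i c (by omega))), hcor g⟩
    · show homogeneousComponent c (tau (P i) (g - (eval (aff x) g / eval (aff x) f) • f)) = p
      have h3 : homogeneousComponent c (tau (P i) f) = 0 :=
        hc_of_mem (id_mono (by omega) (hftau i))
      rw [map_sub, map_sub, hg2, map_smul, map_smul, h3, smul_zero, sub_zero]
  · obtain ⟨H, h1, h2, k, hk, h3⟩ := h.exH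
    refine ⟨H - (eval (aff x) H / eval (aff x) f) • f, ?_, ?_, k.succ,
      Finset.mem_map.2 ⟨k, hk, rfl⟩, ?_⟩
    · exact sm_cons.2 ⟨Submodule.sub_mem _ h1 (Submodule.smul_mem _ _ hfsm), hcor H⟩
    · intro j hj
      obtain ⟨i, hi, rfl⟩ := Finset.mem_map.1 hj
      show tau (P i) (H - (eval (aff x) H / eval (aff x) f) • f) ∈ Id K (w i - 1)
      rw [map_sub, map_smul, smul_eq_C_mul]
      exact Ideal.sub_mem _ (h2 i hi) (Ideal.mul_mem_left _ _ (id_mono (Nat.sub_le _ _) (hftau i)))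
    · show tau (P k) (H - (eval (aff x) H / eval (aff x) f) • f) ∉ Id K (w k)
      intro hcon
      apply h3
      have h4 : tau (P k) H = tau (P k) (H - (eval (aff x) H / eval (aff x) f) • f) +
          C (eval (aff x) H / eval (aff x) f) * tau (P k) f := by
        rw [map_sub, map_smul, smul_eq_C_mul]
        ring
      rw [h4]
      exact Ideal.add_mem _ hcon (Ideal.mul_mem_left _ _ (hftau k))

/-- The bound, for systems of dimension `r`. -/
theorem Gd.main [CharZero K] [IsAlgClosed K] : ∀ (r : ℕ) {s : ℕ} {P : Fin s → Fin 2 → K}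
    {w : Fin s → ℕ} {d : ℕ} {I : Finset (Fin s)} {G : MvPolynomial (Fin 3) K}
    (_ : Gd P w d I G) (_ : r + 1 ≤ Module.finrank K ↥(VS (fun j => aff (P j)) w d)) (n : ℕ)
    (_ : ∑ k ∈ I, rl (w k) + 1 ≤
      (n : ℤ) * (∑ k ∈ I, (w k : ℤ) * (w k - 2) - (ip d w d w - r))),
    ip d w d w - kk d w + 2 ≤
      2 * (n : ℤ) * ((ip d w d w - r) + ∑ k ∈ I, (w k : ℤ)) + ∑ k ∈ I, rl (w k) := by
  intro r
  induction r with
  | zero =>
    intro s P w d I G h _ n hn
    have := h.bnd n (by simpa using hn)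
    simpa using this
  | succ r ih =>
    intro s P w d I G h hr n hn
    classical
    obtain ⟨f, hf, hfG⟩ : ∃ f ∈ VS (fun j => aff (P j)) w d, ¬ G ∣ f := by
      by_contra hcon
      push Not at hcon
      have hfin := mult_finite G 0
      have h1 : VS (fun j => aff (P j)) w d ≤ mult G 0 := by
        intro f hf
        exact mem_mult h.hom h.irr.ne_zero ((mem_VS _ _ _ _).1 hf).1 (hcon f hf) fun _ => rfl
      have h2 := Submodule.finrank_mono h1
      rw [mult_finrank h.irr.ne_zero] at h2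
      have h3 : (0 + 2).choose 2 = 1 := rfl
      omega
    obtain ⟨x, hx, hfx⟩ := h.step hf hfG
    have hfinV : Module.Finite K ↥(VS (fun j => aff (P j)) w d) := vs_fin _ _ _
    have hfinV1 : Module.Finite K ↥(VS (fun j => aff (pcs x P j)) (wcs w) d) := vs_fin _ _ _
    have hdim := ev_dim {x} (VS (fun j => aff (P j)) w d) (VS (fun j => aff (pcs x P j)) (wcs w) d)
      (by
        intro g hg hgx
        obtain ⟨g1, g2⟩ := (mem_VS _ _ _ _).1 hg
        refine (mem_VS _ _ _ _).2 ⟨g1, fun j => ?_⟩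
        refine Fin.cases ?_ (fun i => ?_) j
        · exact van_one'.2 (hgx x (Finset.mem_singleton_self _))
        · exact g2 i)
    have h1 := ev_one x (VS (fun j => aff (P j)) w d)
    have e1 : ip d (wcs w) d (wcs w) = ip d w d w - 1 := by
      unfold ip
      rw [Fin.sum_univ_succ]
      have e0 : wcs w 0 = 1 := rfl
      have es : ∀ i : Fin s, wcs w i.succ = w i := fun _ => rfl
      rw [e0]
      simp only [es]
      push_cast
      ring
    have e2 : kk d (wcs w) = kk d w - 1 := by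
      unfold kk
      rw [Fin.sum_univ_succ]
      have e0 : wcs w 0 = 1 := rfl
      have es : ∀ i : Fin s, wcs w i.succ = w i := fun _ => rfl
      rw [e0]
      simp only [es]
      push_cast
      ring
    have s1 : ∑ k ∈ I.map (Fin.succEmb s), rl (wcs w k) = ∑ k ∈ I, rl (w k) := by
      rw [Finset.sum_map]
      rfl
    have s2 : ∑ k ∈ I.map (Fin.succEmb s), (wcs w k : ℤ) * (wcs w k - 2) =
        ∑ k ∈ I, (w k : ℤ) * (w k - 2) := by
      rw [Finset.sum_map]
      rfl
    have s3 : ∑ k ∈ I.map (Fin.succEmb s), (wcs w k : ℤ) = ∑ k ∈ I, (w k : ℤ) := by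
      rw [Finset.sum_map]
      rfl
    have h2 := ih hx (by omega) n (by
      rw [s1, s2, e1]
      push_cast at hn
      have e3 : ip d w d w - 1 - (r : ℤ) = ip d w d w - (r + 1) := by ring
      rw [e3]
      exact hn)
    rw [s1, s3, e1, e2] at h2
    push_cast
    have e3 : ip d w d w - 1 - (r : ℤ) = ip d w d w - (r + 1) := by ring
    rw [e3] at h2
    linarith

end Pool.Agent.J4H49
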