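import Pool.Agent.J4H49.RMain
import Pool.Agent.TH167.SH.Final

set_option autoImplicit false

/-!
# The bound for the arithmetic genus in its final form
-/

namespace Pool.Agent.J4H49

open MvPolynomial Pool.Agent.W609 Pool.Agent.W609.CR Pool.Agent.TH167.SH Pool.Agent.TH167.TT
  Pool.Agent.TH167.CL Pool.Agent.TH167.DD Pool.Agent.H248R5 Pool.Agent.H248R6

variable {K : Type} [Field K] {s : ℕ}

theorem rl_nonneg {m : ℕ} (hm : 2 ≤ m) : 0 ≤ rl m := by
  obtain ⟨a, rfl⟩ : ∃ a, m = a + 2 := ⟨m - 2, by omega⟩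
  unfold rl
  push_cast
  have : (0 : ℤ) ≤ a := Int.natCast_nonneg a
  have e : ((a : ℤ) + 2 - 1) * (a + 2) * (2 * (a + 2) - 5) + 2 =
      2 * (a : ℤ) ^ 3 + 5 * a ^ 2 + a := by ring
  rw [e]
  positivity

theorem rl_le {m M : ℕ} (hm : 2 ≤ m) (hM : m ≤ M) : rl m ≤ 2 * M * ((m : ℤ) * (m - 2)) := by
  obtain ⟨a, rfl⟩ : ∃ a, m = a + 2 := ⟨m - 2, by omega⟩
  obtain ⟨b, rfl⟩ : ∃ b, M = a + 2 + b := ⟨M - (a + 2), by omega⟩
  unfold rl
  push_cast
  have ha : (0 : ℤ) ≤ a := Int.natCast_nonneg a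
  have hb : (0 : ℤ) ≤ b := Int.natCast_nonneg b
  have e : 2 * ((a : ℤ) + 2 + b) * (((a : ℤ) + 2) * (a + 2 - 2)) -
      (((a : ℤ) + 2 - 1) * (a + 2) * (2 * (a + 2) - 5) + 2) =
      3 * (a : ℤ) ^ 2 + 7 * a + 2 * b * a ^ 2 + 4 * b * a := by ring
  have h : (0 : ℤ) ≤ 3 * (a : ℤ) ^ 2 + 7 * a + 2 * b * a ^ 2 + 4 * b * a := by positivity
  linarith

/-- The arithmetic. -/
theorem num_fin {T L R c x g : ℤ} (hR : 0 ≤ R) (hL : 0 ≤ L) (hc0 : 0 ≤ c) (hx : x ≤ c)
    (hc : c < T)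
    (h : ∀ n : ℕ, R + 1 ≤ (n : ℤ) * (T - x) → g ≤ 2 * (n : ℤ) * (x + L) + R) :
    (T - c) * (g - 2 * c - 2 * L) ≤ R * (T + c + 2 * L) := by
  obtain ⟨y, hy⟩ : ∃ y, y = T - c := ⟨_, rfl⟩
  have hy0 : 0 < y := by linarith
  -- the least `n`
  obtain ⟨n, hn⟩ : ∃ n : ℕ, (n : ℤ) = R / y + 1 :=
    ⟨(R / y + 1).toNat, Int.toNat_of_nonneg (by have := Int.ediv_nonneg hR hy0.le; linarith)⟩
  have h1 : R + 1 ≤ (n : ℤ) * y := by
    rw [hn]
    have h2 := Int.lt_ediv_add_one_mul_self R hy0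
    linarith
  have h2 : (n : ℤ) * y ≤ R + y := by
    rw [hn, add_mul, one_mul]
    have h3 := Int.ediv_mul_le R hy0.ne'
    linarith
  have hn0 : (0 : ℤ) ≤ n := Int.natCast_nonneg n
  have h3 : R + 1 ≤ (n : ℤ) * (T - x) := by
    refine h1.trans (mul_le_mul_of_nonneg_left ?_ hn0)
    linarith
  have h4 := h n h3
  have h5 : g ≤ 2 * (n : ℤ) * (c + L) + R := by
    have h6 : 2 * (n : ℤ) * (x + L) ≤ 2 * (n : ℤ) * (c + L) :=
      mul_le_mul_of_nonneg_left (by linarith) (by linarith)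
    linarith
  rw [← hy]
  have hT : T = y + c := by linarith
  rw [hT]
  have h7 : y * g ≤ y * (2 * (n : ℤ) * (c + L) + R) := mul_le_mul_of_nonneg_left h5 hy0.le
  have h8 : (n : ℤ) * y * (2 * (c + L)) ≤ (R + y) * (2 * (c + L)) :=
    mul_le_mul_of_nonneg_right h2 (by linarith)
  nlinarith

/-- The bound in its final form. -/
theorem Gd.fin [CharZero K] [IsAlgClosed K] {P : Fin s → Fin 2 → K} {w : Fin s → ℕ} {d : ℕ}
    {I : Finset (Fin s)} {G : MvPolynomial (Fin 3) K} (h : Gd P w d I G) {r c : ℕ}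
    (hr : r + 1 ≤ Module.finrank K ↥(VS (fun j => aff (P j)) w d))
    (hc : ip d w d w - r ≤ c) (hT : (c : ℤ) < ∑ k ∈ I, (w k : ℤ) * (w k - 2)) :
    (∑ k ∈ I, (w k : ℤ) * (w k - 2) - c) *
        (ip d w d w - kk d w + 2 - 2 * c - 2 * ∑ k ∈ I, (w k : ℤ)) ≤
      (∑ k ∈ I, rl (w k)) * (∑ k ∈ I, (w k : ℤ) * (w k - 2) + c + 2 * ∑ k ∈ I, (w k : ℤ)) :=
  num_fin (Finset.sum_nonneg fun k hk => rl_nonneg (h.two k hk))
    (Finset.sum_nonneg fun _k _ => Int.natCast_nonneg _) (Int.natCast_nonneg c) hc hT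
    fun n hn => Gd.main r h hr n hn

/-- One step: adding a simple point of the curve to a system of positive dimension. -/
theorem Gd.next [CharZero K] [IsAlgClosed K] {P : Fin s → Fin 2 → K} {w : Fin s → ℕ} {d : ℕ}
    {I : Finset (Fin s)} {G : MvPolynomial (Fin 3) K} (h : Gd P w d I G) {r : ℕ}
    (hr : r + 2 ≤ Module.finrank K ↥(VS (fun j => aff (P j)) w d)) :
    0 ≤ ip d w d w ∧ ∃ x : Fin 2 → K, Gd (pcs x P) (wcs w) d (I.map (Fin.succEmb s)) G ∧
      r + 1 ≤ Module.finrank K ↥(VS (fun j => aff (pcs x P j)) (wcs w) d) ∧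
      ip d (wcs w) d (wcs w) = ip d w d w - 1 := by
  classical
  obtain ⟨f, hf, hfG⟩ : ∃ f ∈ VS (fun j => aff (P j)) w d, ¬ G ∣ f := by
    by_contra hcon
    push Not at hcon
    have hfin := mult_finite G 0
    have h1 : VS (fun j => aff (P j)) w d ≤ mult G 0 := by
      intro f hf
      exact mem_mult h.hom h.irr.ne_zero ((mem_VS _ _ _ _).1 hf).1 (hcon f hf) fun _ => rfl
    have h2 := Submodule.finrank_mono h1
    rw [mult_finrank h.irr.ne_zero] at h2
    have h3 : (0 + 2).choose 2 = 1 := rfl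
    omega
  obtain ⟨hf1, hf2⟩ := (mem_VS _ _ _ _).1 hf
  constructor
  · have hf0 : f ≠ 0 := fun h0 => hfG (by rw [h0]; exact dvd_zero _)
    have hb := bezQ h.inj h.irr h.hom (fun j => (h.ord j).1) hf0 hf1 hf2 hfG (Q := ∅)
      (fun j => Finset.notMem_empty _) (fun q hq => absurd hq (Finset.notMem_empty q))
      (fun q hq => absurd hq (Finset.notMem_empty q))
    unfold ip
    rw [Finset.card_empty, add_zero] at hb
    have hb' : ((∑ j, w j * w j : ℕ) : ℤ) ≤ (d : ℤ) * d := by exact_mod_cast hb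
    push_cast at hb'
    linarith
  · obtain ⟨x, hx, hfx⟩ := h.step hf hfG
    have hfinV : Module.Finite K ↥(VS (fun j => aff (P j)) w d) := vs_fin _ _ _
    have hfinV1 : Module.Finite K ↥(VS (fun j => aff (pcs x P j)) (wcs w) d) := vs_fin _ _ _
    have hdim := ev_dim {x} (VS (fun j => aff (P j)) w d) (VS (fun j => aff (pcs x P j)) (wcs w) d)
      (by
        intro g hg hgx
        obtain ⟨g1, g2⟩ := (mem_VS _ _ _ _).1 hg
        refine (mem_VS _ _ _ _).2 ⟨g1, fun j => ?_⟩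
        refine Fin.cases ?_ (fun i => ?_) j
        · exact van_one'.2 (hgx x (Finset.mem_singleton_self _))
        · exact g2 i)
    have h1 := ev_one x (VS (fun j => aff (P j)) w d)
    refine ⟨x, hx, by omega, ?_⟩
    unfold ip
    rw [Fin.sum_univ_succ]
    have e0 : wcs w 0 = 1 := rfl
    have es : ∀ i : Fin s, wcs w i.succ = w i := fun _ => rfl
    rw [e0]
    simp only [es]
    push_cast
    ring

/-- The dimension of the system of an irreducible curve is at most `C ^ 2 + 1`. -/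
theorem Gd.low [CharZero K] [IsAlgClosed K] : ∀ (r : ℕ) {s : ℕ} {P : Fin s → Fin 2 → K}
    {w : Fin s → ℕ} {d : ℕ} {I : Finset (Fin s)} {G : MvPolynomial (Fin 3) K}
    (_ : Gd P w d I G) (_ : r + 2 ≤ Module.finrank K ↥(VS (fun j => aff (P j)) w d)),
    (r : ℤ) ≤ ip d w d w := by
  intro r
  induction r with
  | zero =>
    intro s P w d I G h hr
    have := (h.next hr).1
    simpa using this
  | succ r ih =>
    intro s P w d I G h hr
    obtain ⟨-, x, h1, h2, h3⟩ := h.next hr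
    have h4 := ih h1 h2
    rw [h3] at h4
    push_cast
    linarith

/-- A special irreducible curve of positive dimension has nonnegative canonical degree. -/
theorem special_kk [CharZero K] [IsAlgClosed K] {P : Fin s → Fin 2 → K}
    (hP : Function.Injective P) {w : Fin s → ℕ} {d : ℕ} {G : MvPolynomial (Fin 3) K}
    (hG : Irreducible G) (hGd : G.IsHomogeneous d) (hd : 2 ≤ d)
    (hord : ∀ j, Ord (aff (P j)) (w j) G) {r : ℕ} (hr1 : 1 ≤ r)
    (hr : Module.finrank K ↥(VS (fun j => aff (P j)) w d) = r + 1)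
    (hsp : chi d w < Module.finrank K ↥(VS (fun j => aff (P j)) w d)) : kk d w ≤ 0 := by
  classical
  have hfinV : Module.Finite K ↥(VS (fun j => aff (P j)) w d) := vs_fin _ _ _
  have hGV : G ∈ VS (fun j => aff (P j)) w d := (mem_VS _ _ _ _).2 ⟨hGd, fun j => (hord j).1⟩
  -- a complement of the line of `G`
  obtain ⟨A, hA1, hA2, hA3⟩ : ∃ A : Submodule K (MvPolynomial (Fin 3) K),
      A ≤ VS (fun j => aff (P j)) w d ∧ G ∉ A ∧ r ≤ Module.finrank K ↥A := by
    obtain ⟨B, hB⟩ := Submodule.exists_isCompl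
      (Submodule.span K {(⟨G, hGV⟩ : ↥(VS (fun j => aff (P j)) w d))})
    have hne : (⟨G, hGV⟩ : ↥(VS (fun j => aff (P j)) w d)) ≠ 0 := fun h0 =>
      hG.ne_zero (congrArg Subtype.val h0)
    refine ⟨B.map (VS (fun j => aff (P j)) w d).subtype, ?_, ?_, ?_⟩
    · rintro f ⟨g, -, rfl⟩
      exact g.2
    · rintro ⟨g, hg, hgG⟩
      have hg' : g = ⟨G, hGV⟩ := Subtype.ext hgG
      rw [hg'] at hg
      have h1 := Submodule.disjoint_def.1 hB.disjoint _ (Submodule.mem_span_singleton_self _) hg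
      exact hne h1
    · have h1 := Submodule.finrank_add_eq_of_isCompl hB
      rw [finrank_span_singleton hne, hr] at h1
      rw [Submodule.finrank_map_subtype_eq]
      omega
  have hAf : Module.Finite K ↥A := Submodule.finiteDimensional_of_le hA1
  have hAG : ∀ f ∈ A, G ∣ f → f = 0 := by
    intro f hf hdvd
    by_contra hf0
    have hf1 := ((mem_VS _ _ _ _).1 (hA1 hf)).1
    obtain ⟨q, rfl⟩ := hdvd
    have hq0 : q ≠ 0 := right_ne_zero_of_mul hf0
    have h1 := MvPolynomial.totalDegree_mul_of_isDomain hG.ne_zero hq0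
    rw [hf1.totalDegree hf0, hGd.totalDegree hG.ne_zero] at h1
    have h2 : q.totalDegree = 0 := by omega
    rw [totalDegree_eq_zero_iff_eq_C] at h2
    rw [h2] at hf hq0
    have hc0 : coeff 0 q ≠ 0 := fun h0 => hq0 (by rw [h0, map_zero])
    apply hA2
    have h3 := A.smul_mem (coeff 0 q)⁻¹ hf
    have h4 : (coeff 0 q)⁻¹ • (G * C (coeff 0 q)) = G := by
      rw [smul_eq_C_mul, mul_comm G, ← mul_assoc, ← C_mul, inv_mul_cancel₀ hc0, C_1, one_mul]
    rwa [h4] at h3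
  have h1 := cliffG hG hGd hd hP hord (u := w) (a := d) A hA1 hAG (by omega)
  have h2 := two_chi d w
  rw [hr] at hsp
  obtain ⟨S, hS⟩ : ∃ S : ℕ, S = ∑ j, w j * w j := ⟨_, rfl⟩
  obtain ⟨S1, hS1⟩ : ∃ S1 : ℕ, S1 = ∑ j, w j := ⟨_, rfl⟩
  have e3 : ip d w d w = (d : ℤ) * d - S := by
    rw [hS]
    unfold ip
    push_cast
    rfl
  have e4 : kk d w = 3 * (d : ℤ) - S1 := by
    rw [hS1]
    unfold kk
    push_cast
    rfl
  rw [← hS, ← hS1] at h1
  push_cast at hsp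
  rcases h1 with h1 | h1
  · have h3 : (2 * (Module.finrank K ↥A : ℤ) + S ≤ (d : ℤ) * d + 2) := by exact_mod_cast h1
    have h4 : (r : ℤ) ≤ Module.finrank K ↥A := by exact_mod_cast hA3
    linarith
  · exfalso
    have h3 : (2 * (Module.finrank K ↥A : ℤ) + 2 * S + (d : ℤ) * d + S1 ≤
        2 * ((d : ℤ) * d) + 3 * d + S) := by exact_mod_cast h1
    have h4 : (r : ℤ) ≤ Module.finrank K ↥A := by exact_mod_cast hA3
    linarith

end Pool.Agent.J4H49
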