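import Pool.Agent.J4H49.RBound
import Pool.Agent.J4H49.RFull

set_option autoImplicit false

/-!
# Adding simple points of the curve
-/

namespace Pool.Agent.J4H49

open MvPolynomial Pool.Agent.W609 Pool.Agent.W609.CR Pool.Agent.TH167.SH Pool.Agent.TH167.TT
  Pool.Agent.TH167.CL Pool.Agent.TH167.DD Pool.Agent.H248R5 Pool.Agent.H248R6

variable {K : Type} [Field K] {s : ℕ}

/-- The data of an irreducible curve with the singular points of `I`. -/
structure Gd (P : Fin s → Fin 2 → K) (w : Fin s → ℕ) (d : ℕ) (I : Finset (Fin s))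
    (G : MvPolynomial (Fin 3) K) : Prop where
  inj : Function.Injective P
  irr : Irreducible G
  hom : G.IsHomogeneous d
  deg : 2 ≤ d
  ord : ∀ j, Ord (aff (P j)) (w j) G
  two : ∀ k ∈ I, 2 ≤ w k
  full : ∀ k ∈ I, Fu P w d k 1 1
  exH : ∃ H ∈ Sm P w d I 1, (∀ k ∈ I, tau (P k) H ∈ Id K (w k - 1)) ∧
    ∃ k ∈ I, tau (P k) H ∉ Id K (w k)

theorem Gd.bnd [CharZero K] [IsAlgClosed K] {P : Fin s → Fin 2 → K} {w : Fin s → ℕ} {d : ℕ}
    {I : Finset (Fin s)} {G : MvPolynomial (Fin 3) K} (h : Gd P w d I G) (n : ℕ)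
    (hn : ∑ k ∈ I, rl (w k) + 1 ≤ (n : ℤ) * (∑ k ∈ I, (w k : ℤ) * (w k - 2) - ip d w d w)) :
    ip d w d w - kk d w + 2 ≤
      2 * (n : ℤ) * (ip d w d w + ∑ k ∈ I, (w k : ℤ)) + ∑ k ∈ I, rl (w k) := by
  obtain ⟨H, h1, h2, k, hk, h3⟩ := h.exH
  refine bnd_mul h.inj h.irr h.hom h.deg h.ord h.two h1 h2 ?_ h.full n hn
  rintro ⟨q, rfl⟩
  apply h3
  rw [map_mul]
  exact Ideal.mul_mem_right _ _ ((van_tau h.hom).1 (h.ord k).1)

/-- The data of an irreducible curve through general points. -/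
theorem gd_of_alg [CharZero K] {P : Fin s → Fin 2 → K}
    (hP : AlgebraicIndependent ℚ (fun ij : Fin s × Fin 2 => P ij.1 ij.2))
    {w : Fin s → ℕ} {d : ℕ} {G : MvPolynomial (Fin 3) K} (hG : Irreducible G)
    (hGd : G.IsHomogeneous d) (hord : ∀ j, Ord (aff (P j)) (w j) G) {I : Finset (Fin s)}
    (hI : I.Nonempty) (hw : ∀ k ∈ I, 2 ≤ w k) : Gd P w d I G := by
  classical
  obtain ⟨k, hk⟩ := hI
  obtain ⟨a, ha⟩ : ∃ a, w k = a + 1 := ⟨w k - 1, by have := hw k hk; omega⟩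
  have hGV : G ∈ Sp P w d k 1 (a + 1) := by
    rw [mem_sp_one, ← ha, Function.update_eq_self]
    exact (mem_VS _ _ _ _).2 ⟨hGd, fun j => (hord j).1⟩
  have hl0 : homogeneousComponent (a + 1) (tau (P k) G) ≠ 0 := by
    intro h
    have h1 := mem_succ (sp_tau hGV) h
    rw [← ha] at h1
    exact (hord k).2 ((van_tau hGd).2 h1)
  have hl1 : (homogeneousComponent (a + 1) (tau (P k) G)).IsHomogeneous (a + 1) :=
    homogeneousComponent_isHomogeneous _ _
  obtain ⟨i, hi⟩ : ∃ i, pderiv i (homogeneousComponent (a + 1) (tau (P k) G)) ≠ 0 := by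
    by_contra hcon
    push Not at hcon
    exact hl0 (zero_of_pd hl1 (by omega) hcon)
  obtain ⟨D, hD⟩ := exists_D hP
  obtain ⟨k1, k2⟩ := mv_gen hD hGV (Pi.single i 1)
  obtain ⟨E, hE⟩ : ∃ E, E = (Pi.single i 1 : Fin 2 → K) 0 • D (k, 0) +
    (Pi.single i 1 : Fin 2 → K) 1 • D (k, 1) := ⟨_, rfl⟩
  rw [← hE] at k1 k2
  refine ⟨inj_of_alg hP, hG, hGd, ?_, hord, hw, fun k hk => fu_one hP hG hGd hord (hw k hk),
    dG E G, sp_le_sm hk k1, fun j hj => ?_, k, hk, fun hcon => ?_⟩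
  · have h1 := van_le hG.ne_zero hGd (hord k).1
    have := hw k hk
    omega
  · by_cases hjk : j = k
    · rw [hjk, ha]
      exact sp_tau k1
    · obtain ⟨g1, g2, -⟩ := mem_sp.1 k1
      have h2 := (van_tau g1).1 (g2 j hjk)
      rw [one_mul] at h2
      exact id_mono (Nat.sub_le _ _) h2
  · rw [ha] at hcon
    rw [hc_of_mem hcon] at k2
    have h3 : dd' (Pi.single i 1) (homogeneousComponent (a + 1) (tau (P k) G)) = 0 := by
      rw [← neg_eq_zero, ← k2]
    rw [dd'_apply] at h3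
    apply hi
    fin_cases i
    · simpa using h3
    · simpa using h3

/-- A simple point of the curve outside of another curve and of finitely many points. -/
theorem exists_simple [CharZero K] [IsAlgClosed K] {G : MvPolynomial (Fin 3) K} {d : ℕ}
    (hG : Irreducible G) (hGd : G.IsHomogeneous d) (hd : 2 ≤ d) {f : MvPolynomial (Fin 3) K}
    {e : ℕ} (hf : f.IsHomogeneous e) (hfG : ¬ G ∣ f) (P : Fin s → Fin 2 → K) :
    ∃ x : Fin 2 → K, Ord (aff x) 1 G ∧ eval (aff x) f ≠ 0 ∧ ∀ j, P j ≠ x := by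
  classical
  obtain ⟨l, hl⟩ : ∃ l, ¬ G ∣ pderiv l G := by
    by_contra hcon
    push Not at hcon
    exact pd_dvd hG hGd hcon
  have hmf : ∀ j, ¬ G ∣ mf 0 (P j) := by
    intro j hdvd
    obtain ⟨q, hq⟩ := hdvd
    have h0 := mf_ne (K := K) 0 (P j)
    have hq0 : q ≠ 0 := fun h => h0 (by rw [hq, h, mul_zero])
    have h1 := (mf_hom (K := K) 0 (P j)).totalDegree h0
    have h2 := MvPolynomial.totalDegree_mul_of_isDomain hG.ne_zero hq0
    rw [← hq, h1, hGd.totalDegree hG.ne_zero] at h2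
    omega
  have hprod : ¬ G ∣ ∏ j, mf 0 (P j) := by
    intro h
    obtain ⟨j, -, hj⟩ := (hG.prime.dvd_finsetProd_iff _).1 h
    exact hmf j hj
  have hprodh : (∏ j, mf 0 (P j)).IsHomogeneous (∑ j : Fin s, 1) :=
    IsHomogeneous.prod _ _ _ fun j _ => mf_hom 0 _
  obtain ⟨x, hx1, hx2⟩ := exists_point_on hG hGd hd
    ((hf.mul (hGd.pderiv (i := l))).mul hprodh) (fun h => by
      rcases hG.prime.dvd_or_dvd h with h1 | h1
      · rcases hG.prime.dvd_or_dvd h1 with h2 | h2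
        · exact hfG h2
        · exact hl h2
      · exact hprod h1)
  rw [map_mul, map_mul] at hx2
  refine ⟨x, ⟨van_one'.2 hx1, fun h => ?_⟩, left_ne_zero_of_mul (left_ne_zero_of_mul hx2),
    fun j hj => ?_⟩
  · exact right_ne_zero_of_mul (left_ne_zero_of_mul hx2) (pd_mem h l)
  · apply right_ne_zero_of_mul hx2
    rw [map_prod]
    refine Finset.prod_eq_zero (Finset.mem_univ j) ?_
    rw [← hj, eval_mf, sub_self]

end Pool.Agent.J4H49
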