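import Pool.Agent.TH167.TT.Sing

set_option autoImplicit false

/-!
# Common singular points of a space of forms with constant coefficients
-/

namespace Pool.Agent.J4H49

open MvPolynomial Pool.Agent.W609 Pool.Agent.W609.CR Pool.Agent.TH167.SH Pool.Agent.TH167.TT
  Pool.Agent.H248R5 Pool.Agent.H248R6

/-- The common zeros of two coprime forms with constant coefficients are constant. -/
theorem coprime_const {K : Type} [Field K] [CharZero K] (D : Derivation ℚ K K)
    {f0 h : MvPolynomial (Fin 3) (cst D)} {d e : ℕ} (hhom : f0.IsHomogeneous d)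
    (hhh : h.IsHomogeneous e) (hne : f0 ≠ 0) (hv : IsRelPrime f0 h) {p : Fin 2 → K}
    (hfe : eval (aff p) (MvPolynomial.map (cst D).subtype f0) = 0)
    (hhe : eval (aff p) (MvPolynomial.map (cst D).subtype h) = 0) (a : Fin 2) : D (p a) = 0 := by
  classical
  obtain ⟨F, hF⟩ : ∃ F : Subfield K, F = cst D := ⟨_, rfl⟩
  have hmemF : ∀ x : K, x ∈ cst D ↔ D x = 0 := fun x => Iff.rfl
  by_cases hh0 : h = 0
  · exfalso
    rw [hh0, isRelPrime_zero_right] at hv
    have h2 := (MvPolynomial.isUnit_iff_totalDegree_of_isReduced.1 hv)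
    rw [MvPolynomial.totalDegree_eq_zero_iff_eq_C.1 h2.2, map_C, eval_C] at hfe
    exact h2.1.ne_zero ((cst D).subtype.injective (hfe.trans (map_zero _).symm))
  · obtain ⟨n, c, hc, A, B, hAB⟩ := exists_elim hhom hhh hne hh0 hv
      (l := Fin.castSucc a) (by
        intro h2
        have := congrArg Fin.val h2
        simp at this
        omega)
    have h2 := congrArg (fun q => eval (aff p) (MvPolynomial.map (cst D).subtype q)) hAB
    simp only [map_add, map_mul, hfe, hhe, mul_zero, add_zero, map_sum, map_pow, map_X, map_C,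
      eval_X, eval_C] at h2
    have haff : aff p (Fin.castSucc a) = p a := by
      fin_cases a
      · rfl
      · rfl
    have haff2 : aff p 2 = 1 := rfl
    simp only [haff, haff2, one_pow, mul_one] at h2
    refine const_root D n (∑ i : Fin (n + 1), Polynomial.monomial (i : ℕ) ((c i : cst D) : K))
      ?_ ?_ ?_ ?_
    · refine Polynomial.natDegree_sum_le_of_forall_le _ _ fun i _ => ?_
      refine (Polynomial.natDegree_monomial_le _).trans ?_
      have := i.2
      omega
    · intro h3
      apply hc
      funext i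
      have h4 := congrArg (fun q => Polynomial.coeff q (i : ℕ)) h3
      simp only [Polynomial.finsetSum_coeff, Polynomial.coeff_monomial, Polynomial.coeff_zero] at h4
      rw [Finset.sum_eq_single i] at h4
      · rw [if_pos rfl] at h4
        exact Subtype.ext h4
      · intro j _ hj
        rw [if_neg]
        intro h5
        exact hj (Fin.ext h5)
      · intro h
        exact absurd (Finset.mem_univ _) h
    · intro j
      rw [Polynomial.finsetSum_coeff, map_sum]
      refine Finset.sum_eq_zero fun i _ => ?_
      rw [Polynomial.coeff_monomial]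
      split_ifs
      · exact (hmemF _).1 (c i).2
      · exact map_zero D
    · rw [Polynomial.eval_finsetSum]
      rw [h2]
      refine Finset.sum_congr rfl fun i _ => ?_
      rw [Polynomial.eval_monomial]
      rfl

/-- A form is coprime to a combination of forms without a common factor. -/
theorem exists_rel_fam {F : Type} [Field F] [CharZero F] {ι : Type} [Fintype ι]
    {f : MvPolynomial (Fin 3) F} (hf0 : f ≠ 0) (g : ι → MvPolynomial (Fin 3) F)
    (hcop : ∀ q, Irreducible q → (∀ i, q ∣ g i) → ¬ q ∣ f) :
    ∃ v : ι → F, IsRelPrime f (∑ i, C (v i) * g i) := by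
  classical
  by_contra hcon
  push Not at hcon
  let W : {q // q ∈ (UniqueFactorizationMonoid.factors f).toFinset} → Subspace F (ι → F) :=
    fun q =>
      { carrier := {v | q.1 ∣ ∑ l, C (v l) * g l}
        zero_mem' := by simp
        add_mem' := by
          intro a b ha hb
          show q.1 ∣ ∑ l, C ((a + b) l) * g l
          have : ∑ l, C ((a + b) l) * g l = ∑ l, C (a l) * g l + ∑ l, C (b l) * g l := by
            rw [← Finset.sum_add_distrib]
            exact Finset.sum_congr rfl fun l _ => by rw [Pi.add_apply, C_add, add_mul]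
          rw [this]
          exact dvd_add ha hb
        smul_mem' := by
          intro c a ha
          show q.1 ∣ ∑ l, C ((c • a) l) * g l
          have : ∑ l, C ((c • a) l) * g l = C c * ∑ l, C (a l) * g l := by
            rw [Finset.mul_sum]
            exact Finset.sum_congr rfl fun l _ => by
              rw [Pi.smul_apply, smul_eq_mul, C_mul, mul_assoc]
          rw [this]
          exact dvd_mul_of_dvd_right ha _ }
  have hcov : ⋃ q, (W q : Set (ι → F)) = Set.univ := by
    rw [Set.eq_univ_iff_forall]
    intro v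
    have h1 := hcon v
    unfold IsRelPrime at h1
    push Not at h1
    obtain ⟨c, hc1, hc2, hc3⟩ := h1
    have hc0 : c ≠ 0 := fun h => hf0 (by rw [h, zero_dvd_iff] at hc1; exact hc1)
    obtain ⟨g', hg, hgc⟩ := WfDvdMonoid.exists_irreducible_factor hc3 hc0
    obtain ⟨q, hq, hgq⟩ := UniqueFactorizationMonoid.exists_mem_factors_of_dvd hf0 hg
      (hgc.trans hc1)
    rw [Set.mem_iUnion]
    refine ⟨⟨q, Multiset.mem_toFinset.2 hq⟩, ?_⟩
    show q ∣ ∑ l, C (v l) * g l
    exact hgq.symm.dvd.trans (hgc.trans hc2)
  obtain ⟨⟨q, hq⟩, hqW⟩ := Subspace.exists_eq_top_of_iUnion_eq_univ hcov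
  rw [Multiset.mem_toFinset] at hq
  have hqi := UniqueFactorizationMonoid.irreducible_of_factor q hq
  have hqf := UniqueFactorizationMonoid.dvd_of_mem_factors hq
  refine hcop q hqi (fun l => ?_) hqf
  have h2 : (Pi.single l 1 : ι → F) ∈ W ⟨q, Multiset.mem_toFinset.2 hq⟩ := by
    rw [hqW]
    exact Submodule.mem_top
  have h3 : q ∣ ∑ i, C ((Pi.single l 1 : ι → F) i) * g i := h2
  rw [Finset.sum_eq_single l] at h3
  · rwa [Pi.single_eq_same, C_1, one_mul] at h3
  · intro b _ hb
    rw [Pi.single_eq_of_ne hb, C_0, zero_mul]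
  · intro h
    exact absurd (Finset.mem_univ _) h

/-- A space of forms stable under a derivation of the coefficients is spanned by forms with
constant coefficients. -/
theorem span_const {σ K : Type} [Field K] [CharZero K] (D : Derivation ℚ K K)
    {V : Submodule K (MvPolynomial σ K)} (hV : ∀ v ∈ V, dG D v ∈ V) :
    ∀ (n : ℕ) (v : MvPolynomial σ K), v ∈ V → v.support.card ≤ n →
      v ∈ Submodule.span K {x | x ∈ V ∧ dG D x = 0} := by
  classical
  intro n
  induction n with
  | zero =>
    intro v _ hn
    have h1 : v = 0 := by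
      rw [← MvPolynomial.support_eq_empty, ← Finset.card_eq_zero]
      omega
    rw [h1]
    exact Submodule.zero_mem _
  | succ n ih =>
    intro v hv hn
    by_cases h0 : v = 0
    · rw [h0]
      exact Submodule.zero_mem _
    obtain ⟨μ, hμ⟩ := MvPolynomial.ne_zero_iff.1 h0
    obtain ⟨v1, hv1⟩ : ∃ v1, v1 = (coeff μ v)⁻¹ • v := ⟨_, rfl⟩
    have hμ1 : coeff μ v1 = 1 := by
      rw [hv1, coeff_smul, smul_eq_mul, inv_mul_cancel₀ hμ]
    have hv1V : v1 ∈ V := by
      rw [hv1]
      exact Submodule.smul_mem _ _ hv
    have hsupp : ∀ α, coeff α v = 0 → coeff α v1 = 0 := by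
      intro α hα
      rw [hv1, coeff_smul, hα, smul_zero]
    obtain ⟨x, hx⟩ : ∃ x, x = dG D v1 := ⟨_, rfl⟩
    have hxc : ∀ α, coeff α v = 0 → coeff α x = 0 := by
      intro α hα
      rw [hx, coeff_dG, hsupp α hα, map_zero]
    have hxμ : coeff μ x = 0 := by
      rw [hx, coeff_dG, hμ1, D.map_one_eq_zero]
    have hxs : x.support ⊆ v.support.erase μ := by
      intro α hα
      rw [mem_support_iff] at hα
      rw [Finset.mem_erase, mem_support_iff]
      exact ⟨fun h => hα (by rw [h]; exact hxμ), fun h => hα (hxc α h)⟩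
    have hcard : (v.support.erase μ).card ≤ n := by
      rw [Finset.card_erase_of_mem (mem_support_iff.2 hμ)]
      omega
    have hxV : x ∈ V := by
      rw [hx]
      exact hV _ hv1V
    have hxsp := ih x hxV ((Finset.card_le_card hxs).trans hcard)
    have hv1sp : v1 ∈ Submodule.span K {x | x ∈ V ∧ dG D x = 0} := by
      by_cases hx0 : x = 0
      · exact Submodule.subset_span ⟨hv1V, by rw [← hx]; exact hx0⟩
      · obtain ⟨ν, hν⟩ := MvPolynomial.ne_zero_iff.1 hx0
        have hνv : coeff ν v ≠ 0 := fun h => hν (hxc ν h)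
        obtain ⟨y, hy⟩ : ∃ y, y = v1 - (coeff ν v1 / coeff ν x) • x := ⟨_, rfl⟩
        have hyV : y ∈ V := by
          rw [hy]
          exact Submodule.sub_mem _ hv1V (Submodule.smul_mem _ _ hxV)
        have hys : y.support ⊆ v.support.erase ν := by
          intro α hα
          rw [mem_support_iff] at hα
          rw [Finset.mem_erase, mem_support_iff]
          refine ⟨fun h => hα ?_, fun h => hα ?_⟩
          · rw [h, hy, coeff_sub, coeff_smul, smul_eq_mul, div_mul_cancel₀ _ hν, sub_self]
          · rw [hy, coeff_sub, coeff_smul, hxc α h, hsupp α h, smul_zero, sub_zero]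
        have hcard2 : (v.support.erase ν).card ≤ n := by
          rw [Finset.card_erase_of_mem (mem_support_iff.2 hνv)]
          omega
        have hysp := ih y hyV ((Finset.card_le_card hys).trans hcard2)
        have e : v1 = y + (coeff ν v1 / coeff ν x) • x := by
          rw [hy]
          abel
        rw [e]
        exact Submodule.add_mem _ hysp (Submodule.smul_mem _ _ hxsp)
    have e : v = coeff μ v • v1 := by
      rw [hv1, smul_smul, mul_inv_cancel₀ hμ, one_smul]
    rw [e]
    exact Submodule.smul_mem _ _ hv1sp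

/-- The common singular points of a space of forms which is stable under a derivation of the
coefficients and contains an irreducible form are constant. -/
theorem sing_stable {K : Type} [Field K] [CharZero K] (D : Derivation ℚ K K)
    {V : Submodule K (MvPolynomial (Fin 3) K)} (hV : ∀ v ∈ V, dG D v ∈ V) {d : ℕ}
    (hhom : ∀ v ∈ V, v.IsHomogeneous d) {G : MvPolynomial (Fin 3) K} (hG : Irreducible G)
    (hGV : G ∈ V) {p : Fin 2 → K} (h0 : ∀ v ∈ V, eval (aff p) v = 0)
    (h1 : ∀ v ∈ V, ∀ l, eval (aff p) (pderiv l v) = 0) (a : Fin 2) : D (p a) = 0 := by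
  classical
  have hGs := span_const D hV _ G hGV le_rfl
  rw [Submodule.mem_span_set'] at hGs
  obtain ⟨m, c, g, hg⟩ := hGs
  have hmemF : ∀ x : K, x ∈ cst D ↔ D x = 0 := fun x => Iff.rfl
  -- the forms over the field of constants
  have hlift : ∀ b, ∃ g0 : MvPolynomial (Fin 3) (cst D),
      MvPolynomial.map (cst D).subtype g0 = (g b).1 := by
    intro b
    have hrange : (g b).1 ∈ Set.range (MvPolynomial.map (σ := Fin 3) (cst D).subtype) := by
      rw [MvPolynomial.mem_range_map_iff_coeffs_subset]
      intro c hc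
      obtain ⟨α, -, rfl⟩ := MvPolynomial.mem_coeffs_iff.1 hc
      refine ⟨⟨coeff α (g b).1, ?_⟩, rfl⟩
      rw [hmemF, ← coeff_dG, (g b).2.2, coeff_zero]
    exact hrange
  choose g0 hg0 using hlift
  have hinj : Function.Injective (MvPolynomial.map (σ := Fin 3) (cst D).subtype) :=
    MvPolynomial.map_injective _ (cst D).subtype.injective
  have hhom0 : ∀ b, (g0 b).IsHomogeneous d := by
    intro b α hα
    refine hhom _ (g b).2.1 ?_
    rw [← hg0, coeff_map]
    exact fun h => hα ((cst D).subtype.injective (h.trans (map_zero _).symm))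
  obtain ⟨b0, hb0⟩ : ∃ b, g0 b ≠ 0 := by
    by_contra hcon
    push Not at hcon
    apply hG.ne_zero
    rw [← hg]
    refine Finset.sum_eq_zero fun b _ => ?_
    rw [← hg0, hcon, map_zero, smul_zero]
  -- no common factor
  have hcop : ∀ q, Irreducible q → (∀ i : Fin m × Fin 3, q ∣ pderiv i.2 (g0 i.1)) →
      ¬ q ∣ g0 b0 := by
    intro q hq hdvd _
    have hqK : ∀ l, MvPolynomial.map (cst D).subtype q ∣ pderiv l G := by
      intro l
      rw [← hg, map_sum]
      refine Finset.dvd_sum fun b _ => ?_
      rw [Derivation.map_smul, smul_eq_C_mul, ← hg0, pderiv_map]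
      exact dvd_mul_of_dvd_right (map_dvd _ (hdvd (b, l))) _
    have hGd := hhom G hGV
    have hd0 := deg_pos hG hGd
    have heuler := hGd.sum_X_mul_pderiv
    have h2 : MvPolynomial.map (cst D).subtype q ∣ d • G := by
      rw [← heuler]
      exact Finset.dvd_sum fun l _ => dvd_mul_of_dvd_right (hqK l) _
    have h3 : MvPolynomial.map (cst D).subtype q ∣ G := by
      rw [nsmul_eq_mul] at h2
      have hu : IsUnit ((d : ℕ) : MvPolynomial (Fin 3) K) := by
        have h4 : ((d : ℕ) : MvPolynomial (Fin 3) K) = C (d : K) := by simp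
        rw [h4]
        exact (isUnit_iff_ne_zero.2 (by exact_mod_cast (by omega : d ≠ 0))).map C
      exact (hu.dvd_mul_left).1 h2
    have h4 : ¬ IsUnit (MvPolynomial.map (cst D).subtype q) := fun h =>
      hq.not_isUnit (isUnit_of_map _ h)
    have h5 : G ∣ MvPolynomial.map (cst D).subtype q :=
      ((hG.dvd_iff.1 h3).resolve_left h4).dvd
    exact pd_dvd hG hGd fun l => h5.trans (hqK l)
  obtain ⟨v, hv⟩ := exists_rel_fam hb0 (fun i : Fin m × Fin 3 => pderiv i.2 (g0 i.1)) hcop
  refine coprime_const D (hhom0 b0) (e := d - 1) ?_ hb0 hv ?_ ?_ a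
  · refine IsHomogeneous.sum _ _ _ fun i _ => ?_
    exact IsHomogeneous.C_mul (hhom0 i.1).pderiv _
  · rw [hg0]
    exact h0 _ (g b0).2.1
  · rw [map_sum, map_sum]
    refine Finset.sum_eq_zero fun i _ => ?_
    rw [map_mul, map_mul, ← pderiv_map, hg0, h1 _ (g i.1).2.1, mul_zero]

end Pool.Agent.J4H49
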