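import Pool.Agent.J4H49.Orb
import Pool.Agent.R355.CanDeg2

set_option autoImplicit false

/-!
# The standard form of a negative curve
-/

namespace Pool.Agent.J4H49

open MvPolynomial Pool.Agent.W609 Pool.Agent.W609.CR Pool.Agent.TH167 Pool.Agent.TH167.SH
open Pool.Agent.TH442.NF (cls refl Step refl_cls)
open Pool.Agent.R355.NegOrb

/-- Xu's inequality. -/
theorem xu_le {K : Type} [Field K] [CharZero K] {s : ℕ} {P : Fin s → Fin 2 → K}
    (hP : AlgebraicIndependent ℚ (fun ij : Fin s × Fin 2 => P ij.1 ij.2))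
    {G : MvPolynomial (Fin 3) K} {e : ℕ} {u : Fin s → ℕ} (hG : Irreducible G)
    (hGe : G.IsHomogeneous e) (hGo : ∀ j, Ord (aff (P j)) (u j) G) {j : Fin s} (hj : 1 ≤ u j) :
    -ip e u e u ≤ (u j : ℤ) := by
  have hx := xu hP hG hGe hGo (k := j) hj
  have hx' : ((∑ j, u j ^ 2 : ℕ) : ℤ) ≤ ((e ^ 2 + u j : ℕ) : ℤ) := by exact_mod_cast hx
  have e1 : ip e u e u = (e : ℤ) ^ 2 - ((∑ j, u j ^ 2 : ℕ) : ℤ) := by
    unfold ip
    push_cast
    rw [pow_two]
    congr 1
    exact Finset.sum_congr rfl fun i _ => by ring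
  rw [e1]
  push_cast at hx' ⊢
  linarith

/-- The bound for `K C`. -/
theorem kappa_le {K : Type} [Field K] [CharZero K] [IsAlgClosed K] {s : ℕ}
    {P : Fin s → Fin 2 → K} (hP : AlgebraicIndependent ℚ (fun ij : Fin s × Fin 2 => P ij.1 ij.2))
    {w : Fin s → ℕ} {d : ℕ} {G : MvPolynomial (Fin 3) K} (hG : Irreducible G)
    (hGe : G.IsHomogeneous d) (hord : ∀ j, Ord (aff (P j)) (w j) G) (hneg : ip d w d w < 0)
    {j : Fin s} (hj : 2 ≤ w j) : -kk d w + 2 ≤ 11 * (w j : ℤ) ^ 2 + w j := by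
  have h1 := genus hP hG hGe hord hneg hj
  have h2 := xu_le hP hG hGe hord (j := j) (by omega)
  linarith

theorem std_bound {r : ℕ} {P : Fin (r + 4) → Fin 2 → ℂ}
    (hP : AlgebraicIndependent ℚ (fun ij : Fin (r + 4) × Fin 2 => P ij.1 ij.2)) {d : ℕ}
    {w : Fin (r + 4) → ℕ} (hI : Irr P d w) (hneg : ip d w d w < 0) :
    ∃ (e : ℕ) (u : Fin (r + 4) → ℕ), Ch (cls d w) (cls e u) ∧
      Irr P e u ∧ Reduced e u ∧ e ≤ d ∧
      2 * (e : ℤ) ≤ 3 * (-kk d w) ^ 2 + 6 * (-kk d w) + 6 ∧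
      2 * ((Finset.univ.filter fun i => u i ≠ 0).card : ℤ) ≤ 19 - kk d w ∧
      ∀ j, 2 ≤ u j → (Finset.univ.filter fun i => u i ≠ 0).card ≤ 22 * u j + 10 ∧
        e ≤ 216 * u j ^ 4 := by
  classical
  obtain ⟨k, hk⟩ : ∃ k, ip d w d w = -k := ⟨-ip d w d w, (neg_neg _).symm⟩
  obtain ⟨κ, hκ⟩ : ∃ κ, kk d w = -κ := ⟨-kk d w, (neg_neg _).symm⟩
  obtain ⟨hκ3, e, u, h1, h2, h3, h4, h5, h6, h7, T, hT, -, -, hσ, hσ2, -⟩ :=
    R355.CanDeg.main hP hI hk (by linarith) hκ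
  have hcard : (Finset.univ.filter fun i => u i ≠ 0).card ≤
      9 + (Tᶜ.filter fun i => u i ≠ 0).card := by
    have h10 : (Finset.univ.filter fun i => u i ≠ 0) ⊆ T ∪ (Tᶜ.filter fun i => u i ≠ 0) := by
      intro i hi
      by_cases hiT : i ∈ T
      · exact Finset.mem_union_left _ hiT
      · exact Finset.mem_union_right _ (Finset.mem_filter.2
          ⟨Finset.mem_compl.2 hiT, (Finset.mem_filter.1 hi).2⟩)
    have h11 := (Finset.card_le_card h10).trans (Finset.card_union_le _ _)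
    rwa [hT] at h11
  refine ⟨e, u, h1, h2, h3, h4, by rw [hκ, neg_neg]; exact h7, ?_, ?_⟩
  · have h8 : ((Finset.univ.filter fun i => u i ≠ 0).card : ℤ) ≤
      9 + ((Tᶜ.filter fun i => u i ≠ 0).card : ℤ) := by exact_mod_cast hcard
    rw [hκ]
    linarith
  obtain ⟨G, g1, g2, g3⟩ := h2.ex
  have hneg' : ip e u e u < 0 := by
    rw [h5]
    linarith
  have hcl := CL.neg_cl hP g1 g2 g3 hneg' h2.ne
  -- the smallest multiplicity
  have hall : ∀ j, 2 ≤ u j → ∃ j0, 2 ≤ u j0 ∧ u j0 ≤ u j ∧ ∀ i, 2 ≤ u i → u j0 ≤ u i := by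
    intro j hj
    obtain ⟨j0, h8, h9⟩ := Finset.exists_min_image (Finset.univ.filter fun i => 2 ≤ u i) u
      ⟨j, Finset.mem_filter.2 ⟨Finset.mem_univ _, hj⟩⟩
    exact ⟨j0, (Finset.mem_filter.1 h8).2, h9 j (Finset.mem_filter.2 ⟨Finset.mem_univ _, hj⟩),
      fun i hi => h9 i (Finset.mem_filter.2 ⟨Finset.mem_univ _, hi⟩)⟩
  intro j hj
  obtain ⟨j0, hj0, hj0j, hmin⟩ := hall j hj
  obtain ⟨m, hm⟩ : ∃ m, m = u j0 := ⟨_, rfl⟩
  rw [← hm] at hj0 hj0j hmin
  have hk1 : k ≤ m := by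
    have := xu_le hP g1 g2 g3 (j := j0) (by omega)
    rw [h5, neg_neg, ← hm] at this
    exact this
  have hκm : κ ≤ 11 * (m : ℤ) ^ 2 + k - 2 := by
    have := genus hP g1 g2 g3 hneg' (k := j0) (by omega)
    rw [h5, h6, ← hm] at this
    linarith
  have hmz : (2 : ℤ) ≤ m := by exact_mod_cast hj0
  constructor
  · -- the number of points
    obtain ⟨F, hF⟩ : ∃ F : Finset (Fin (r + 4)), F = Tᶜ.filter fun i => u i ≠ 0 := ⟨_, rfl⟩
    have hsum : ∑ i ∈ F, (u i : ℤ) = ∑ i ∈ Tᶜ, (u i : ℤ) := by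
      rw [hF]
      refine Finset.sum_subset (Finset.filter_subset _ _) fun i hi hi' => ?_
      have : u i = 0 := by
        by_contra h0
        exact hi' (Finset.mem_filter.2 ⟨hi, h0⟩)
      rw [this, Nat.cast_zero]
    have hFc : (F.card : ℤ) ≤ 22 * m + 1 := by
      by_contra hcon
      push Not at hcon
      rcases hcl with hc | ⟨hc1, i0, hc2, hc3⟩
      · have h8 : ∑ _i ∈ F, (m : ℤ) ≤ ∑ i ∈ F, (u i : ℤ) := by
          refine Finset.sum_le_sum fun i hi => ?_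
          rw [hF] at hi
          have h9 := hc i (Finset.mem_filter.1 hi).2
          have h10 := hmin i (by omega)
          exact_mod_cast h10
        rw [Finset.sum_const, nsmul_eq_mul, hsum] at h8
        have h9 : (22 * (m : ℤ) + 2) * m ≤ F.card * m :=
          mul_le_mul_of_nonneg_right (by linarith) (by linarith)
        nlinarith
      · have hk2 : k = 1 := by
          rw [h5] at hc1
          linarith
        have h8 : ∑ i ∈ F, ((m : ℤ) - if i = i0 then (m : ℤ) else 0) ≤ ∑ i ∈ F, (u i : ℤ) := by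
          refine Finset.sum_le_sum fun i hi => ?_
          rw [hF] at hi
          by_cases hii : i = i0
          · rw [if_pos hii, sub_self]
            exact Int.natCast_nonneg _
          · rw [if_neg hii, sub_zero]
            have h9 := hc3 i hii (Finset.mem_filter.1 hi).2
            have h10 := hmin i (by omega)
            exact_mod_cast h10
        rw [Finset.sum_sub_distrib, Finset.sum_const, nsmul_eq_mul, hsum,
          Finset.sum_ite_eq'] at h8
        have h9 : (if i0 ∈ F then (m : ℤ) else 0) ≤ m := by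
          split_ifs
          · exact le_rfl
          · linarith
        have h10 : (22 * (m : ℤ) + 2) * m ≤ F.card * m :=
          mul_le_mul_of_nonneg_right (by linarith) (by linarith)
        nlinarith
    rw [← hF] at hcard
    have h12 : F.card ≤ 22 * m + 1 := by exact_mod_cast hFc
    omega
  · have h8 : κ + 1 ≤ 12 * (m : ℤ) ^ 2 - 1 := by nlinarith
    have h9 : (κ + 1) ^ 2 ≤ (12 * (m : ℤ) ^ 2 - 1) ^ 2 := by
      refine pow_le_pow_left₀ (by linarith) h8 2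
    have h10 : (e : ℤ) ≤ 216 * (m : ℤ) ^ 4 := by nlinarith
    have h11 : e ≤ 216 * m ^ 4 := by exact_mod_cast h10
    exact h11.trans (Nat.mul_le_mul_left _ (Nat.pow_le_pow_left hj0j 4))

/-- The bound for `K C` from a `(-1)`-curve. -/
theorem kappa_orb {K : Type} [Field K] [CharZero K] [IsAlgClosed K] {r : ℕ}
    {P : Fin (r + 4) → Fin 2 → K}
    (hP : AlgebraicIndependent ℚ (fun ij : Fin (r + 4) × Fin 2 => P ij.1 ij.2))
    {u : Fin (r + 4) → ℕ} {e : ℕ} {E : MvPolynomial (Fin 3) K} (hE : Irreducible E)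
    (hEe : E.IsHomogeneous e) (hEo : ∀ j, Ord (aff (P j)) (u j) E)
    (hE1 : ip e u e u = -1) (hE2 : kk e u = 1)
    {w : Fin (r + 4) → ℕ} {d : ℕ} {G : MvPolynomial (Fin 3) K} (hG : Irreducible G)
    (hGe : G.IsHomogeneous d) (hord : ∀ j, Ord (aff (P j)) (w j) G) (hneg : ip d w d w < 0)
    (hne : ¬ (ip d w d w = -1 ∧ kk d w = 1)) (h2 : 2 ≤ ip d w e u) :
    ip d w d w - kk d w + 2 ≤ 11 * (ip d w e u) ^ 2 ∧
      -kk d w + 2 ≤ 11 * (ip d w e u) ^ 2 + ip d w e u := by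
  obtain ⟨P1, d1, w1, G1, k, a1, a2, a3, a4, a5, a6, a7⟩ := orb e P hP u E hE hEe hEo hE1 hE2 d w
    G hG hGe hord hne
  have hk : 2 ≤ w1 k := by
    have : (2 : ℤ) ≤ (w1 k : ℤ) := by rw [a7]; exact h2
    exact_mod_cast this
  have h3 := genus a1 a2 a3 a4 (by rw [a5]; exact hneg) hk
  have h4 := kappa_le a1 a2 a3 a4 (by rw [a5]; exact hneg) hk
  rw [a5, a6, a7] at h3
  rw [a6, a7] at h4
  exact ⟨h3, h4⟩

end Pool.Agent.J4H49
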