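import Pool.Agent.J4H49.RNum
import Pool.Agent.J4H49.StdB
import Pool.Agent.R355.GenB
import Pool.Agent.TH167.SH.Conv

set_option autoImplicit false

/-!
# Special irreducible curves: finiteness
-/

namespace Pool.Agent.J4H49

open MvPolynomial Pool.Agent.W609 Pool.Agent.W609.CR Pool.Agent.TH167 Pool.Agent.TH167.SH
open Pool.Agent.TH442.NF (cls refl Step refl_cls)
open Pool.Agent.R355.NegOrb Pool.Agent.R355.Gen

/-- The dimension of a system at algebraically independent points. -/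
theorem dim_eq {s : ℕ} {K : Type} [Field K] [CharZero K] {P Q : Fin s → Fin 2 → K}
    (hP : AlgebraicIndependent ℚ (fun ij : Fin s × Fin 2 => P ij.1 ij.2))
    (hQ : AlgebraicIndependent ℚ (fun ij : Fin s × Fin 2 => Q ij.1 ij.2)) (w : Fin s → ℕ)
    (d : ℕ) : Module.finrank K ↥(VS (fun j => aff (P j)) w d) =
      Module.finrank K ↥(VS (fun j => aff (Q j)) w d) := by
  obtain ⟨g, F, hF, h⟩ := dim_gen w d
  rw [h K P fun h0 => hF (hP.eq_zero_of_aeval_eq_zero F h0),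
    h K Q fun h0 => hF (hQ.eq_zero_of_aeval_eq_zero F h0)]

/-- Reduction to the standard form, with the dimension. -/
theorem exists_std_dim {r : ℕ} {P : Fin (r + 4) → Fin 2 → ℂ}
    (hP : AlgebraicIndependent ℚ (fun ij : Fin (r + 4) × Fin 2 => P ij.1 ij.2)) :
    ∀ (d : ℕ) (w : Fin (r + 4) → ℕ), Irr P d w → ∃ (e : ℕ) (u : Fin (r + 4) → ℕ),
      Ch (cls d w) (cls e u) ∧ Irr P e u ∧ Reduced e u ∧ e ≤ d ∧
      ip e u e u = ip d w d w ∧ kk e u = kk d w ∧
      Module.finrank ℂ ↥(VS (fun j => aff (P j)) u e) =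
        Module.finrank ℂ ↥(VS (fun j => aff (P j)) w d) := by
  intro d
  induction d using Nat.strong_induction_on with
  | _ d ih =>
    intro w hI
    by_cases hred : Reduced d w
    · exact ⟨d, w, Relation.ReflTransGen.refl, hI, hred, le_rfl, rfl, rfl, rfl⟩
    · have hred' := hred
      unfold Reduced at hred'
      push Not at hred'
      obtain ⟨a, b, c, hab, hac, hbc, hlt⟩ := hred'
      have hi : Function.Injective ![a, b, c] := inj_cons hab hac hbc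
      have p := hI.ps hP hi
      have hc1 := cd_cast p
      unfold dl at hc1
      have e0 : w (![a, b, c] 0) = w a := rfl
      have e1 : w (![a, b, c] 1) = w b := rfl
      have e2 : w (![a, b, c] 2) = w c := rfl
      rw [e0, e1, e2] at hc1
      have hlt' : cd ![a, b, c] d w < d := by omega
      obtain ⟨e, u, h1, h2, h3, h4, h5, h6, h7⟩ := ih _ hlt' _ (hI.step hP hi)
      obtain ⟨P', hP', hr⟩ := exists_crel hP hi
      refine ⟨e, u, ?_, h2, h3, by omega, by rw [h5, ip_cr hi p p], by rw [h6, kk_cr hi p], ?_⟩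
      · unfold Ch at h1 ⊢
        exact Relation.ReflTransGen.head ⟨_, hi, (refl_cls hi p).symm⟩ h1
      · rw [h7, dim_eq hP hP', hr.dim p]

/-- A nonempty standard class with `χ ≤ 0`. -/
theorem level_ne {n : ℕ} (hn : 4 ≤ n) {e : ℕ} {u : Fin n → ℕ} (hred : Reduced e u)
    (hχ : chi e u ≤ 0) {P : Fin n → Fin 2 → ℂ}
    (hP : AlgebraicIndependent ℚ (fun ij : Fin n × Fin 2 => P ij.1 ij.2))
    (hne : VS (fun j => aff (P j)) u e ≠ ⊥) :
    kk e u < 0 ∧ 2 * (e : ℤ) ≤ 3 * (-kk e u) ^ 2 + 25 * (-kk e u) ∧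
      ((Finset.univ.filter fun j => u j ≠ 0).card : ℤ) ≤ 3 * (-kk e u) + 7 := by
  obtain ⟨r, rfl⟩ : ∃ r, n = r + 4 := ⟨n - 4, by omega⟩
  have hk := kk_neg hred hχ
  refine ⟨hk, ?_⟩
  rcases level_finite hred (c := -kk e u) (by omega) (neg_neg _).symm hχ with ⟨-, a1, a2⟩ |
    ⟨T, m, b1, b2, b3⟩
  · exact ⟨a1, a2⟩
  · exfalso
    have h1 := family_empty hP b1 b2 b3 hk
    rw [sys_eq] at h1
    exact hne h1

/-- The class with `x` more simple points is nonempty if the dimension is at least `x`. -/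
theorem ext_ne {n x e : ℕ} {u : Fin n → ℕ} {P : Fin n → Fin 2 → ℂ}
    (hP : AlgebraicIndependent ℚ (fun ij : Fin n × Fin 2 => P ij.1 ij.2))
    (hx : x + 1 ≤ Module.finrank ℂ ↥(VS (fun j => aff (P j)) u e)) :
    ∃ Q : Fin (n + x) → Fin 2 → ℂ,
      AlgebraicIndependent ℚ (fun ij : Fin (n + x) × Fin 2 => Q ij.1 ij.2) ∧
      VS (fun j => aff (Q j)) (ext x u) e ≠ ⊥ := by
  obtain ⟨f, hf⟩ := R355.Round.exists_indep (Fin (n + x) × Fin 2)
  obtain ⟨Q, hQ⟩ : ∃ Q : Fin (n + x) → Fin 2 → ℂ, Q = fun i j => f (i, j) := ⟨_, rfl⟩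
  have hQi : AlgebraicIndependent ℚ (fun ij : Fin (n + x) × Fin 2 => Q ij.1 ij.2) := by
    rw [hQ]
    exact hf
  refine ⟨Q, hQi, fun hbot => ?_⟩
  have h3 := dim_ext hbot
  obtain ⟨R, hR⟩ : ∃ R : Fin n → Fin 2 → ℂ, R = fun j => Q (Fin.castAdd x j) := ⟨_, rfl⟩
  have hRi : AlgebraicIndependent ℚ (fun ij : Fin n × Fin 2 => R ij.1 ij.2) := by
    have := hQi.comp (fun ij : Fin n × Fin 2 => (Fin.castAdd x ij.1, ij.2)) (by
      intro a b h
      simp only [Prod.mk.injEq] at h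
      exact Prod.ext (Fin.castAdd_injective _ _ h.1) h.2)
    rw [hR]
    exact this
  have h3' : Module.finrank ℂ ↥(VS (fun j => aff (R j)) u e) ≤ x := by
    rw [hR]
    exact h3
  rw [dim_eq hRi hP] at h3'
  omega

/-- The number of positive multiplicities after adding simple points. -/
theorem card_ext {n : ℕ} (x : ℕ) (u : Fin n → ℕ) :
    (Finset.univ.filter fun j => ext x u j ≠ 0).card =
      (Finset.univ.filter fun j => u j ≠ 0).card + x := by
  classical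
  rw [Finset.card_filter, Fin.sum_univ_add, Finset.card_filter]
  congr 1
  · refine Finset.sum_congr rfl fun i _ => ?_
    rw [ext_left]
  · have h : ∀ i : Fin x, (if ext x u (Fin.natAdd n i) ≠ 0 then 1 else 0) = 1 := by
      intro i
      rw [ext_right]
      rfl
    rw [Finset.sum_congr rfl fun i _ => h i, Finset.sum_const, Finset.card_univ,
      Fintype.card_fin, smul_eq_mul, mul_one]

/-- Three positive multiplicities. -/
theorem threePos_le {r : ℕ} {d : ℕ} {w : Fin (r + 4) → ℕ} (hred : Reduced d w) (hd : 1 ≤ d)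
    (h : kk d w ≤ 0) : ThreePos w := by
  obtain ⟨a, b, c, hab, hac, hbc, ya, yb, yc⟩ := R355.Round.top_three (n := r + 4) (by omega)
    fun i => (w i : ℝ)
  have ya' : ∀ l, w l ≤ w a := fun l => by exact_mod_cast ya l
  have yb' : ∀ l, l ≠ a → w l ≤ w b := fun l hl => by exact_mod_cast yb l hl
  have yc' : ∀ l, l ≠ a → l ≠ b → w l ≤ w c := fun l hl hl' => by exact_mod_cast yc l hl hl'
  have h1 := hred a b c hab hac hbc
  by_cases hc : 1 ≤ w c
  · have := yb' c hac.symm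
    have := ya' b
    exact ⟨a, b, c, hab, hac, hbc, by omega, by omega, hc⟩
  · exfalso
    have h0 : ∀ l, l ∉ ({a, b} : Finset (Fin (r + 4))) → w l = 0 := by
      intro l hl
      rw [Finset.mem_insert, Finset.mem_singleton, not_or] at hl
      have := yc' l hl.1 hl.2
      omega
    have h2 : ∑ l, w l = w a + w b := by
      rw [← Finset.sum_subset (Finset.subset_univ {a, b}) fun l _ hl => h0 l hl,
        Finset.sum_pair hab]
    have h3 : ∑ l, (w l : ℤ) = w a + w b := by exact_mod_cast h2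
    unfold kk at h
    omega

/-- A minimal set of points. -/
theorem exists_min {s : ℕ} (w : Fin s → ℕ) {I : Finset (Fin s)} {M : ℕ}
    (hI : ∀ k ∈ I, 3 ≤ w k ∧ w k ≤ M) {c : ℕ} (hc : (c : ℤ) < ∑ k ∈ I, (w k : ℤ) * (w k - 2)) :
    ∃ J ⊆ I, (c : ℤ) < ∑ k ∈ J, (w k : ℤ) * (w k - 2) ∧
      ∑ k ∈ J, (w k : ℤ) * (w k - 2) ≤ c + M * (M - 2) := by
  classical
  obtain ⟨J, hJ, hmin⟩ := Finset.exists_min_image
    (I.powerset.filter fun J => (c : ℤ) < ∑ k ∈ J, (w k : ℤ) * (w k - 2)) Finset.card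
    ⟨I, Finset.mem_filter.2 ⟨Finset.mem_powerset_self I, hc⟩⟩
  obtain ⟨h1, h2⟩ := Finset.mem_filter.1 hJ
  rw [Finset.mem_powerset] at h1
  refine ⟨J, h1, h2, ?_⟩
  obtain ⟨k, hk⟩ : J.Nonempty := by
    rw [Finset.nonempty_iff_ne_empty]
    rintro rfl
    rw [Finset.sum_empty] at h2
    have : (0 : ℤ) ≤ c := Int.natCast_nonneg c
    omega
  have h3 : ∑ i ∈ J.erase k, (w i : ℤ) * (w i - 2) ≤ c := by
    by_contra hcon
    push Not at hcon
    have h4 := hmin (J.erase k) (Finset.mem_filter.2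
      ⟨Finset.mem_powerset.2 ((Finset.erase_subset _ _).trans h1), hcon⟩)
    have h5 := Finset.card_erase_lt_of_mem hk
    omega
  rw [← Finset.add_sum_erase _ _ hk]
  obtain ⟨h4, h5⟩ := hI k (h1 hk)
  have h6 : (w k : ℤ) * (w k - 2) ≤ M * (M - 2) := by
    have h7 : (3 : ℤ) ≤ w k := by exact_mod_cast h4
    have h8 : (w k : ℤ) ≤ M := by exact_mod_cast h5
    nlinarith
  linarith

/-- The arithmetic: the genus. -/
theorem num_genus {T L R c M X g : ℤ} (hc0 : 0 ≤ c) (hM : 3 ≤ M) (hX : X = c + M ^ 2)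
    (hT1 : c < T) (hT2 : T ≤ c + M * (M - 2)) (hL : L ≤ T) (hL0 : 0 ≤ L) (hR : R ≤ 2 * M * T)
    (_hR0 : 0 ≤ R) (h : (T - c) * (g - 2 * c - 2 * L) ≤ R * (T + c + 2 * L)) :
    g ≤ 4 * X + 8 * M * X ^ 2 := by
  have hTX : T ≤ X := by
    rw [hX]
    nlinarith
  have hT0 : 0 < T := by linarith
  have hX0 : 0 < X := by linarith
  have h0 : 0 ≤ 8 * M * X ^ 2 := by positivity
  by_cases hg : g - 2 * c - 2 * L ≤ 0
  · linarith
  · push Not at hg
    have h1 : g - 2 * c - 2 * L ≤ (T - c) * (g - 2 * c - 2 * L) := by nlinarith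
    have h2 : R * (T + c + 2 * L) ≤ (2 * M * X) * (4 * X) := by
      refine mul_le_mul ?_ (by linarith) (by linarith) (by positivity)
      refine hR.trans ?_
      exact mul_le_mul_of_nonneg_left hTX (by linarith)
    nlinarith

/-- The arithmetic: the standard form. -/
theorem num_std_fin {c M X g q e κ N : ℤ} (hc0 : 0 ≤ c) (hM : 3 ≤ M) (hX : X = c + M ^ 2)
    (hg : g ≤ 4 * X + 8 * M * X ^ 2) (hκ : κ = g - 2 - q) (hq : -M ≤ q) (hκ0 : 0 < κ)
    (he : 2 * e ≤ 3 * κ ^ 2 + 25 * κ) (hN : N ≤ 3 * κ + 7) :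
    e ≤ 122 * M ^ 2 * X ^ 4 ∧ N ≤ 28 * M * X ^ 2 := by
  have hX9 : 9 ≤ X := by nlinarith
  have hXM : M ^ 2 ≤ X := by linarith
  obtain ⟨Y, hY⟩ : ∃ Y, Y = M * X ^ 2 := ⟨_, rfl⟩
  have hYX : 27 * X ≤ Y := by
    rw [hY]
    have h1 : (3 : ℤ) * (9 * X) ≤ M * (X * X) := by
      refine mul_le_mul hM ?_ (by linarith) (by linarith)
      exact mul_le_mul_of_nonneg_right hX9 (by linarith)
    nlinarith
  have hMX : M ≤ X := by nlinarith
  have hκY : κ ≤ 9 * Y := by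
    have : 8 * M * X ^ 2 = 8 * Y := by rw [hY]; ring
    linarith
  have hY243 : 243 ≤ Y := by linarith
  have e1 : 122 * M ^ 2 * X ^ 4 = 122 * Y ^ 2 := by rw [hY]; ring
  have e2 : 28 * M * X ^ 2 = 28 * Y := by rw [hY]; ring
  rw [e1, e2]
  constructor
  · have h1 : κ ^ 2 ≤ (9 * Y) ^ 2 := pow_le_pow_left₀ hκ0.le hκY 2
    nlinarith
  · linarith

/-- All classes of the orbit. -/
theorem orbit_dim {s : ℕ} {P : Fin s → Fin 2 → ℂ}
    (hP : AlgebraicIndependent ℚ (fun ij : Fin s × Fin 2 => P ij.1 ij.2)) {d : ℕ}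
    {w : Fin s → ℕ} (h : Irr P d w) {b : ℤ × (Fin s → ℤ)} (hb : Ch (cls d w) b) :
    ∃ (e : ℕ) (u : Fin s → ℕ), b = cls e u ∧ Irr P e u ∧ ip e u e u = ip d w d w ∧
      kk e u = kk d w ∧ Module.finrank ℂ ↥(VS (fun j => aff (P j)) u e) =
        Module.finrank ℂ ↥(VS (fun j => aff (P j)) w d) := by
  unfold Ch at hb
  induction hb with
  | refl => exact ⟨d, w, rfl, h, rfl, rfl, rfl⟩
  | @tail b c _ hbc ih =>
    obtain ⟨e, u, rfl, h1, h2, h3, h4⟩ := ih
    obtain ⟨i, hi, rfl⟩ := hbc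
    have p := h1.ps hP hi
    obtain ⟨P', hP', hr⟩ := exists_crel hP hi
    exact ⟨cd i e u, wcr e i u, refl_cls hi p, h1.step hP hi, by rw [ip_cr hi p p, h2],
      by rw [kk_cr hi p, h3], by rw [dim_eq hP hP', hr.dim p, h4]⟩

theorem cls_inj {s : ℕ} {d e : ℕ} {w u : Fin s → ℕ} (h : cls d w = cls e u) : d = e ∧ w = u := by
  have h1 : (d : ℤ) = e := congrArg Prod.fst h
  have h2 : (fun l => (w l : ℤ)) = fun l => (u l : ℤ) := congrArg Prod.snd h
  refine ⟨by exact_mod_cast h1, funext fun l => ?_⟩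
  have h3 := congrFun h2 l
  exact_mod_cast h3

/-- The bounds for the genus and for the self-intersection. -/
theorem orb_genus {s : ℕ} {P : Fin s → Fin 2 → ℂ}
    (hP : AlgebraicIndependent ℚ (fun ij : Fin s × Fin 2 => P ij.1 ij.2)) {d : ℕ}
    {w : Fin s → ℕ} {G : MvPolynomial (Fin 3) ℂ} (hG : Irreducible G)
    (hGd : G.IsHomogeneous d) (hord : ∀ j, Ord (aff (P j)) (w j) G) {ρ : ℕ}
    (hρ : Module.finrank ℂ ↥(VS (fun j => aff (P j)) w d) = ρ + 1)
    {I : Finset (Fin s)} {M c : ℕ} (hI : ∀ k ∈ I, 3 ≤ w k ∧ w k ≤ M)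
    (hc : ip d w d w - ρ ≤ c) (hT : (c : ℤ) < ∑ k ∈ I, (w k : ℤ) * (w k - 2)) :
    (3 : ℤ) ≤ M ∧ ip d w d w - kk d w + 2 ≤
      4 * (c + (M : ℤ) ^ 2) + 8 * M * (c + (M : ℤ) ^ 2) ^ 2 ∧
      -(M : ℤ) ≤ ip d w d w - ρ := by
  classical
  obtain ⟨J, hJI, hJ1, hJ2⟩ := exists_min w hI hT
  have hc0 : (0 : ℤ) ≤ c := Int.natCast_nonneg c
  obtain ⟨k, hk⟩ : J.Nonempty := by
    rw [Finset.nonempty_iff_ne_empty]
    rintro rfl
    rw [Finset.sum_empty] at hJ1
    omega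
  have hJw : ∀ j ∈ J, 3 ≤ w j ∧ w j ≤ M := fun j hj => hI j (hJI hj)
  have hM : (3 : ℤ) ≤ M := by
    have := hJw k hk
    have h1 : 3 ≤ M := by omega
    exact_mod_cast h1
  have hGd' : Gd P w d J G := gd_of_alg hP hG hGd hord ⟨k, hk⟩ fun j hj => by
    have := hJw j hj
    omega
  have h1 := hGd'.fin (r := ρ) (c := c) hρ.ge hc hJ1
  -- the genus
  have hLT : ∑ j ∈ J, (w j : ℤ) ≤ ∑ j ∈ J, (w j : ℤ) * (w j - 2) := by
    refine Finset.sum_le_sum fun j hj => ?_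
    have h2 : (3 : ℤ) ≤ w j := by exact_mod_cast (hJw j hj).1
    nlinarith
  have hRT : ∑ j ∈ J, rl (w j) ≤ 2 * M * ∑ j ∈ J, (w j : ℤ) * (w j - 2) := by
    rw [Finset.mul_sum]
    exact Finset.sum_le_sum fun j hj => rl_le (by have := hJw j hj; omega) (hJw j hj).2
  have hg := num_genus (X := c + (M : ℤ) ^ 2) hc0 hM rfl hJ1 hJ2 hLT
    (Finset.sum_nonneg fun _ _ => Int.natCast_nonneg _) hRT
    (Finset.sum_nonneg fun j hj => rl_nonneg (by have := hJw j hj; omega)) h1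
  refine ⟨hM, hg, ?_⟩
  -- the lower bound for the self-intersection
  rcases Nat.eq_zero_or_pos ρ with h0 | h0
  · subst h0
    have h2 := xu_le hP hG hGd hord (j := k) (by have := hJw k hk; omega)
    have h3 : (w k : ℤ) ≤ M := by exact_mod_cast (hJw k hk).2
    push_cast
    linarith
  · obtain ⟨ρ', rfl⟩ : ∃ ρ', ρ = ρ' + 1 := ⟨ρ - 1, by omega⟩
    have h2 := Gd.low ρ' hGd' (by omega)
    push_cast
    linarith

/-- A special irreducible curve with a point of multiplicity at least two is not a `(-1)`-curve. -/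
theorem not_exc {s : ℕ} {P : Fin s → Fin 2 → ℂ} (hP : Function.Injective P) {d : ℕ}
    {w : Fin s → ℕ} {G : MvPolynomial (Fin 3) ℂ} (hG : Irreducible G)
    (hGd : G.IsHomogeneous d) (hord : ∀ j, Ord (aff (P j)) (w j) G) {ρ : ℕ}
    (hρ : Module.finrank ℂ ↥(VS (fun j => aff (P j)) w d) = ρ + 1) (hsp : chi d w < ρ + 1) :
    ¬ (ip d w d w = -1 ∧ kk d w = 1) := by
  rintro ⟨h2, h3⟩
  have h4 := two_chi d w
  rw [h2, h3] at h4
  obtain ⟨f, hf, hfG⟩ : ∃ f ∈ VS (fun j => aff (P j)) w d, ¬ G ∣ f := by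
    by_contra hcon
    push Not at hcon
    have hfin := DD.mult_finite G 0
    have h1 : VS (fun j => aff (P j)) w d ≤ DD.mult G 0 := by
      intro f hf
      exact DD.mem_mult hGd hG.ne_zero ((mem_VS _ _ _ _).1 hf).1 (hcon f hf) fun _ => rfl
    have h2 := Submodule.finrank_mono h1
    rw [DD.mult_finrank hG.ne_zero] at h2
    have h3 : (0 + 2).choose 2 = 1 := rfl
    omega
  obtain ⟨hf1, hf2⟩ := (mem_VS _ _ _ _).1 hf
  have hf0 : f ≠ 0 := fun h0 => hfG (by rw [h0]; exact dvd_zero _)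
  have hb := DD.bezQ hP hG hGd (fun j => (hord j).1) hf0 hf1 hf2 hfG (Q := ∅)
    (fun j => Finset.notMem_empty _) (fun q hq => absurd hq (Finset.notMem_empty q))
    (fun q hq => absurd hq (Finset.notMem_empty q))
  rw [Finset.card_empty, add_zero] at hb
  have hb' : ((∑ j, w j * w j : ℕ) : ℤ) ≤ (d : ℤ) * d := by exact_mod_cast hb
  push_cast at hb'
  unfold ip at h2
  linarith

/-- Finiteness. -/
theorem fin_main {r : ℕ} {P : Fin (r + 4) → Fin 2 → ℂ}
    (hP : AlgebraicIndependent ℚ (fun ij : Fin (r + 4) × Fin 2 => P ij.1 ij.2)) {d : ℕ}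
    {w : Fin (r + 4) → ℕ} {G : MvPolynomial (Fin 3) ℂ} (hG : Irreducible G)
    (hGd : G.IsHomogeneous d) (hord : ∀ j, Ord (aff (P j)) (w j) G) {ρ : ℕ}
    (hρ : Module.finrank ℂ ↥(VS (fun j => aff (P j)) w d) = ρ + 1) (hsp : chi d w < ρ + 1) :
    ∃ (e : ℕ) (u : Fin (r + 4) → ℕ), Ch (cls d w) (cls e u) ∧
      Irr P e u ∧ Reduced e u ∧ e ≤ d ∧ ip e u e u = ip d w d w ∧
      Module.finrank ℂ ↥(VS (fun j => aff (P j)) u e) = ρ + 1 ∧
      ∀ (f : ℕ) (v : Fin (r + 4) → ℕ), Ch (cls d w) (cls f v) →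
        ∀ (I : Finset (Fin (r + 4))) (M c : ℕ), (∀ k ∈ I, 3 ≤ v k ∧ v k ≤ M) →
          ip d w d w - ρ ≤ c → (c : ℤ) < ∑ k ∈ I, (v k : ℤ) * (v k - 2) →
          (e : ℤ) ≤ 122 * (M : ℤ) ^ 2 * (c + (M : ℤ) ^ 2) ^ 4 ∧
          ((Finset.univ.filter fun j => u j ≠ 0).card : ℤ) + ρ ≤
            28 * (M : ℤ) * (c + (M : ℤ) ^ 2) ^ 2 := by
  classical
  have hinj := inj_of_alg hP
  have hne := not_exc hinj hG hGd hord hρ hsp
  have hI0 : Irr P d w := ⟨⟨G, hG, hGd, hord⟩, hne⟩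
  obtain ⟨e, u, b1, b2, b3, b4, b5, b6, b7⟩ := exists_std_dim hP d w hI0
  rw [hρ] at b7
  refine ⟨e, u, b1, b2, b3, b4, b5, b7, fun f v hfv I M c hI hc hT => ?_⟩
  obtain ⟨f', v', a1, a2, a3, a4, a5⟩ := orbit_dim hP hI0 hfv
  obtain ⟨rfl, rfl⟩ := cls_inj a1
  obtain ⟨F, k1, k2, k3⟩ := a2.ex
  rw [hρ] at a5
  obtain ⟨hM, hg, hq⟩ := orb_genus hP k1 k2 k3 a5 hI (by rw [a3]; exact hc) hT
  rw [a3, a4] at hg
  rw [a3] at hq
  have hc0 : (0 : ℤ) ≤ c := Int.natCast_nonneg c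
  obtain ⟨G', g1, g2, g3⟩ := b2.ex
  have h2χ := two_chi d w
  have h2χ' := two_chi e u
  rw [b5, b6] at h2χ'
  have hχ : chi e u < ρ + 1 := by omega
  -- at least three positive multiplicities
  have he1 : 1 ≤ e := by
    by_contra h0
    have h0' : e = 0 := by omega
    have h4 := g2.totalDegree g1.ne_zero
    rw [h0', totalDegree_eq_zero_iff_eq_C] at h4
    have h5 := g1.not_isUnit
    rw [h4] at h5
    refine h5 ((isUnit_iff_ne_zero.2 fun h6 => g1.ne_zero ?_).map C)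
    rw [h4, h6, map_zero]
  have h3 : ThreePos u := by
    rcases Nat.eq_zero_or_pos ρ with h0 | h0
    · subst h0
      exact threePos_of b3 (kk_neg b3 (by push_cast at hχ; omega))
    · refine threePos_le b3 he1 ?_
      rw [b6]
      obtain ⟨k, hk⟩ : I.Nonempty := by
        rw [Finset.nonempty_iff_ne_empty]
        rintro rfl
        rw [Finset.sum_empty] at hT
        omega
      have hd2 := (gd_of_alg hP k1 k2 k3 ⟨k, hk⟩ fun j hj => by
        have := hI j hj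
        omega).deg
      have h6 := two_chi f v
      rw [a3, a4] at h6
      rw [← a4]
      exact special_kk hinj k1 k2 hd2 k3 h0 a5 (by rw [a5]; push_cast; omega)
  obtain ⟨Q, hQ, hQne⟩ := ext_ne (x := ρ) hP b7.ge
  obtain ⟨c1, c2, c3⟩ := level_ne (by omega) (reduced_ext b3 h3)
    (by rw [chi_ext]; linarith) hQ hQne
  rw [kk_ext, b6] at c1 c2 c3
  rw [card_ext] at c3
  push_cast at c3
  exact num_std_fin (X := c + (M : ℤ) ^ 2) (q := ip d w d w - ρ)
    (κ := -(kk d w - ρ)) hc0 hM rfl hg (by ring) hq (by linarith) c2 c3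

end Pool.Agent.J4H49
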