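import Pool.Agent.J4H49.LinC
import Pool.Agent.J4H49.GrowS

set_option autoImplicit false

/-!
# A negative curve through general points and one of its singular points
-/

namespace Pool.Agent.J4H49

open MvPolynomial Pool.Agent.W609 Pool.Agent.W609.CR Pool.Agent.TH167.SH Pool.Agent.TH167.TT
  Pool.Agent.TH167.CL Pool.Agent.TH167.T3 Pool.Agent.H248R5 Pool.Agent.H248R6

variable {K : Type} [Field K] {s : ℕ}

/-- A negative curve through general points. -/
structure Cv (P : Fin s → Fin 2 → K) (w : Fin s → ℕ) (d : ℕ) (k : Fin s)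
    (G : MvPolynomial (Fin 3) K) [CharZero K] : Prop where
  alg : AlgebraicIndependent ℚ (fun ij : Fin s × Fin 2 => P ij.1 ij.2)
  irr : Irreducible G
  hom : G.IsHomogeneous d
  ord : ∀ j, Ord (aff (P j)) (w j) G
  neg : ip d w d w < 0
  two : 2 ≤ w k
  nrm : ∃ μ, coeff μ G = 1

section

variable [CharZero K] {P : Fin s → Fin 2 → K} {w : Fin s → ℕ} {d : ℕ} {k : Fin s}
  {G : MvPolynomial (Fin 3) K}

/-- The leading form at the singular point. -/
noncomputable abbrev Fl (P : Fin s → Fin 2 → K) (w : Fin s → ℕ) (k : Fin s)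
    (G : MvPolynomial (Fin 3) K) : MvPolynomial (Fin 2) K :=
  homogeneousComponent (w k) (tau (P k) G)

theorem Cv.mem (h : Cv P w d k G) : G ∈ VS (fun j => aff (P j)) w d :=
  (mem_VS _ _ _ _).2 ⟨h.hom, fun j => (h.ord j).1⟩

theorem Cv.memSp (h : Cv P w d k G) : G ∈ Sp P w d k 1 (w k) := by
  rw [mem_sp_one, Function.update_eq_self]
  exact h.mem

theorem Cv.taum (h : Cv P w d k G) : tau (P k) G ∈ Id K (w k) := sp_tau h.memSp

theorem Cv.rigid (h : Cv P w d k G) : Module.finrank K ↥(VS (fun j => aff (P j)) w d) = 1 :=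
  neg_one (inj_of_alg h.alg) h.irr h.hom h.ord h.neg

theorem Cv.taum' (h : Cv P w d k G) : tau (P k) G ∉ Id K (w k + 1) := by
  intro h1
  exact (h.ord k).2 ((van_tau h.hom).2 h1)

theorem Cv.fl_ne (h : Cv P w d k G) : Fl P w k G ≠ 0 := fun h1 =>
  h.taum' (mem_succ h.taum h1)

theorem Cv.fl_hom (_h : Cv P w d k G) : (Fl P w k G).IsHomogeneous (w k) :=
  homogeneousComponent_isHomogeneous _ _

theorem Cv.fl_ld (h : Cv P w d k G) : Fl P w k G ∈ Ld P w d k 1 (w k) :=
  mem_ld.2 ⟨G, h.memSp, rfl⟩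

/-- The derivatives of the leading form. -/
theorem Cv.pp_ld (h : Cv P w d k G) (i j : ℕ) (hij : i + j ≤ w k) :
    (pd 0 ^ i * pd 1 ^ j : Module.End K (MvPolynomial (Fin 2) K)) (Fl P w k G) ∈
      Ld P w d k 1 (w k - (i + j)) := by
  have h1 : ∀ j ≤ w k, (pd 1 ^ j : Module.End K (MvPolynomial (Fin 2) K)) (Fl P w k G) ∈
      Ld P w d k 1 (w k - j) := by
    intro j
    induction j with
    | zero =>
      intro _
      rw [pow_zero, Module.End.one_apply, Nat.sub_zero]
      exact h.fl_ld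
    | succ j ih =>
      intro hj
      have h2 := ih (by omega)
      have e : w k - j = (w k - (j + 1)) + 1 := by omega
      rw [e] at h2
      rw [pow_succ', Module.End.mul_apply, pd_apply]
      exact ld_der h.alg h2 1
  have h2 : ∀ i, i + j ≤ w k → (pd 0 ^ i : Module.End K (MvPolynomial (Fin 2) K))
      ((pd 1 ^ j : Module.End K (MvPolynomial (Fin 2) K)) (Fl P w k G)) ∈
        Ld P w d k 1 (w k - (i + j)) := by
    intro i
    induction i with
    | zero =>
      intro hj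
      rw [pow_zero, Module.End.one_apply, zero_add]
      exact h1 j (by omega)
    | succ i ih =>
      intro hj
      have h2 := ih (by omega)
      have e : w k - (i + j) = (w k - (i + 1 + j)) + 1 := by omega
      rw [e] at h2
      rw [pow_succ', Module.End.mul_apply, pd_apply]
      exact ld_der h.alg h2 0
  rw [Module.End.mul_apply]
  exact h2 i hij

theorem Cv.dq_ld (h : Cv P w d k G) {c : ℕ} (hc : c ≤ w k) :
    Dq (Fl P w k G) (w k - c) ≤ Ld P w d k 1 c := by
  refine dq_induct _ fun i j hij => ?_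
  have h1 := h.pp_ld i j (by omega)
  have e : w k - (i + j) = c := by omega
  rwa [e] at h1

theorem dG_smul_der {σ : Type*} (u0 u1 : K) (D0 D1 : Derivation ℚ K K) (p : MvPolynomial σ K) :
    dG (u0 • D0 + u1 • D1) p = u0 • dG D0 p + u1 • dG D1 p := by
  ext α
  rw [coeff_dG, coeff_add, coeff_smul, coeff_smul, coeff_dG, coeff_dG]
  rfl

/-- Moving the point in a direction. -/
theorem Cv.mv (h : Cv P w d k G) {D : Fin s × Fin 2 → Derivation ℚ K K}
    (hD : ∀ x i b, D x (P i b) = if i = x.1 ∧ b = x.2 then 1 else 0) (u : Fin 2 → K) :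
    dG (u 0 • D (k, 0) + u 1 • D (k, 1)) G ∈ Sp P w d k 1 (w k - 1) ∧
      homogeneousComponent (w k - 1) (tau (P k) (dG (u 0 • D (k, 0) + u 1 • D (k, 1)) G)) =
        - dd' u (Fl P w k G) := by
  have hk : w k = (w k - 1) + 1 := by have := h.two; omega
  have h1 : ∀ a : Fin 2, dG (D (k, a)) G ∈ Sp P w d k 1 (w k - 1) ∧
      homogeneousComponent (w k - 1) (tau (P k) (dG (D (k, a)) G)) = - pderiv a (Fl P w k G) := by
    intro a
    obtain ⟨k1, k2⟩ := move (w := w) (P := P) (d := d) (k := k) (m := w k - 1) hk (a := a)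
      (D (k, a)) (fun i b => hD (k, a) i b) (mem_forms_VS.1 h.mem)
    rw [← hk] at k2
    refine ⟨?_, k2⟩
    rw [mem_sp_one]
    exact mem_forms_VS.2 k1
  rw [dG_smul_der]
  refine ⟨Submodule.add_mem _ (Submodule.smul_mem _ _ (h1 0).1)
    (Submodule.smul_mem _ _ (h1 1).1), ?_⟩
  rw [map_add, map_smul, map_smul, map_add, map_smul, map_smul, (h1 0).2, (h1 1).2, dd'_apply,
    smul_neg, smul_neg]
  abel

/-- The derivatives of the leading form are linearly independent. -/
theorem Cv.ind (h : Cv P w d k G) (u : Fin 2 → K) (hu : dd' u (Fl P w k G) = 0) : u = 0 := by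
  obtain ⟨D, hD⟩ := exists_D h.alg
  obtain ⟨μ, hμ⟩ := h.nrm
  obtain ⟨k1, k2⟩ := h.mv hD u
  obtain ⟨E, hE⟩ : ∃ E, E = u 0 • D (k, 0) + u 1 • D (k, 1) := ⟨_, rfl⟩
  rw [← hE] at k1 k2
  rw [hu, neg_zero] at k2
  have hk : w k = (w k - 1) + 1 := by have := h.two; omega
  have k3 : dG E G ∈ VS (fun j => aff (P j)) w d := by
    have h2 := mem_succ (sp_tau k1) k2
    rw [← hk] at h2
    have k1' := mem_sp.1 k1
    have h3 : dG E G ∈ Sp P w d k 1 (w k) :=
      mem_sp.2 ⟨k1'.1, k1'.2.1, (van_tau k1'.1).2 h2⟩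
    rw [mem_sp_one, Function.update_eq_self] at h3
    exact h3
  have k4 := rigid_der h.rigid h.mem hμ E k3
  have h2 : Van (aff (P k)) 2 G := van_mono h.two (h.ord k).1
  have h3 : ∀ a, E (P k a) = 0 := fun a =>
    sing_const E h.hom h.irr.ne_zero h.irr.squarefree k4 (p := P k)
      ((Pool.Agent.TH167.TT.van_one).1 (van_mono (by omega) h2)) (fun l => pd_mem h2 l) a
  have h4 : ∀ a, E (P k a) = u a := by
    intro a
    rw [hE]
    show u 0 * D (k, 0) (P k a) + u 1 * D (k, 1) (P k a) = u a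
    rw [hD, hD]
    fin_cases a <;> simp
  funext a
  rw [← h4 a, h3 a]
  rfl

/-- A form of the same degree with smaller multiplicity at one point. -/
theorem Cv.exH (h : Cv P w d k G) : ∃ E : Derivation ℚ K K,
    dG E G ∈ Sp P w d k 1 (w k - 1) ∧ ¬ G ∣ dG E G := by
  obtain ⟨D, hD⟩ := exists_D h.alg
  obtain ⟨k1, k2⟩ := h.mv hD ![1, 0]
  refine ⟨_, k1, fun hdvd => ?_⟩
  obtain ⟨q, hq⟩ := hdvd
  have h1 : tau (P k) (dG ((![1, 0] : Fin 2 → K) 0 • D (k, 0) +
      (![1, 0] : Fin 2 → K) 1 • D (k, 1)) G) ∈ Id K (w k - 1 + 1) := by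
    rw [hq, map_mul]
    have e : w k - 1 + 1 = w k := by have := h.two; omega
    rw [e]
    exact Ideal.mul_mem_right _ _ h.taum
  rw [hc_of_mem h1] at k2
  have h2 := h.ind ![1, 0] (neg_eq_zero.1 k2.symm)
  exact one_ne_zero (congrFun h2 0)

end

end Pool.Agent.J4H49
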