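import Pool.Agent.J4H49.DerW

set_option autoImplicit false

/-!
# The weight of a negative curve at a singular point
-/

namespace Pool.Agent.J4H49

open MvPolynomial Pool.Agent.W609 Pool.Agent.W609.CR Pool.Agent.TH167.SH Pool.Agent.TH167.TT
  Pool.Agent.TH167.CL Pool.Agent.TH167.T3 Pool.Agent.H248R5 Pool.Agent.H248R6

/-- The staircases. -/
def cS (m ε : ℕ) (D : ℕ) : ℕ :=
  if D < 2 * m - 1 then D + 1 else if D = 2 * m - 1 then 2 * (m - ε) - 1 else
    if D = 2 * m then m else 2 * ε + 1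

def cA (m ε : ℕ) (D : ℕ) : ℕ :=
  if D < m then D + 1 else if D = m then m - ε else ε + 1

def cB (m ε : ℕ) (D : ℕ) : ℕ :=
  if D < m - 1 then D + 1 else if D = m - 1 then m - ε - 1 else ε

theorem sum_tri (n : ℕ) : 2 * ∑ D ∈ Finset.range n, (D + 1) = n * (n + 1) := by
  induction n with
  | zero => rfl
  | succ n ih =>
    rw [Finset.sum_range_succ, mul_add, ih]
    ring

theorem sum_cS {m ε : ℕ} (hm : 6 * ε + 1 ≤ m) :
    ∑ D ∈ Finset.range (2 * m + 2), cS m ε D = 2 * (m * m) + 2 * m := by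
  obtain ⟨n, hn⟩ : ∃ n, 2 * m = n + 1 := ⟨2 * m - 1, by omega⟩
  have e : 2 * m + 2 = n + 1 + 1 + 1 := by omega
  rw [e, Finset.sum_range_succ, Finset.sum_range_succ, Finset.sum_range_succ]
  have h1 : ∑ D ∈ Finset.range n, cS m ε D = ∑ D ∈ Finset.range n, (D + 1) := by
    refine Finset.sum_congr rfl fun D hD => ?_
    rw [Finset.mem_range] at hD
    unfold cS
    rw [if_pos (by omega)]
  have h2 : cS m ε n = 2 * (m - ε) - 1 := by
    unfold cS
    rw [if_neg (by omega), if_pos (by omega)]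
  have h3 : cS m ε (n + 1) = m := by
    unfold cS
    rw [if_neg (by omega), if_neg (by omega), if_pos (by omega)]
  have h4 : cS m ε (n + 1 + 1) = 2 * ε + 1 := by
    unfold cS
    rw [if_neg (by omega), if_neg (by omega), if_neg (by omega)]
  rw [h1, h2, h3, h4]
  have h5 := sum_tri n
  have h6 : n * (n + 1) = 2 * (n * m) := by
    rw [← hn]
    ring
  have h7 : n * m + m = 2 * (m * m) := by
    have : (n + 1) * m = 2 * m * m := by rw [hn]
    nlinarith
  omega

theorem sum_cA {m ε : ℕ} (hm : 6 * ε + 1 ≤ m) :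
    2 * ∑ D ∈ Finset.range (m + 2), cA m ε D = m * m + 3 * m + 2 := by
  have e : m + 2 = m + 1 + 1 := rfl
  rw [e, Finset.sum_range_succ, Finset.sum_range_succ]
  have h1 : ∑ D ∈ Finset.range m, cA m ε D = ∑ D ∈ Finset.range m, (D + 1) := by
    refine Finset.sum_congr rfl fun D hD => ?_
    rw [Finset.mem_range] at hD
    unfold cA
    rw [if_pos hD]
  have h2 : cA m ε m = m - ε := by
    unfold cA
    rw [if_neg (by omega), if_pos rfl]
  have h3 : cA m ε (m + 1) = ε + 1 := by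
    unfold cA
    rw [if_neg (by omega), if_neg (by omega)]
  rw [h1, h2, h3, mul_add, mul_add, sum_tri]
  have h4 : m * (m + 1) = m * m + m := by ring
  omega

theorem sum_cB {m ε : ℕ} (hm : 6 * ε + 1 ≤ m) :
    2 * ∑ D ∈ Finset.range (m + 1), cB m ε D + 2 = m * m + m := by
  obtain ⟨n, hn⟩ : ∃ n, m = n + 1 := ⟨m - 1, by omega⟩
  have e : m + 1 = n + 1 + 1 := by omega
  rw [e, Finset.sum_range_succ, Finset.sum_range_succ]
  have h1 : ∑ D ∈ Finset.range n, cB m ε D = ∑ D ∈ Finset.range n, (D + 1) := by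
    refine Finset.sum_congr rfl fun D hD => ?_
    rw [Finset.mem_range] at hD
    unfold cB
    rw [if_pos (by omega)]
  have h2 : cB m ε n = m - ε - 1 := by
    unfold cB
    rw [if_neg (by omega), if_pos (by omega)]
  have h3 : cB m ε (n + 1) = ε := by
    unfold cB
    rw [if_neg (by omega), if_neg (by omega)]
  rw [h1, h2, h3, mul_add, mul_add, sum_tri]
  have h4 : m * m = n * (n + 1) + n + 1 := by
    rw [hn]
    ring
  omega

/-- The weight of the curve is not too large. -/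
theorem Cv.wcontra {K : Type} [Field K] [CharZero K] [IsAlgClosed K] {s : ℕ}
    {P : Fin s → Fin 2 → K} {w : Fin s → ℕ} {d : ℕ} {k : Fin s} {G : MvPolynomial (Fin 3) K}
    (h : Cv P w d k G) {A : Matrix (Fin 2) (Fin 2) K} (hA : A.det ≠ 0) {ε q : ℕ} (hε : 1 ≤ ε)
    (h6 : 6 * ε + 1 ≤ w k) (hF : Fu P w d k 1 ε) (hq : q + 2 * ε + 1 = w k)
    (hg : Wg q (q * w k + (w k - ε)) (LA A (P k) G)) : False := by
  classical
  obtain ⟨m, hm⟩ : ∃ m, m = w k := ⟨_, rfl⟩
  rw [← hm] at h6 hq hg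
  obtain ⟨E, hE1, hE2⟩ := h.exH
  have hE0 : dG E G ∈ Sp P w d k 1 0 := sp_mono (Nat.zero_le _) hE1
  obtain ⟨W, hW⟩ : ∃ W, q * m + (m - ε) = W + (q + 1) := by
    refine ⟨q * m + (m - ε) - (q + 1), ?_⟩
    have : q ≤ q * m := Nat.le_mul_of_pos_right q (by omega)
    omega
  have hH : Wg q W (LA A (P k) (dG E G)) := wg_der hA (P k) (by rw [← hW]; exact hg) E
  obtain ⟨e, he⟩ : ∃ e, m = e + ε := ⟨m - ε, by omega⟩
  have he' : m - ε = e := by omega
  rw [he'] at hW hg
  -- the numbers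
  have hqm : q * m = q * (m - 1) + q := by
    obtain ⟨z, hz⟩ : ∃ z, m = z + 1 := ⟨m - 1, by omega⟩
    rw [hz, Nat.add_sub_cancel]
    ring
  have hcS : ∀ D < 2 * m + 2, ∀ j < cS m ε D, j ≤ D ∧ q * D + j < (q * m + e) + W := by
    intro D hD j hj
    have e1 : (q * m + e) + W = q * (2 * m - 1) + 2 * e - 1 := by
      have : q * (2 * m - 1) + q = 2 * (q * m) := by
        obtain ⟨z, hz⟩ : ∃ z, m = z + 1 := ⟨m - 1, by omega⟩
        rw [hz]
        have : 2 * (z + 1) - 1 = 2 * z + 1 := by omega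
        rw [this]
        ring
      omega
    rw [e1]
    unfold cS at hj
    split_ifs at hj with h1 h2 h3
    · refine ⟨by omega, ?_⟩
      have : q * D + q ≤ q * (2 * m - 1) := by
        have h5 : q * (D + 1) ≤ q * (2 * m - 1) := Nat.mul_le_mul_left q (by omega)
        rwa [Nat.mul_succ] at h5
      omega
    · refine ⟨by omega, ?_⟩
      rw [h2]
      omega
    · refine ⟨by omega, ?_⟩
      have : q * D = q * (2 * m - 1) + q := by
        have h5 : D = (2 * m - 1) + 1 := by omega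
        rw [h5, Nat.mul_succ]
      omega
    · refine ⟨by omega, ?_⟩
      have : q * D = q * (2 * m - 1) + q + q := by
        have h5 : D = (2 * m - 1) + 1 + 1 := by omega
        rw [h5, Nat.mul_succ, Nat.mul_succ]
      omega
  have hcA : ∀ a b, wt q a b < q * m + e → a + b < m + 2 ∧ b < cA m ε (a + b) := by
    intro a b hab
    unfold wt at hab
    obtain ⟨D, hD⟩ : ∃ D, D = a + b := ⟨_, rfl⟩
    rw [← hD] at hab ⊢
    have h1 : D < m + 2 := by
      by_contra hcon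
      have h5 : q * (m + 2) ≤ q * D := Nat.mul_le_mul_left q (by omega)
      have h6 : q * (m + 2) = q * m + q + q := by ring
      omega
    refine ⟨h1, ?_⟩
    unfold cA
    split_ifs with h2 h3
    · omega
    · rw [h3] at hab
      omega
    · have h4 : D = m + 1 := by omega
      rw [h4, Nat.mul_succ] at hab
      omega
  have hcB : ∀ a b, wt q a b < W → a + b < m + 1 ∧ b < cB m ε (a + b) := by
    intro a b hab
    unfold wt at hab
    obtain ⟨D, hD⟩ : ∃ D, D = a + b := ⟨_, rfl⟩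
    rw [← hD] at hab ⊢
    have h1 : D < m + 1 := by
      by_contra hcon
      have h5 : q * (m + 1) ≤ q * D := Nat.mul_le_mul_left q (by omega)
      have h6 : q * (m + 1) = q * m + q := by ring
      omega
    refine ⟨h1, ?_⟩
    unfold cB
    split_ifs with h2 h3
    · omega
    · rw [h3] at hab
      omega
    · have h4 : D = m := by omega
      rw [h4] at hab
      omega
  -- the linear map
  obtain ⟨φ, hφ⟩ : ∃ φ : MvPolynomial (Fin 2) K →ₗ[K] ((Σ D : Fin (2 * m + 2), Fin (cS m ε D)) → K),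
      φ = (stc (cS m ε) (2 * m + 2)).comp (lt A).toLinearMap := ⟨_, rfl⟩
  have hφ1 : ∀ p, φ p = stc (cS m ε) (2 * m + 2) (lt A p) := fun p => by rw [hφ]; rfl
  have hφid : ∀ p ∈ Id K (2 * m + 2), φ p = 0 := by
    intro p hp
    rw [hφ1]
    funext x
    rw [stc_apply]
    have h1 := (mem_id.1 (lt_id A hp)) (ex ((x.1 : ℕ) - (x.2 : ℕ)) (x.2 : ℕ)) (by
      rw [ex_degree]
      have h2 := (hcS x.1 x.1.2 x.2 x.2.2).1
      have h3 := x.1.2
      omega)
    exact h1
  have hφs : ∀ n, 2 * m + 1 ≤ n + 1 → ∀ v, ∃ f ∈ Sp P w d k (n + 1) 0, φ (tau (P k) f) = v := by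
    intro n hn v
    obtain ⟨p0, hp0⟩ := stc_surj (K := K) (c := cS m ε) (n1 := 2 * m + 2)
      (fun D hD j hj => (hcS D hD j hj).1) v
    have hFn : Fu P w d k (n + 1) (2 * m + 1) := fu_mono (fu_nsmul hF (n + 1)) (by
      have : n + 1 ≤ (n + 1) * ε := Nat.le_mul_of_pos_right _ (by omega)
      omega)
    obtain ⟨f, hf1, hf2⟩ := jets hFn (lt A⁻¹ p0)
    refine ⟨f, hf1, ?_⟩
    have h1 := hφid _ hf2
    rw [map_sub, sub_eq_zero] at h1
    rw [h1, hφ1, lt_inv' hA, hp0]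
  -- the image of the ideal
  let A1 := LinearMap.range (φ.comp (LinearMap.mulLeft K (tau (P k) G)))
  let A2 := LinearMap.range (φ.comp (LinearMap.mulLeft K (tau (P k) (dG E G))))
  have hI : ∀ a b : MvPolynomial (Fin 2) K,
      φ (tau (P k) G * a + tau (P k) (dG E G) * b) ∈ A1 ⊔ A2 := by
    intro a b
    rw [map_add]
    exact Submodule.add_mem_sup ⟨a, rfl⟩ ⟨b, rfl⟩
  have hA1 : Module.finrank K ↥A1 ≤ ∑ D ∈ Finset.range (m + 1), cB m ε D := by
    rw [← stc_rank (K := K)]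
    refine rank_fac _ ((stc (cB m ε) (m + 1)).comp (lt A).toLinearMap) fun x hx => ?_
    show φ (tau (P k) G * x) = 0
    rw [hφ1, map_mul]
    exact wg_stc_zero (wg_mul hg (stc_zero_wg (c := cB m ε) hx hcB)) hcS
  have hA2 : Module.finrank K ↥A2 ≤ ∑ D ∈ Finset.range (m + 2), cA m ε D := by
    rw [← stc_rank (K := K)]
    refine rank_fac _ ((stc (cA m ε) (m + 2)).comp (lt A).toLinearMap) fun x hx => ?_
    show φ (tau (P k) (dG E G) * x) = 0
    rw [hφ1, map_mul]
    refine wg_stc_zero (W := (q * m + e) + W) ?_ hcS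
    rw [add_comm (q * m + e) W]
    exact wg_mul hH (stc_zero_wg (c := cA m ε) hx hcA)
  have hI2 : Module.finrank K ↥(A1 ⊔ A2) + m * m ≤
      Module.finrank K ((Σ D : Fin (2 * m + 2), Fin (cS m ε D)) → K) := by
    have h1 := Submodule.finrank_add_le_finrank_add_finrank A1 A2
    have h2 := sum_cA h6
    have h3 := sum_cB h6
    rw [stc_rank, sum_cS h6]
    omega
  -- the growth
  have hgrow : ∀ t : ℕ, ∃ V : Submodule K (MvPolynomial (Fin 3) K),
      V ≤ Sp P w d k (2 * m + t) 0 ∧ Module.Finite K ↥V ∧ (∀ f ∈ V, G ∣ f → f = 0) ∧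
      t * (m * m) ≤ Module.finrank K ↥V := by
    intro t
    induction t with
    | zero =>
      refine ⟨⊥, bot_le, inferInstance, fun f hf _ => (Submodule.mem_bot K).1 hf, ?_⟩
      rw [zero_mul]
      exact Nat.zero_le _
    | succ t ih =>
      obtain ⟨V, hV1, hV2, hV3, hV4⟩ := ih
      obtain ⟨V', hV1', hV2', hV3', hV4'⟩ := grow_gen (n := 2 * m + t) φ
        (hφs (2 * m + t) (by omega)) h.irr hE0 hE2 (A1 ⊔ A2) hI V hV1 hV3
      refine ⟨V', hV1', hV2', hV3', ?_⟩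
      have : (t + 1) * (m * m) = t * (m * m) + m * m := by ring
      omega
  -- the contradiction
  obtain ⟨Q, hQ⟩ : ∃ Q : ℤ, Q = (d : ℤ) ^ 2 - 3 * d - ∑ i, (w i : ℤ) ^ 2 + ∑ i, (w i : ℤ) :=
    ⟨_, rfl⟩
  obtain ⟨t, ht1, ht2⟩ : ∃ t : ℕ, (2 * m + 3 : ℤ) ≤ t ∧ 4 * (m : ℤ) * (m ^ 2 - 1) - Q < 2 * t := by
    refine ⟨2 * m + 3 + (4 * (m : ℤ) * (m ^ 2 - 1) - Q).toNat, ?_, ?_⟩
    · push_cast
      have : (0 : ℤ) ≤ ((4 * (m : ℤ) * (m ^ 2 - 1) - Q).toNat : ℤ) := Int.natCast_nonneg _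
      linarith
    · have h1 := Int.self_le_toNat (4 * (m : ℤ) * (m ^ 2 - 1) - Q)
      have : (0 : ℤ) ≤ ((4 * (m : ℤ) * (m ^ 2 - 1) - Q).toNat : ℤ) := Int.natCast_nonneg _
      push_cast at *
      linarith
  obtain ⟨V, hV1, hV2, hV3, hV4⟩ := hgrow t
  have hm2 : (7 : ℤ) ≤ m := by
    have : 7 ≤ m := by omega
    exact_mod_cast this
  have hV4' : (t : ℤ) * (m * m) ≤ (Module.finrank K ↥V : ℤ) := by exact_mod_cast hV4
  have h1 := h.bnd V hV1 hV2 hV3 ((t : ℤ) * (m * m)) (by nlinarith) hV4' (by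
    rw [← hm]
    push_cast
    nlinarith)
  rw [← hQ, ← hm] at h1
  push_cast at h1
  nlinarith

end Pool.Agent.J4H49
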