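import Pool.Agent.J4H49.LinC

set_option autoImplicit false

/-!
# Weights of polynomials in two variables
-/

namespace Pool.Agent.J4H49

open MvPolynomial Pool.Agent.TH167.CL

variable {K : Type} [Field K]

/-- The weights of the two variables. -/
def wv (q : ℕ) : Fin 2 → ℕ := ![q, q + 1]

/-- The weight of the monomial with the exponents `a` and `b`. -/
def wt (q a b : ℕ) : ℕ := q * (a + b) + b

theorem weight_ex (q a b : ℕ) : Finsupp.weight (wv q) (ex a b) = wt q a b := by
  rw [Finsupp.weight_eq_sum, Fin.sum_univ_two, ex_zero, ex_one]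
  show a * q + b * (q + 1) = q * (a + b) + b
  ring

theorem weight_eq (q : ℕ) (x : Fin 2 →₀ ℕ) : Finsupp.weight (wv q) x = wt q (x 0) (x 1) := by
  conv_lhs => rw [ex_eta x]
  exact weight_ex _ _ _

/-- All monomials have at least the given weight. -/
def Wg (q W : ℕ) (p : MvPolynomial (Fin 2) K) : Prop :=
  ∀ a b, wt q a b < W → coeff (ex a b) p = 0

/-- The component of the given weight. -/
noncomputable def wc (q W : ℕ) : MvPolynomial (Fin 2) K →ₗ[K] MvPolynomial (Fin 2) K :=
  weightedHomogeneousComponent (wv q) W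

theorem coeff_wc' (q W : ℕ) (p : MvPolynomial (Fin 2) K) (x : Fin 2 →₀ ℕ) :
    coeff x (wc q W p) = if wt q (x 0) (x 1) = W then coeff x p else 0 := by
  unfold wc
  rw [coeff_weightedHomogeneousComponent, weight_eq]

theorem coeff_wc (q W : ℕ) (p : MvPolynomial (Fin 2) K) (a b : ℕ) :
    coeff (ex a b) (wc q W p) = if wt q a b = W then coeff (ex a b) p else 0 := by
  rw [coeff_wc', ex_zero, ex_one]

theorem wg_coeff {q W : ℕ} {p : MvPolynomial (Fin 2) K} (h : Wg q W p) {x : Fin 2 →₀ ℕ}
    (hx : wt q (x 0) (x 1) < W) : coeff x p = 0 := by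
  rw [ex_eta x]
  exact h _ _ hx

theorem wt_add (q : ℕ) (x y : Fin 2 →₀ ℕ) : wt q ((x + y) 0) ((x + y) 1) =
    wt q (x 0) (x 1) + wt q (y 0) (y 1) := by
  unfold wt
  rw [Finsupp.add_apply, Finsupp.add_apply]
  ring

theorem wg_mono {q W W' : ℕ} (hW : W' ≤ W) {p : MvPolynomial (Fin 2) K} (h : Wg q W p) :
    Wg q W' p := fun a b hab => h a b (by omega)

theorem wg_zero (q W : ℕ) : Wg q W (0 : MvPolynomial (Fin 2) K) := fun _ _ _ => coeff_zero _

theorem wg_add {q W : ℕ} {p p' : MvPolynomial (Fin 2) K} (h : Wg q W p) (h' : Wg q W p') :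
    Wg q W (p + p') := by
  intro a b hab
  rw [coeff_add, h a b hab, h' a b hab, add_zero]

theorem wg_smul {q W : ℕ} (c : K) {p : MvPolynomial (Fin 2) K} (h : Wg q W p) :
    Wg q W (c • p) := by
  intro a b hab
  rw [coeff_smul, h a b hab, smul_zero]

theorem wg_neg {q W : ℕ} {p : MvPolynomial (Fin 2) K} (h : Wg q W p) : Wg q W (-p) := by
  intro a b hab
  rw [coeff_neg, h a b hab, neg_zero]

theorem wg_sum {q W : ℕ} {ι : Type*} (S : Finset ι) (f : ι → MvPolynomial (Fin 2) K)
    (h : ∀ i ∈ S, Wg q W (f i)) : Wg q W (∑ i ∈ S, f i) := by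
  intro a b hab
  rw [coeff_sum]
  exact Finset.sum_eq_zero fun i hi => h i hi a b hab

theorem wg_mul {q W W' : ℕ} {p p' : MvPolynomial (Fin 2) K} (h : Wg q W p) (h' : Wg q W' p') :
    Wg q (W + W') (p * p') := by
  classical
  intro a b hab
  rw [coeff_mul]
  refine Finset.sum_eq_zero fun x hx => ?_
  rw [Finset.HasAntidiagonal.mem_antidiagonal] at hx
  have h1 := wt_add q x.1 x.2
  rw [hx, ex_zero, ex_one] at h1
  rcases Nat.lt_or_ge (wt q (x.1 0) (x.1 1)) W with h2 | h2
  · rw [wg_coeff h h2, zero_mul]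
  · rw [wg_coeff h' (by omega), mul_zero]

/-- The lowest components of a product. -/
theorem wc_mul {q W W' : ℕ} {p p' : MvPolynomial (Fin 2) K} (h : Wg q W p) (h' : Wg q W' p') :
    wc q (W + W') (p * p') = wc q W p * wc q W' p' := by
  classical
  refine ext_ex fun a b => ?_
  rw [coeff_wc, coeff_mul, coeff_mul]
  split_ifs with hab
  · refine Finset.sum_congr rfl fun x hx => ?_
    rw [Finset.HasAntidiagonal.mem_antidiagonal] at hx
    have h1 := wt_add q x.1 x.2
    rw [hx, ex_zero, ex_one] at h1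
    rw [coeff_wc', coeff_wc']
    rcases lt_trichotomy (wt q (x.1 0) (x.1 1)) W with h2 | h2 | h2
    · rw [wg_coeff h h2, zero_mul, if_neg (ne_of_lt h2), zero_mul]
    · rw [if_pos h2, if_pos (by omega)]
    · rw [wg_coeff h' (by omega), mul_zero, if_neg (ne_of_gt h2), zero_mul]
  · symm
    refine Finset.sum_eq_zero fun x hx => ?_
    rw [Finset.HasAntidiagonal.mem_antidiagonal] at hx
    have h1 := wt_add q x.1 x.2
    rw [hx, ex_zero, ex_one] at h1
    rw [coeff_wc', coeff_wc']
    split_ifs with h2 h3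
    · exfalso
      omega
    · rw [mul_zero]
    · rw [zero_mul]
    · rw [zero_mul]

/-- A polynomial which is not zero has a lowest component. -/
theorem exists_wc (q : ℕ) {p : MvPolynomial (Fin 2) K} (hp : p ≠ 0) :
    ∃ W, Wg q W p ∧ wc q W p ≠ 0 := by
  classical
  have hex : ∃ W a b, wt q a b = W ∧ coeff (ex a b) p ≠ 0 := by
    by_contra hcon
    push Not at hcon
    apply hp
    refine ext_ex fun a b => ?_
    rw [coeff_zero]
    exact hcon _ a b rfl
  obtain ⟨a, b, hab, hc⟩ := Nat.find_spec hex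
  refine ⟨Nat.find hex, ?_, ?_⟩
  · intro a' b' h
    by_contra hne
    exact Nat.find_min hex h ⟨a', b', rfl, hne⟩
  · intro h
    have h1 := congrArg (coeff (ex a b)) h
    rw [coeff_wc, if_pos hab, coeff_zero] at h1
    exact hc h1

theorem wc_of_lt {q W W' : ℕ} {p : MvPolynomial (Fin 2) K} (h : Wg q W p) (hW : W' < W) :
    wc q W' p = 0 := by
  refine ext_ex fun a b => ?_
  rw [coeff_wc, coeff_zero]
  split_ifs with h1
  · exact h a b (by omega)
  · rfl

/-- The lowest component is a monomial. -/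
def Ini (q a b : ℕ) (p : MvPolynomial (Fin 2) K) : Prop :=
  Wg q (wt q a b) p ∧ ∃ c : K, c ≠ 0 ∧ wc q (wt q a b) p = c • (X 0 ^ a * X 1 ^ b)

theorem wt_add' (q a b a' b' : ℕ) : wt q (a + a') (b + b') = wt q a b + wt q a' b' := by
  unfold wt
  ring

theorem ini_mul {q a b a' b' : ℕ} {p p' : MvPolynomial (Fin 2) K} (h : Ini q a b p)
    (h' : Ini q a' b' p') : Ini q (a + a') (b + b') (p * p') := by
  obtain ⟨h1, c, hc, h2⟩ := h
  obtain ⟨h1', c', hc', h2'⟩ := h'
  refine ⟨?_, c * c', mul_ne_zero hc hc', ?_⟩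
  · rw [wt_add']
    exact wg_mul h1 h1'
  · rw [wt_add', wc_mul h1 h1', h2, h2', smul_mul_smul_comm, pow_add, pow_add]
    congr 1
    ring

theorem ini_one (q : ℕ) : Ini q 0 0 (1 : MvPolynomial (Fin 2) K) := by
  refine ⟨fun a b h => ?_, 1, one_ne_zero, ?_⟩
  · exfalso
    unfold wt at h
    omega
  · refine ext_ex fun a b => ?_
    rw [coeff_wc, pow_zero, pow_zero, mul_one, one_smul]
    split_ifs with h
    · rfl
    · rw [← C_1, coeff_C, if_neg]
      intro h1
      apply h
      have h2 : a = 0 := by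
        have := congrArg (fun x => x 0) h1
        simp only [ex_zero] at this
        exact this.symm
      have h3 : b = 0 := by
        have := congrArg (fun x => x 1) h1
        simp only [ex_one] at this
        exact this.symm
      rw [h2, h3]

/-- A multiple of a polynomial whose lowest component vanishes at a point of the torus does not
start with a monomial. -/
theorem no_mult {q W0 W a b : ℕ} {g γ : MvPolynomial (Fin 2) K} (hg : Wg q W0 g)
    (hg0 : wc q W0 g ≠ 0) {y : K} (hy : y ≠ 0)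
    (hgy : eval (![1, y] : Fin 2 → K) (wc q W0 g) = 0)
    (hp : Wg q W (g * γ)) {c : K} (hc : c ≠ 0) (hpc : wc q W (g * γ) = c • (X 0 ^ a * X 1 ^ b)) :
    False := by
  have hmon : eval (![1, y] : Fin 2 → K) (c • (X 0 ^ a * X 1 ^ b)) = c * y ^ b := by
    rw [smul_eval, map_mul, map_pow, map_pow, eval_X, eval_X]
    simp
  have hγ : γ ≠ 0 := by
    rintro rfl
    rw [mul_zero, map_zero] at hpc
    have h1 := hmon
    rw [← hpc, map_zero] at h1
    exact mul_ne_zero hc (pow_ne_zero b hy) h1.symm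
  obtain ⟨W1, h1, h2⟩ := exists_wc q hγ
  have h3 := wg_mul hg h1
  have h4 := wc_mul hg h1
  have h5 : wc q (W0 + W1) (g * γ) ≠ 0 := by
    rw [h4]
    exact mul_ne_zero hg0 h2
  have h6 : wc q W (g * γ) ≠ 0 := by
    intro h
    have h7 := hmon
    rw [← hpc, h, map_zero] at h7
    exact mul_ne_zero hc (pow_ne_zero b hy) h7.symm
  have h7 : W = W0 + W1 := by
    rcases lt_trichotomy W (W0 + W1) with h | h | h
    · exact absurd (wc_of_lt h3 h) h6
    · exact h
    · exact absurd (wc_of_lt hp h) h5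
  rw [h7, h4] at hpc
  have h8 := congrArg (eval (![1, y] : Fin 2 → K)) hpc
  rw [map_mul, hgy, zero_mul, hmon] at h8
  exact mul_ne_zero hc (pow_ne_zero b hy) h8.symm

/-- Derivatives. -/
theorem wg_pd {q W : ℕ} {p : MvPolynomial (Fin 2) K} (h : Wg q (W + (q + 1)) p) (j : Fin 2) :
    Wg q W (pderiv j p) := by
  intro a b hab
  fin_cases j
  · have h1 := coeff_pd0 p a b
    rw [pd_apply] at h1
    show coeff (ex a b) (pderiv 0 p) = 0
    rw [h1, h (a + 1) b (by unfold wt at hab ⊢; nlinarith), zero_mul]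
  · have h1 := coeff_pd1 p a b
    rw [pd_apply] at h1
    show coeff (ex a b) (pderiv 1 p) = 0
    rw [h1, h a (b + 1) (by unfold wt at hab ⊢; nlinarith), zero_mul]

theorem wg_hom {q c : ℕ} {p : MvPolynomial (Fin 2) K} (h : p.IsHomogeneous c) :
    Wg q (q * c) p := by
  intro a b hab
  rw [hom_iff] at h
  apply h
  rintro rfl
  unfold wt at hab
  omega

end Pool.Agent.J4H49
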